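import Mathlib

/-!
# Hua systems and the identities of quadratic Jordan algebras
-/

set_option autoImplicit false

namespace Pool.Agent.HuaVal

/-- The axioms (HS1)-(HS3) of a Hua system on the abelian group `A`; `none` is the point at
infinity. -/
structure IsHua {A : Type*} [AddCommGroup A] (j : A → Option A → Option A) : Prop where
  hs1 : ∀ a : A, a ≠ 0 → (∀ x : Option A, j a (j a x) = x) ∧ j a (some a) = some a ∧
      j a (some (-a)) = some (-a) ∧ j a (some 0) = none
  hs2 : ∀ a : A, a ≠ 0 → ∀ x : Option A,
      Option.map (fun b => a - b) (j a (Option.map (fun b => a - b)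
        (j a (Option.map (fun b => a - b) (j a x))))) = x
  hs3 : ∀ a b : A, a ≠ 0 → b ≠ 0 → ∃ f : A →+ A, ∀ x : A, j a (j b (some x)) = some (f x)

/-- The three identities of a quadratic Jordan algebra for the quadratic map `U` with unit
`one`: `U_1 = id`, `U_a V_{b,a} = V_{a,b} U_a` and `U_{U_a b} = U_a U_b U_a`, where
`V_{a,b} c = U_{a,c} b` and `U_{a,c} = U_{a+c} - U_a - U_c`. -/
def JordanIdentities {R M : Type*} [CommRing R] [AddCommGroup M] [Module R M]
    (U : QuadraticMap R M (Module.End R M)) (one : M) : Prop :=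
  U one = 1 ∧
  (∀ a b c : M, U a ((QuadraticMap.polar (⇑U) b c) a) =
    (QuadraticMap.polar (⇑U) a (U a c)) b) ∧
  (∀ a b : M, U (U a b) = U a * U b * U a)

end Pool.Agent.HuaVal
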