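import Mathlib
import Pool.Agent.HuaVal.Defs

/-!
# Hua systems: the basic identities

From (HS1)-(HS3) we derive the identities of the maps `J a : A → A`
(`j a` restricted to the nonzero elements, with `J a 0 = 0`).
-/

set_option autoImplicit false

namespace Pool.Agent.HuaVal

/-- the derived properties of the maps `J a` -/
structure JSys {A : Type*} [AddCommGroup A] (J : A → A → A) : Prop where
  zero : ∀ a, a ≠ 0 → J a 0 = 0
  inv : ∀ a x, a ≠ 0 → J a (J a x) = x
  self : ∀ a, a ≠ 0 → J a a = a
  add : ∀ a b x y, a ≠ 0 → b ≠ 0 → J a (J b (x + y)) = J a (J b x) + J a (J b y)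
  neg : ∀ a x, a ≠ 0 → J a (-x) = -J a x
  negl : ∀ a x, a ≠ 0 → J (-a) x = J a x
  comp : ∀ a b x, a ≠ 0 → b ≠ 0 → J (J a b) x = J a (J b (J a x))
  hua : ∀ e x y, e ≠ 0 → x ≠ 0 → y ≠ 0 → x ≠ y → J x y = x - J e (J e x - J e (x - y))
  sub : ∀ a b x, a ≠ 0 → b ≠ 0 → a ≠ b → J (a - b) x = J a (J b (J (J b a - b) x))

section

variable {A : Type*} [AddCommGroup A]

/-- the reflection `b ↦ a - b` -/
private def s (a : A) : Equiv.Perm (Option A) :=
  Function.Involutive.toPerm (Option.map (fun b => a - b)) (by
    intro x
    cases x with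
    | none => rfl
    | some x => simp)

private lemma s_none (a : A) : s a none = none := rfl

private lemma s_some (a b : A) : s a (some b) = some (a - b) := rfl

private lemma s_sq (a : A) : s a * s a = 1 := by
  ext x
  cases x with
  | none => rfl
  | some x => simp [Equiv.Perm.mul_apply, s_some]

private lemma s_mul (a b c : A) : s a * s b * s c = s (a - b + c) := by
  apply Equiv.ext
  intro x
  cases x with
  | none => rfl
  | some x =>
    simp only [Equiv.Perm.mul_apply, s_some]
    congr 1
    abel

open Classical in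
/-- `j a` as a permutation -/
private noncomputable def p {j : A → Option A → Option A} (hj : IsHua j) (a : A) :
    Equiv.Perm (Option A) :=
  if h : a ≠ 0 then Function.Involutive.toPerm (j a) (hj.hs1 a h).1 else 1

variable {j : A → Option A → Option A} (hj : IsHua j)

include hj

private lemma p_apply {a : A} (ha : a ≠ 0) (x : Option A) : p hj a x = j a x := by
  rw [p, dif_pos ha]
  rfl

private lemma p_sq (a : A) : p hj a * p hj a = 1 := by
  by_cases h : a ≠ 0
  · apply Equiv.ext
    intro x
    rw [Equiv.Perm.mul_apply, p_apply hj h, p_apply hj h, (hj.hs1 a h).1]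
    rfl
  · rw [p, dif_neg h, mul_one]

private lemma p_self {a : A} (ha : a ≠ 0) : p hj a (some a) = some a := by
  rw [p_apply hj ha, (hj.hs1 a ha).2.1]

private lemma p_neg_self {a : A} (ha : a ≠ 0) : p hj a (some (-a)) = some (-a) := by
  rw [p_apply hj ha, (hj.hs1 a ha).2.2.1]

private lemma p_zero {a : A} (ha : a ≠ 0) : p hj a (some 0) = none := by
  rw [p_apply hj ha, (hj.hs1 a ha).2.2.2]

private lemma p_p (a : A) (x : Option A) : p hj a (p hj a x) = x := by
  have h := congrArg (fun f => f x) (p_sq hj a)
  exact h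

private lemma p_none {a : A} (ha : a ≠ 0) : p hj a none = some 0 := by
  rw [← p_zero hj ha, p_p]

/-- conjugation of a reflection by an additive permutation -/
private lemma conj_s {a b : A} (ha : a ≠ 0) (hb : b ≠ 0) : ∃ f : A →+ A,
    (∀ x, p hj a (p hj b (some x)) = some (f x)) ∧
    ∀ x, p hj a * p hj b * s x * p hj b * p hj a = s (f x) := by
  obtain ⟨f, hf⟩ := hj.hs3 a b ha hb
  have hf' : ∀ x, p hj a (p hj b (some x)) = some (f x) := by
    intro x
    rw [p_apply hj ha, p_apply hj hb, hf]
  refine ⟨f, hf', fun x => ?_⟩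
  have key : p hj a * p hj b * s x = s (f x) * (p hj a * p hj b) := by
    apply Equiv.ext
    intro y
    cases y with
    | none =>
      simp only [Equiv.Perm.mul_apply, s_none, p_none hj hb, p_zero hj ha]
    | some y =>
      simp only [Equiv.Perm.mul_apply, s_some, hf', map_sub]
  rw [key]
  have h1 : p hj a * p hj b * p hj b * p hj a = 1 := by
    rw [mul_assoc (p hj a), p_sq, mul_one, p_sq]
  rw [mul_assoc, mul_assoc, ← mul_assoc (p hj a * p hj b), h1, mul_one]

/-- the value of `j a` at a nonzero element -/
private noncomputable def J (a x : A) : A := (p hj a (some x)).getD 0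

private lemma J_zero {a : A} (ha : a ≠ 0) : J hj a 0 = 0 := by
  rw [J, p_zero hj ha]
  rfl

private lemma J_spec {a x : A} (ha : a ≠ 0) (hx : x ≠ 0) :
    p hj a (some x) = some (J hj a x) := by
  rcases h : p hj a (some x) with _ | y
  · exfalso
    apply hx
    have h1 : p hj a (some x) = p hj a (some 0) := by rw [h, p_zero hj ha]
    exact Option.some_injective _ ((p hj a).injective h1)
  · rw [J, h]
    rfl

private lemma J_J {a : A} (ha : a ≠ 0) (x : A) : J hj a (J hj a x) = x := by
  by_cases hx : x = 0
  · rw [hx, J_zero hj ha, J_zero hj ha]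
  · have h1 := J_spec hj ha hx
    have h2 : p hj a (some (J hj a x)) = some x := by rw [← h1, p_p]
    rw [J, h2]
    rfl

private lemma J_ne {a x : A} (ha : a ≠ 0) (hx : x ≠ 0) : J hj a x ≠ 0 := by
  intro h
  apply hx
  rw [← J_J hj ha x, h, J_zero hj ha]

private lemma J_self {a : A} (ha : a ≠ 0) : J hj a a = a := by
  rw [J, p_self hj ha]
  rfl

/-- `n = s 0` commutes with `p a` -/
private lemma comm_n {a : A} (ha : a ≠ 0) : p hj a * s (0 : A) * p hj a = s 0 := by
  have hm : ∀ b : A, b ≠ 0 → p hj b * s (0 : A) * p hj b = p hj a * s 0 * p hj a := by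
    intro b hb
    obtain ⟨f, -, hf⟩ := conj_s hj hb ha
    have h := hf 0
    rw [map_zero] at h
    have h2 : p hj b * (p hj b * p hj a * s 0 * p hj a * p hj b) * p hj b =
        p hj a * s 0 * p hj a := by
      calc p hj b * (p hj b * p hj a * s 0 * p hj a * p hj b) * p hj b
          = (p hj b * p hj b) * (p hj a * s 0 * p hj a) * (p hj b * p hj b) := by group
        _ = p hj a * s 0 * p hj a := by rw [p_sq, one_mul, mul_one]
    rw [← h2, h]
  apply Equiv.ext
  intro x
  cases x with
  | none =>
    simp only [Equiv.Perm.mul_apply, p_none hj ha, s_some, s_none, sub_zero, p_zero hj ha]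
  | some x =>
    by_cases hx : x = 0
    · rw [hx]
      simp only [Equiv.Perm.mul_apply, p_zero hj ha, s_none, s_some, sub_zero, p_none hj ha]
    · rw [← hm x hx]
      simp only [Equiv.Perm.mul_apply, p_self hj hx, s_some, zero_sub, p_neg_self hj hx]

/-- the reflections fixing `0` -/
private noncomputable def r (y : A) : Equiv.Perm (Option A) := p hj y * s y * p hj y

private lemma r_eq {a x : A} (ha : a ≠ 0) (hx : x ≠ 0) :
    p hj a * s x * p hj a = r hj (J hj a x) := by
  have hy := J_ne hj ha hx
  obtain ⟨f, hf1, hf2⟩ := conj_s hj hy ha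
  have h1 : f x = J hj a x := by
    have h := hf1 x
    rw [J_spec hj ha hx, p_self hj hy] at h
    exact (Option.some_injective _ h).symm
  have h2 := hf2 x
  rw [h1] at h2
  set y := J hj a x
  calc p hj a * s x * p hj a
      = (p hj y * p hj y) * (p hj a * s x * p hj a) * (p hj y * p hj y) := by
        rw [p_sq, one_mul, mul_one]
    _ = p hj y * (p hj y * p hj a * s x * p hj a * p hj y) * p hj y := by group
    _ = r hj y := by rw [h2]; rfl

private lemma r_eq' {a y : A} (ha : a ≠ 0) (hy : y ≠ 0) :
    r hj y = p hj a * s (J hj a y) * p hj a := by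
  rw [r_eq hj ha (J_ne hj ha hy), J_J hj ha]

private lemma r_sq (y : A) : r hj y * r hj y = 1 := by
  rw [r]
  calc p hj y * s y * p hj y * (p hj y * s y * p hj y)
      = p hj y * s y * (p hj y * p hj y) * s y * p hj y := by group
    _ = 1 := by
      rw [p_sq, mul_one, mul_assoc (p hj y), s_sq, mul_one, p_sq]

private lemma r_zero {y : A} (hy : y ≠ 0) : r hj y (some 0) = some 0 := by
  simp only [r, Equiv.Perm.mul_apply, p_zero hj hy, s_none, p_none hj hy]

private lemma hs2_perm {b : A} (hb : b ≠ 0) :
    s b * p hj b * s b * p hj b * s b * p hj b = 1 := by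
  apply Equiv.ext
  intro x
  have h := hj.hs2 b hb x
  simp only [Equiv.Perm.mul_apply, p_apply hj hb]
  exact h

private lemma r_eq_sps {b : A} (hb : b ≠ 0) : r hj b = s b * p hj b * s b := by
  have h := hs2_perm hj hb
  have hs := s_sq b
  have hp := p_sq hj b
  rw [r]
  calc p hj b * s b * p hj b
      = (s b * s b) * (p hj b * s b * p hj b) * ((s b * p hj b) * (p hj b * s b)) := by
        have h1 : (s b * p hj b) * (p hj b * s b) = 1 := by
          rw [mul_assoc, ← mul_assoc (p hj b), hp, one_mul, hs]
        rw [h1, hs, one_mul, mul_one]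
    _ = s b * (s b * p hj b * s b * p hj b * s b * p hj b) * (p hj b * s b) := by group
    _ = s b * p hj b * s b := by rw [h, mul_one, mul_assoc]

private lemma p_eq_srs {b : A} (hb : b ≠ 0) : p hj b = s b * r hj b * s b := by
  rw [r_eq_sps hj hb]
  calc p hj b = (s b * s b) * p hj b * (s b * s b) := by rw [s_sq, one_mul, mul_one]
    _ = s b * (s b * p hj b * s b) * s b := by group

private lemma p_eq_rsr {b : A} (hb : b ≠ 0) : p hj b = r hj b * s b * r hj b := by
  have h := hs2_perm hj hb
  rw [r_eq_sps hj hb]
  have h1 : s b * p hj b * s b * p hj b * s b = p hj b := by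
    calc s b * p hj b * s b * p hj b * s b
        = (s b * p hj b * s b * p hj b * s b * p hj b) * p hj b := by
          rw [mul_assoc (s b * p hj b * s b * p hj b * s b), p_sq, mul_one]
      _ = p hj b := by rw [h, one_mul]
  calc p hj b = s b * p hj b * s b * p hj b * s b := h1.symm
    _ = s b * p hj b * (s b * s b) * s b * p hj b * s b := by rw [s_sq, mul_one]
    _ = s b * p hj b * s b * s b * (s b * p hj b * s b) := by group

private lemma s_eq_rpr {b : A} (hb : b ≠ 0) : s b = r hj b * p hj b * r hj b := by
  rw [p_eq_rsr hj hb]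
  calc s b = (r hj b * r hj b) * s b * (r hj b * r hj b) := by rw [r_sq, one_mul, mul_one]
    _ = r hj b * (r hj b * s b * r hj b) * r hj b := by group

private lemma p_comp {a b : A} (ha : a ≠ 0) (hb : b ≠ 0) :
    p hj (J hj a b) = p hj a * p hj b * p hj a := by
  have hc := J_ne hj ha hb
  have h1 : p hj a * r hj b * p hj a = s (J hj a b) := by
    rw [r_eq' hj ha hb]
    calc p hj a * (p hj a * s (J hj a b) * p hj a) * p hj a
        = (p hj a * p hj a) * s (J hj a b) * (p hj a * p hj a) := by group
      _ = s (J hj a b) := by rw [p_sq, one_mul, mul_one]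
  have h2 := r_eq hj ha hb
  rw [p_eq_srs hj hc, ← h1, ← h2]
  calc p hj a * r hj b * p hj a * (p hj a * s b * p hj a) * (p hj a * r hj b * p hj a)
      = p hj a * r hj b * (p hj a * p hj a) * s b * (p hj a * p hj a) * r hj b * p hj a := by
        group
    _ = p hj a * (r hj b * s b * r hj b) * p hj a := by
        rw [p_sq, mul_one, mul_one]
        group
    _ = p hj a * p hj b * p hj a := by rw [← p_eq_rsr hj hb]

private lemma J_neg {a : A} (ha : a ≠ 0) (x : A) : J hj a (-x) = -J hj a x := by
  by_cases hx : x = 0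
  · rw [hx, neg_zero, J_zero hj ha, neg_zero]
  · have h := comm_n hj ha
    have h2 : p hj a * s 0 = s 0 * p hj a := by
      calc p hj a * s 0 = (p hj a * s 0 * p hj a) * p hj a := by
            rw [mul_assoc (p hj a * s 0), p_sq, mul_one]
        _ = s 0 * p hj a := by rw [h]
    have h3 := congrArg (fun f => f (some x)) h2
    simp only [Equiv.Perm.mul_apply, s_some, zero_sub] at h3
    rw [J_spec hj ha hx, J_spec hj ha (neg_ne_zero.mpr hx), s_some, zero_sub] at h3
    exact Option.some_injective _ h3

private lemma p_neg {a : A} (ha : a ≠ 0) : p hj (-a) = p hj a := by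
  have hna := neg_ne_zero.mpr ha
  have h := comm_n hj ha
  have h2 : s 0 * p hj a * s 0 = p hj a := by
    calc s 0 * p hj a * s 0 = (p hj a * s 0 * p hj a) * p hj a * s 0 := by rw [h]
      _ = p hj a * s 0 * (p hj a * p hj a) * s 0 := by group
      _ = p hj a := by rw [p_sq, mul_one, mul_assoc, s_sq, mul_one]
  have h3 : s 0 * s a * s 0 = s (-a) := by
    rw [s_mul]
    congr 1
    abel
  have h4 : s 0 * r hj a * s 0 = r hj (-a) := by
    have h5 : p hj a * s (-a) * p hj a = r hj (J hj a (-a)) := r_eq hj ha hna
    rw [J_neg hj ha, J_self hj ha] at h5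
    rw [← h5, ← h3, r]
    have h6 : s 0 * p hj a = p hj a * s 0 := by
      calc s 0 * p hj a = s 0 * p hj a * (s 0 * s 0) := by rw [s_sq, mul_one]
        _ = (s 0 * p hj a * s 0) * s 0 := by group
        _ = p hj a * s 0 := by rw [h2]
    calc s 0 * (p hj a * s a * p hj a) * s 0
        = (s 0 * p hj a) * s a * (p hj a * s 0) := by group
      _ = (p hj a * s 0) * s a * (s 0 * p hj a) := by rw [h6]
      _ = p hj a * (s 0 * s a * s 0) * p hj a := by group
  calc p hj (-a) = s (-a) * r hj (-a) * s (-a) := p_eq_srs hj hna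
    _ = (s 0 * s a * s 0) * (s 0 * r hj a * s 0) * (s 0 * s a * s 0) := by rw [h3, h4]
    _ = s 0 * s a * (s 0 * s 0) * r hj a * (s 0 * s 0) * s a * s 0 := by group
    _ = s 0 * (s a * r hj a * s a) * s 0 := by
        rw [s_sq, mul_one, mul_one]
        group
    _ = s 0 * p hj a * s 0 := by rw [← p_eq_srs hj ha]
    _ = p hj a := h2

private lemma J_hua {e x y : A} (he : e ≠ 0) (hx : x ≠ 0) (hy : y ≠ 0) (hxy : x ≠ y) :
    J hj x y = x - J hj e (J hj e x - J hj e (x - y)) := by
  have hu : x - y ≠ 0 := sub_ne_zero.mpr hxy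
  have hv : J hj e x - J hj e (x - y) ≠ 0 := by
    intro h
    apply hy
    have h1 := congrArg (J hj e) (sub_eq_zero.mp h)
    rw [J_J hj he, J_J hj he] at h1
    have h2 : y = x - (x - y) := by abel
    rw [h2, ← h1, sub_self]
  have h1 : p hj x (some y) = some (x - J hj e (J hj e x - J hj e (x - y))) := by
    rw [p_eq_srs hj hx, r_eq' hj he hx]
    simp only [Equiv.Perm.mul_apply, s_some]
    rw [J_spec hj he hu, s_some, J_spec hj he hv, s_some]
  rw [J_spec hj hx hy] at h1
  exact Option.some_injective _ h1

/-- a product of three reflections at `0` -/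
private lemma r_mul3 (a x y z : A) :
    (p hj a * s x * p hj a) * (p hj a * s y * p hj a) * (p hj a * s z * p hj a) =
      p hj a * s (x - y + z) * p hj a := by
  rw [← s_mul]
  calc (p hj a * s x * p hj a) * (p hj a * s y * p hj a) * (p hj a * s z * p hj a)
      = p hj a * s x * (p hj a * p hj a) * s y * (p hj a * p hj a) * s z * p hj a := by group
    _ = p hj a * (s x * s y * s z) * p hj a := by
        rw [p_sq, mul_one, mul_one]
        group

private lemma p_sub {a b : A} (ha : a ≠ 0) (hb : b ≠ 0) (hab : a ≠ b) :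
    p hj (a - b) = p hj a * p hj b * p hj (J hj b a - b) := by
  have hd : a - b ≠ 0 := sub_ne_zero.mpr hab
  have hc : J hj b a - b ≠ 0 := by
    intro h
    apply hab
    have h1 := congrArg (J hj b) (sub_eq_zero.mp h)
    rwa [J_J hj hb, J_self hj hb] at h1
  set c := J hj b a - b with hcdef
  set c' := J hj a (J hj b c) with hc'def
  have hc'0 : c' ≠ 0 := J_ne hj ha (J_ne hj hb hc)
  -- step 1
  have e1 : s (a - b) = s a * s b * s 0 := by
    rw [s_mul]
    congr 1
    abel
  have e2 : r hj a * r hj b = p hj b * s c * s 0 * p hj b := by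
    have h1 : s (J hj b a) * s b = s c * s 0 := by
      have h2 : s (J hj b a) * s b * s 0 = s c := by
        rw [s_mul]
        congr 1
        rw [hcdef]
        abel
      calc s (J hj b a) * s b = s (J hj b a) * s b * (s 0 * s 0) := by rw [s_sq, mul_one]
        _ = (s (J hj b a) * s b * s 0) * s 0 := by group
        _ = s c * s 0 := by rw [h2]
    calc r hj a * r hj b
        = (p hj b * s (J hj b a) * p hj b) * (p hj b * s b * p hj b) := by
          rw [← r_eq' hj hb ha]
          rfl
      _ = p hj b * s (J hj b a) * (p hj b * p hj b) * s b * p hj b := by group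
      _ = p hj b * (s (J hj b a) * s b) * p hj b := by
          rw [p_sq, mul_one]
          group
      _ = p hj b * s c * s 0 * p hj b := by
          rw [h1]
          group
  have e3 : p hj a * p hj b * r hj c = r hj c' * (p hj a * p hj b) := by
    have h1 : p hj b * r hj c * p hj b = s (J hj b c) := by
      rw [r_eq' hj hb hc]
      calc p hj b * (p hj b * s (J hj b c) * p hj b) * p hj b
          = (p hj b * p hj b) * s (J hj b c) * (p hj b * p hj b) := by group
        _ = s (J hj b c) := by rw [p_sq, one_mul, mul_one]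
    have h2 := r_eq hj ha (J_ne hj hb hc)
    rw [← h1, ← hc'def] at h2
    rw [← h2]
    calc p hj a * p hj b * r hj c
        = p hj a * p hj b * r hj c * (p hj b * (p hj a * p hj a) * p hj b) := by
          rw [p_sq, mul_one, p_sq, mul_one]
      _ = p hj a * (p hj b * r hj c * p hj b) * p hj a * (p hj a * p hj b) := by group
  have e4 : s (a - b) = (r hj a * r hj c') * (p hj a * p hj b * p hj c) *
      (r hj c * s 0 * r hj b * s 0) := by
    calc s (a - b) = (r hj a * p hj a * r hj a) * (r hj b * p hj b * r hj b) * s 0 := by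
          rw [← s_eq_rpr hj ha, ← s_eq_rpr hj hb]
          exact e1
      _ = r hj a * p hj a * (r hj a * r hj b) * p hj b * r hj b * s 0 := by group
      _ = r hj a * p hj a * (p hj b * s c * s 0 * p hj b) * p hj b * r hj b * s 0 := by rw [e2]
      _ = r hj a * p hj a * p hj b * s c * s 0 * (p hj b * p hj b) * r hj b * s 0 := by group
      _ = r hj a * p hj a * p hj b * s c * s 0 * r hj b * s 0 := by rw [p_sq, mul_one]
      _ = r hj a * p hj a * p hj b * (r hj c * p hj c * r hj c) * s 0 * r hj b * s 0 := by
          rw [← s_eq_rpr hj hc]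
      _ = r hj a * (p hj a * p hj b * r hj c) * p hj c * r hj c * s 0 * r hj b * s 0 := by
          group
      _ = r hj a * (r hj c' * (p hj a * p hj b)) * p hj c * r hj c * s 0 * r hj b * s 0 := by
          rw [e3]
      _ = (r hj a * r hj c') * (p hj a * p hj b * p hj c) *
          (r hj c * s 0 * r hj b * s 0) := by group
  -- the two outer factors
  have e5 : p hj (a - b) = (r hj (a - b) * r hj a * r hj c') * (p hj a * p hj b * p hj c) *
      (r hj c * (s 0 * r hj b * s 0) * r hj (a - b)) := by
    calc p hj (a - b) = r hj (a - b) * s (a - b) * r hj (a - b) := p_eq_rsr hj hd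
      _ = _ := by
        rw [e4]
        group
  have g1 : ∃ w : A, r hj (a - b) * r hj a * r hj c' = p hj a * s w * p hj a := by
    refine ⟨J hj a (a - b) - J hj a a + J hj a c', ?_⟩
    rw [r_eq' hj ha hd, r_eq' hj ha hc'0, ← r_mul3 hj a, ← r_eq' hj ha ha]
  have g2 : ∃ w : A, r hj c * (s 0 * r hj b * s 0) * r hj (a - b) =
      p hj a * s w * p hj a := by
    have h1 : s 0 * r hj b * s 0 = p hj a * s (-J hj a b) * p hj a := by
      have h6 : s 0 * p hj a = p hj a * s 0 := by
        have h := comm_n hj ha
        calc s 0 * p hj a = (p hj a * s 0 * p hj a) * p hj a := by rw [h]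
          _ = p hj a * s 0 * (p hj a * p hj a) := by group
          _ = p hj a * s 0 := by rw [p_sq, mul_one]
      have h3 : s 0 * s (J hj a b) * s 0 = s (-J hj a b) := by
        rw [s_mul]
        congr 1
        abel
      rw [r_eq' hj ha hb, ← h3]
      calc s 0 * (p hj a * s (J hj a b) * p hj a) * s 0
          = (s 0 * p hj a) * s (J hj a b) * (p hj a * s 0) := by group
        _ = (p hj a * s 0) * s (J hj a b) * (s 0 * p hj a) := by rw [h6]
        _ = p hj a * (s 0 * s (J hj a b) * s 0) * p hj a := by group
    refine ⟨J hj a c - (-J hj a b) + J hj a (a - b), ?_⟩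
    rw [h1, r_eq' hj ha hd, r_eq' hj ha hc, ← r_mul3 hj a]
  obtain ⟨w1, hw1⟩ := g1
  obtain ⟨w2, hw2⟩ := g2
  rw [hw1, hw2] at e5
  -- evaluate at `0`
  have f1 : w1 = 0 := by
    by_contra hne
    have h := congrArg (fun f => f (some 0)) e5
    simp only [Equiv.Perm.mul_apply, p_zero hj ha, s_none, p_none hj ha, p_zero hj hd,
      p_zero hj hc, p_none hj hb, s_some, sub_zero] at h
    rw [J_spec hj ha hne] at h
    exact absurd h (by simp)
  have f2 : w2 = 0 := by
    by_contra hne
    have h := congrArg (fun f => f none) e5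
    rw [f1] at h
    have hq := J_ne hj ha hne
    simp only [Equiv.Perm.mul_apply, p_none hj ha, p_none hj hd, s_some, sub_zero] at h
    rw [J_spec hj ha hne] at h
    have k1 : p hj a (p hj b (p hj c (some (J hj a w2)))) = some 0 := by
      have h8 := comm_n hj ha
      have h9 := congrArg (fun f => f (p hj a (p hj b (p hj c (some (J hj a w2)))))) h8
      simp only [Equiv.Perm.mul_apply] at h9
      rw [h9] at h
      have h10 := congrArg (s (0 : A)) h
      have h11 := congrArg (fun f => f (p hj a (p hj b (p hj c (some (J hj a w2))))))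
        (s_sq (0 : A))
      simp only [Equiv.Perm.mul_apply, Equiv.Perm.one_apply] at h11
      rw [h11, s_some, sub_zero] at h10
      exact h10.symm
    have k2 : p hj a (p hj b (p hj c (some (J hj a w2)))) =
        p hj a (p hj b (p hj c none)) := by
      rw [k1, p_none hj hc, p_zero hj hb, p_none hj ha]
    have k3 := (p hj c).injective ((p hj b).injective ((p hj a).injective k2))
    exact absurd k3 (by simp)
  rw [f1, f2, comm_n hj ha] at e5
  have h2 : s 0 * (p hj a * p hj b * p hj c) * s 0 = p hj a * p hj b * p hj c := by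
    have h6 : ∀ q : A, q ≠ 0 → s 0 * p hj q = p hj q * s 0 := by
      intro q hq
      have h := comm_n hj hq
      calc s 0 * p hj q = (p hj q * s 0 * p hj q) * p hj q := by rw [h]
        _ = p hj q * s 0 * (p hj q * p hj q) := by group
        _ = p hj q * s 0 := by rw [p_sq, mul_one]
    calc s 0 * (p hj a * p hj b * p hj c) * s 0
        = (s 0 * p hj a) * p hj b * p hj c * s 0 := by group
      _ = p hj a * (s 0 * p hj b) * p hj c * s 0 := by rw [h6 a ha]; group
      _ = p hj a * p hj b * (s 0 * p hj c) * s 0 := by rw [h6 b hb]; group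
      _ = p hj a * p hj b * p hj c * (s 0 * s 0) := by rw [h6 c hc]; group
      _ = p hj a * p hj b * p hj c := by rw [s_sq, mul_one]
  rw [h2] at e5
  exact e5

private lemma J_comp {a b : A} (ha : a ≠ 0) (hb : b ≠ 0) (x : A) :
    J hj (J hj a b) x = J hj a (J hj b (J hj a x)) := by
  by_cases hx : x = 0
  · rw [hx, J_zero hj ha, J_zero hj hb, J_zero hj ha, J_zero hj (J_ne hj ha hb)]
  · have h := congrArg (fun f => f (some x)) (p_comp hj ha hb)
    simp only [Equiv.Perm.mul_apply] at h
    rw [J_spec hj ha hx, J_spec hj hb (J_ne hj ha hx),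
      J_spec hj ha (J_ne hj hb (J_ne hj ha hx)), J_spec hj (J_ne hj ha hb) hx] at h
    exact Option.some_injective _ h

private lemma J_sub {a b : A} (ha : a ≠ 0) (hb : b ≠ 0) (hab : a ≠ b) (x : A) :
    J hj (a - b) x = J hj a (J hj b (J hj (J hj b a - b) x)) := by
  have hd : a - b ≠ 0 := sub_ne_zero.mpr hab
  have hc : J hj b a - b ≠ 0 := by
    intro h
    apply hab
    have h1 := congrArg (J hj b) (sub_eq_zero.mp h)
    rwa [J_J hj hb, J_self hj hb] at h1
  by_cases hx : x = 0
  · rw [hx, J_zero hj hc, J_zero hj hb, J_zero hj ha, J_zero hj hd]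
  · have h := congrArg (fun f => f (some x)) (p_sub hj ha hb hab)
    simp only [Equiv.Perm.mul_apply] at h
    rw [J_spec hj hd hx, J_spec hj hc hx, J_spec hj hb (J_ne hj hc hx),
      J_spec hj ha (J_ne hj hb (J_ne hj hc hx))] at h
    exact Option.some_injective _ h

/-- the maps `J a` of a Hua system and their properties -/
theorem exists_J : ∃ J : A → A → A, JSys J ∧
    ∀ a b : A, a ≠ 0 → b ≠ 0 → j a (some b) = some (J a b) := by
  refine ⟨J hj, ?_, ?_⟩
  · constructor
    · exact fun a ha => J_zero hj ha
    · exact fun a x ha => J_J hj ha x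
    · exact fun a ha => J_self hj ha
    · intro a b x y ha hb
      obtain ⟨f, hf1, -⟩ := conj_s hj ha hb
      have h : ∀ x, J hj a (J hj b x) = f x := by
        intro x
        by_cases hx : x = 0
        · rw [hx, J_zero hj hb, J_zero hj ha, map_zero]
        · have h1 := hf1 x
          rw [J_spec hj hb hx, J_spec hj ha (J_ne hj hb hx)] at h1
          exact Option.some_injective _ h1
      rw [h, h, h, map_add]
    · exact fun a x ha => J_neg hj ha x
    · intro a x ha
      rw [J, p_neg hj ha]
      rfl
    · exact fun a b x ha hb => J_comp hj ha hb x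
    · exact fun e x y he hx hy hxy => J_hua hj he hx hy hxy
    · exact fun a b x ha hb hab => J_sub hj ha hb hab x
  · intro a b ha hb
    rw [← J_spec hj ha hb, p_apply hj ha]

end

end Pool.Agent.HuaVal
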