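import Mathlib
import Pool.Agent.HuaVal.Basic

/-!
# Hua systems: the Hua maps `H x` with respect to a base `e`
-/

set_option autoImplicit false

namespace Pool.Agent.HuaVal

open Classical in
/-- the Hua map with respect to the base `e` -/
noncomputable def H {A : Type*} [AddCommGroup A] (J : A → A → A) (e x y : A) : A :=
  if x = 0 then 0 else J x (J e y)

section

variable {A : Type*} [AddCommGroup A] {J : A → A → A} (hJ : JSys J) {e : A} (he : e ≠ 0)

lemma H_zero_left (J : A → A → A) (e y : A) : H J e 0 y = 0 := by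
  rw [H, if_pos rfl]

lemma H_of_ne {J : A → A → A} {e x y : A} (hx : x ≠ 0) : H J e x y = J x (J e y) := by
  rw [H, if_neg hx]

include hJ

lemma J_ne_zero {a x : A} (ha : a ≠ 0) (hx : x ≠ 0) : J a x ≠ 0 := by
  intro h
  apply hx
  rw [← hJ.inv a x ha, h, hJ.zero a ha]

lemma H_change {e b x y : A} (he : e ≠ 0) :
    H J e x (J e (J b y)) = H J b x y := by
  by_cases hx : x = 0
  · rw [hx, H_zero_left, H_zero_left]
  · rw [H_of_ne hx, H_of_ne hx, hJ.inv e _ he]

include he

lemma H_zero_right (x : A) : H J e x 0 = 0 := by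
  by_cases hx : x = 0
  · rw [hx, H_zero_left]
  · rw [H_of_ne hx, hJ.zero e he, hJ.zero x hx]

lemma H_add (x y z : A) : H J e x (y + z) = H J e x y + H J e x z := by
  by_cases hx : x = 0
  · rw [hx, H_zero_left, H_zero_left, H_zero_left, add_zero]
  · rw [H_of_ne hx, H_of_ne hx, H_of_ne hx, hJ.add x e y z hx he]

/-- the Hua map as an additive map -/
noncomputable def Hm (hJ : JSys J) {e : A} (he : e ≠ 0) (x : A) : A →+ A where
  toFun := H J e x
  map_zero' := H_zero_right hJ he x
  map_add' := H_add hJ he x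

lemma Hm_apply (x y : A) : Hm hJ he x y = H J e x y := rfl

lemma H_sub (x y z : A) : H J e x (y - z) = H J e x y - H J e x z := by
  rw [← Hm_apply hJ he, map_sub]
  rfl

lemma H_negr (x y : A) : H J e x (-y) = -H J e x y := by
  rw [← Hm_apply hJ he, map_neg]
  rfl

lemma H_self (y : A) : H J e e y = y := by
  rw [H_of_ne he, hJ.inv e y he]

omit he in
lemma H_neg (x y : A) : H J e (-x) y = H J e x y := by
  by_cases hx : x = 0
  · rw [hx, neg_zero]
  · rw [H_of_ne hx, H_of_ne (neg_ne_zero.mpr hx), hJ.negl x _ hx]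

lemma H_inv_self (x : A) : H J e x (J e x) = x := by
  by_cases hx : x = 0
  · rw [hx, H_zero_left]
  · rw [H_of_ne hx, hJ.inv e x he, hJ.self x hx]

lemma J_H {x : A} (hx : x ≠ 0) (y : A) : J e (H J e x y) = H J e (J e x) (J e y) := by
  rw [H_of_ne hx, H_of_ne (J_ne_zero hJ he hx), hJ.comp e x _ he hx, hJ.inv e _ he]

lemma H_left_inv {x : A} (hx : x ≠ 0) (y : A) : H J e (J e x) (H J e x y) = y := by
  have hix := J_ne_zero hJ he hx
  rw [H_of_ne hix, J_H hJ he hx, H_of_ne hix, hJ.inv e _ he, hJ.inv _ _ hix]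

lemma H_right_inv {x : A} (hx : x ≠ 0) (y : A) : H J e x (H J e (J e x) y) = y := by
  have h := H_left_inv hJ he (J_ne_zero hJ he hx) y
  rwa [hJ.inv e x he] at h

lemma H_ne {x y : A} (hx : x ≠ 0) (hy : y ≠ 0) : H J e x y ≠ 0 := by
  rw [H_of_ne hx]
  exact J_ne_zero hJ hx (J_ne_zero hJ he hy)

lemma H_H {a x : A} (ha : a ≠ 0) (hx : x ≠ 0) (y : A) :
    H J e (H J e a x) y = H J e a (H J e x (H J e a y)) := by
  rw [H_of_ne (H_ne hJ he ha hx), H_of_ne (x := a) (y := x) ha,
    hJ.comp a (J e x) _ ha (J_ne_zero hJ he hx), hJ.comp e x _ he hx,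
    H_of_ne ha, H_of_ne hx, H_of_ne ha]

lemma H_H' (a x y : A) :
    H J e (H J e a x) y = H J e a (H J e x (H J e a y)) := by
  by_cases ha : a = 0
  · simp only [ha, H_zero_left]
  by_cases hx : x = 0
  · simp only [hx, H_zero_left, H_zero_right hJ he]
  exact H_H hJ he ha hx y

lemma i_zero : J e 0 = 0 := hJ.zero e he

lemma i_neg (x : A) : J e (-x) = -J e x := hJ.neg e x he

lemma i_i (x : A) : J e (J e x) = x := hJ.inv e x he

/-- the basic difference formula -/
lemma i_sub_i {x w : A} (hx : x ≠ 0) (hw : w ≠ 0) (hxw : x + w ≠ 0) :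
    J e x - J e (x + w) = J e (x + H J e x (J e w)) := by
  have h := hJ.hua e x (-w) he hx (neg_ne_zero.mpr hw) (by
    intro h
    apply hxw
    rw [h, neg_add_cancel])
  rw [sub_neg_eq_add, hJ.neg x w hx] at h
  have h2 : J e (J e x - J e (x + w)) = x + J x w := by
    have h3 : x - -J x w = x - (x - J e (J e x - J e (x + w))) := by rw [← h]
    rw [sub_neg_eq_add, sub_sub_cancel] at h3
    exact h3.symm
  rw [H_of_ne hx, hJ.inv e w he, ← h2, hJ.inv e _ he]

/-- the evaluation formula -/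
lemma H_sub_H {x y : A} (hxy : x ≠ y) :
    H J e x (J e (x - y)) - H J e y (J e (x - y)) = x + y := by
  by_cases hx : x = 0
  · rw [hx, H_zero_left, zero_sub, zero_sub, i_neg hJ he, H_negr hJ he, H_inv_self hJ he]
    abel
  by_cases hy : y = 0
  · rw [hy, H_zero_left, sub_zero, sub_zero, H_inv_self hJ he]
    abel
  have h1 := i_sub_i hJ he hx (sub_ne_zero.mpr (Ne.symm hxy)) (by
    rw [add_sub_cancel]
    exact hy)
  have h2 := i_sub_i hJ he hy (sub_ne_zero.mpr hxy) (by
    rw [add_sub_cancel]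
    exact hx)
  rw [add_sub_cancel] at h1 h2
  have h3 : y - x = -(x - y) := by abel
  rw [h3, i_neg hJ he, H_negr hJ he] at h1
  have h4 : x + -H J e x (J e (x - y)) = -(y + H J e y (J e (x - y))) := by
    rw [← hJ.inv e (x + -H J e x (J e (x - y))) he, ← h1,
      ← hJ.inv e (y + H J e y (J e (x - y))) he, ← h2, ← i_neg hJ he, neg_sub]
  have h5 : H J e x (J e (x - y)) =
      x - (x + -H J e x (J e (x - y))) := by abel
  rw [h5, h4]
  abel

/-- evaluation formula, translated form -/
lemma H_add_i (a y : A) (hy : y ≠ 0) :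
    H J e (a + J e y) y = H J e a y + (a + a + J e y) := by
  have hne : a + J e y ≠ a := by
    intro h
    exact J_ne_zero hJ he hy (by simpa using h)
  have h := H_sub_H hJ he hne
  rw [add_sub_cancel_left, hJ.inv e y he] at h
  have h2 : H J e (a + J e y) y = H J e a y + (H J e (a + J e y) y - H J e a y) := by abel
  rw [h2, h]
  abel

lemma H_sub_i (a y : A) (hy : y ≠ 0) :
    H J e (a - J e y) y = H J e a y - (a + a - J e y) := by
  have h := H_add_i hJ he a (-y) (neg_ne_zero.mpr hy)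
  rw [i_neg hJ he, H_negr hJ he, H_negr hJ he, ← sub_eq_add_neg] at h
  have h2 : H J e (a - J e y) y = -(-H J e (a - J e y) y) := by abel
  rw [h2, h]
  abel

omit he in
/-- the composition formula for differences, the other order -/
lemma J_sub' {a b : A} (ha : a ≠ 0) (hb : b ≠ 0) (hab : a ≠ b) (x : A) :
    J (a - b) x = J (J b a - b) (J b (J a x)) := by
  have hd : a - b ≠ 0 := sub_ne_zero.mpr hab
  have hc : J b a - b ≠ 0 := by
    intro h
    apply hab
    have h1 := congrArg (J b) (sub_eq_zero.mp h)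
    rwa [hJ.inv b a hb, hJ.self b hb] at h1
  have h := hJ.sub a b (J (J b a - b) (J b (J a x))) ha hb hab
  rw [hJ.inv _ _ hc, hJ.inv _ _ hb, hJ.inv _ _ ha] at h
  rw [← h, hJ.inv _ _ hd, h]

lemma H_sub_e {a : A} (ha : a ≠ 0) (y : A) :
    H J e (a - e) y = H J e a (H J e (J e a - e) y) := by
  by_cases hae : a = e
  · rw [hae, hJ.self e he, sub_self, H_zero_left, H_zero_right hJ he]
  · have hd : a - e ≠ 0 := sub_ne_zero.mpr hae
    have hc : J e a - e ≠ 0 := by
      intro h
      apply hae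
      have h1 := congrArg (J e) (sub_eq_zero.mp h)
      rwa [hJ.inv e a he, hJ.self e he] at h1
    rw [H_of_ne hd, H_of_ne ha, H_of_ne hc, hJ.sub a e _ ha he hae]

lemma H_sub_e' {a : A} (ha : a ≠ 0) (y : A) :
    H J e (a - e) y = H J e (J e a - e) (H J e a y) := by
  by_cases hae : a = e
  · rw [hae, hJ.self e he, sub_self, H_zero_left, H_zero_left]
  · have hd : a - e ≠ 0 := sub_ne_zero.mpr hae
    have hc : J e a - e ≠ 0 := by
      intro h
      apply hae
      have h1 := congrArg (J e) (sub_eq_zero.mp h)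
      rwa [hJ.inv e a he, hJ.self e he] at h1
    rw [H_of_ne hd, H_of_ne hc, H_of_ne ha, J_sub' hJ ha he hae]

lemma H_add_e {a : A} (ha : a ≠ 0) (y : A) :
    H J e (a + e) y = H J e a (H J e (J e a + e) y) := by
  have h := H_sub_e hJ he (neg_ne_zero.mpr ha) y
  have h1 : -a - e = -(a + e) := by abel
  have h2 : J e (-a) - e = -(J e a + e) := by
    rw [i_neg hJ he]
    abel
  rwa [h1, h2, H_neg hJ, H_neg hJ, H_neg hJ] at h

lemma H_add_e' {a : A} (ha : a ≠ 0) (y : A) :
    H J e (a + e) y = H J e (J e a + e) (H J e a y) := by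
  have h := H_sub_e' hJ he (neg_ne_zero.mpr ha) y
  have h1 : -a - e = -(a + e) := by abel
  have h2 : J e (-a) - e = -(J e a + e) := by
    rw [i_neg hJ he]
    abel
  rwa [h1, h2, H_neg hJ, H_neg hJ, H_neg hJ] at h

end

/-- the operator `Δ` with respect to the base `e` -/
noncomputable def Dl {A : Type*} [AddCommGroup A] (J : A → A → A) (e x y : A) : A :=
  H J e (e + x) y + H J e (e - x) y - (y + y) - (H J e x y + H J e x y)

section

variable {A : Type*} [AddCommGroup A] {J : A → A → A} (hJ : JSys J) {e : A} (he : e ≠ 0)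

include hJ he

lemma Dl_zero_left (y : A) : Dl J e 0 y = 0 := by
  rw [Dl, add_zero, sub_zero, H_self hJ he, H_zero_left]
  abel

lemma Dl_zero_right (x : A) : Dl J e x 0 = 0 := by
  simp only [Dl, H_zero_right hJ he, add_zero, sub_zero]

lemma Dl_sub (x y z : A) : Dl J e x (y - z) = Dl J e x y - Dl J e x z := by
  simp only [Dl, H_sub hJ he]
  abel

omit he in
lemma H_e_sub (x y : A) : H J e (e - x) y = H J e (x - e) y := by
  rw [← H_neg hJ (x - e), neg_sub]

/-- `Δ x = Δ (i x) ∘ H x` -/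
lemma Dl_eq {x : A} (hx : x ≠ 0) (y : A) : Dl J e x y = Dl J e (J e x) (H J e x y) := by
  have h1 := H_add_e' hJ he hx y
  have h2 := H_sub_e' hJ he hx y
  have h3 := H_left_inv hJ he hx y
  rw [Dl, Dl, H_e_sub hJ, H_e_sub hJ, add_comm e x, add_comm e (J e x), h1, h2, h3]
  abel

/-- `Δ x` commutes with `H x` -/
lemma Dl_comm (x y : A) : Dl J e x (H J e x y) = H J e x (Dl J e x y) := by
  by_cases hx : x = 0
  · rw [hx, H_zero_left, H_zero_left, Dl_zero_left hJ he]
  have h1 : H J e (x + e) (H J e x y) = H J e x (H J e (x + e) y) := by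
    rw [H_add_e hJ he hx (H J e x y), H_add_e' hJ he hx y]
  have h2 : H J e (x - e) (H J e x y) = H J e x (H J e (x - e) y) := by
    rw [H_sub_e hJ he hx (H J e x y), H_sub_e' hJ he hx y]
  rw [Dl, Dl, H_e_sub hJ, H_e_sub hJ, add_comm e x, h1, h2, H_sub hJ he, H_sub hJ he,
    H_add hJ he, H_add hJ he, H_add hJ he]

/-- `Δ (a + i y) y = Δ a y` -/
lemma Dl_add_i (a : A) {y : A} (hy : y ≠ 0) : Dl J e (a + J e y) y = Dl J e a y := by
  have h1 := H_add_i hJ he (e + a) y hy
  have h2 := H_sub_i hJ he (e - a) y hy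
  have h3 := H_add_i hJ he a y hy
  have e1 : e + (a + J e y) = e + a + J e y := by abel
  have e2 : e - (a + J e y) = e - a - J e y := by abel
  rw [Dl, Dl, e1, e2, h1, h2, h3]
  abel

/-- `Δ (i z) z = 0` -/
lemma Dl_self (z : A) : Dl J e (J e z) z = 0 := by
  by_cases hz : z = 0
  · rw [hz, Dl_zero_right hJ he]
  have h := Dl_add_i hJ he 0 hz
  rw [zero_add] at h
  rw [h, Dl_zero_left hJ he]

/-- the transformation formula -/
lemma Dl_trans {x w : A} (hw : w ≠ 0) (hs : x + J e w ≠ 0) :
    Dl J e x w = Dl J e (J e (x + J e w)) (x + H J e x w) := by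
  have h1 : Dl J e x w = Dl J e (J e (x + J e w)) (H J e (x + J e w) w) := by
    rw [← Dl_eq hJ he hs, Dl_add_i hJ he x hw]
  rw [h1, H_add_i hJ he x w hw]
  have h2 := Dl_self hJ he (x + J e w)
  have h3 : x + H J e x w = (H J e x w + (x + x + J e w)) - (x + J e w) := by abel
  rw [h3, Dl_sub hJ he, h2, sub_zero]

omit he in
/-- change of base for `Δ` -/
lemma Dl_change {z : A} (hz : z ≠ 0) (x c : A) :
    Dl J z x (H J e z c) = H J e (z + x) c + H J e (z - x) c -
      (H J e z c + H J e z c) - (H J e x c + H J e x c) := by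
  have h : ∀ u, H J z u (H J e z c) = H J e u c := by
    intro u
    rw [H_of_ne (x := z) hz]
    exact H_change hJ hz
  rw [Dl, h, h, h]

end

end Pool.Agent.HuaVal
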