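import Mathlib
import Pool.Agent.HuaVal.Alg

/-!
# Hua systems with a quasi-norm: the estimates
-/

set_option autoImplicit false

namespace Pool.Agent.HuaVal

/-- a quasi-norm normalised at the base `e` -/
structure NormAt {A : Type*} [AddCommGroup A] (J : A → A → A) (e : A)
    {Γ : Type*} [LinearOrderedCommGroupWithZero Γ] (ν : A → Γ) (κ : Γ) : Prop where
  zero_iff : ∀ a, ν a = 0 ↔ a = 0
  one : ν e = 1
  add : ∀ a b, ν (a + b) ≤ κ * max (ν a) (ν b)
  neg : ∀ a, ν (-a) = ν a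
  inv : ∀ c, c ≠ 0 → ν (J e c) * ν c = 1
  H : ∀ x c, ν (H J e x c) = ν x ^ 2 * ν c
  one_lt : 1 < κ
  scale : ∃ d, ν d = κ ^ 3

section

variable {A : Type*} [AddCommGroup A] {J : A → A → A} {e : A}
  {Γ : Type*} [LinearOrderedCommGroupWithZero Γ] {ν : A → Γ} {κ : Γ}
  (hJ : JSys J) (he : e ≠ 0) (hN : NormAt J e ν κ)

section

include hN

lemma nu_zero : ν 0 = 0 := (hN.zero_iff 0).mpr rfl

lemma nu_ne {x : A} (hx : x ≠ 0) : ν x ≠ 0 := fun h => hx ((hN.zero_iff x).mp h)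

lemma nu_pos {x : A} (hx : x ≠ 0) : 0 < ν x := zero_lt_iff.mpr (nu_ne hN hx)

lemma ne_of_nu {x : A} (hx : 0 < ν x) : x ≠ 0 := by
  rintro rfl
  rw [nu_zero hN] at hx
  exact lt_irrefl _ hx

lemma k_pos : 0 < κ := lt_trans zero_lt_one hN.one_lt

lemma k_le : 1 ≤ κ := hN.one_lt.le

lemma add_le' {a b : A} {M : Γ} (ha : ν a ≤ M) (hb : ν b ≤ M) : ν (a + b) ≤ κ * M := by
  refine (hN.add a b).trans ?_
  have h : max (ν a) (ν b) ≤ M := max_le ha hb
  gcongr

lemma sub_le' {a b : A} {M : Γ} (ha : ν a ≤ M) (hb : ν b ≤ M) : ν (a - b) ≤ κ * M := by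
  rw [sub_eq_add_neg]
  exact add_le' hN ha (by rwa [hN.neg])

lemma nq {x w : A} (h : κ * ν w < ν x) : ν x ≤ κ * ν (x + w) := by
  have h1 := hN.add (x + w) (-w)
  rw [add_neg_cancel_right, hN.neg] at h1
  rcases le_total (ν (x + w)) (ν w) with h2 | h2
  · rw [max_eq_right h2] at h1
    exact absurd h1 (not_le.mpr h)
  · rwa [max_eq_left h2] at h1

lemma nq' {x w : A} (h : κ * ν w < ν x) : ν x ≤ κ * ν (x - w) := by
  rw [sub_eq_add_neg]
  exact nq hN (by rwa [hN.neg])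

lemma nq_ne {x w : A} (h : κ * ν w < ν x) : x + w ≠ 0 := by
  intro h0
  have h1 := nq hN h
  rw [h0, nu_zero hN, mul_zero] at h1
  exact absurd (lt_of_le_of_lt (zero_le (a := κ * ν w)) h) (not_lt.mpr h1)

lemma nq_ne' {x w : A} (h : κ * ν w < ν x) : x - w ≠ 0 := by
  rw [sub_eq_add_neg]
  exact nq_ne hN (by rwa [hN.neg])

end

include hJ he hN

/-- (B) -/
lemma est_B {x w : A} (h : κ * ν w < ν x) :
    ν (J e (x + w) - J e x) * ν x ^ 2 ≤ κ * ν w := by
  by_cases hw : w = 0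
  · rw [hw, add_zero, sub_self, nu_zero hN, zero_mul]
    exact zero_le
  have hx : x ≠ 0 := ne_of_nu hN (lt_of_le_of_lt zero_le h)
  have hxw := nq_ne hN h
  have f := i_sub_i hJ he hx hw hxw
  have hinvw := hN.inv w hw
  have hw0 := nu_pos hN hw
  have hx0 := nu_pos hN hx
  have hiw0 := nu_pos hN (J_ne_zero hJ he hw)
  have hH := hN.H x (J e w)
  have h1 : κ * ν x < ν (HuaVal.H J e x (J e w)) := by
    rw [hH]
    calc κ * ν x = κ * ν x * (ν (J e w) * ν w) := by rw [hinvw, mul_one]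
      _ = (κ * ν w) * (ν x * ν (J e w)) := by field_simp
      _ < ν x * (ν x * ν (J e w)) := mul_lt_mul_of_pos_right h (mul_pos hx0 hiw0)
      _ = ν x ^ 2 * ν (J e w) := by field_simp
  have h2 := nq hN h1
  have hZ := nq_ne hN h1
  rw [add_comm _ x] at h2 hZ
  have hinvZ := hN.inv _ hZ
  have h3 : ν (J e (x + w) - J e x) = ν (J e (x + HuaVal.H J e x (J e w))) := by
    rw [← f, ← hN.neg, neg_sub]
  rw [h3]
  set S := ν (J e (x + HuaVal.H J e x (J e w)))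
  rw [hH] at h2
  calc S * ν x ^ 2 = S * ν x ^ 2 * (ν (J e w) * ν w) := by rw [hinvw, mul_one]
    _ = S * (ν x ^ 2 * ν (J e w)) * ν w := by field_simp
    _ ≤ S * (κ * ν (x + HuaVal.H J e x (J e w))) * ν w := by gcongr
    _ = (S * ν (x + HuaVal.H J e x (J e w))) * (κ * ν w) := by field_simp
    _ = κ * ν w := by rw [hinvZ, one_mul]

/-- (A') -/
lemma est_A {g x : A} (h : κ ^ 3 * ν x < ν g) :
    ν (J e (g + x) + J e (g - x) - (J e g + J e g)) * ν g ^ 3 ≤ κ ^ 4 * ν x ^ 2 := by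
  by_cases hx : x = 0
  · rw [hx, add_zero, sub_zero, sub_self, nu_zero hN, zero_mul]
    exact zero_le
  have hk := k_pos hN
  have hk1 := k_le hN
  have hg : g ≠ 0 := ne_of_nu hN (lt_of_le_of_lt zero_le h)
  have h' : κ * ν x < ν g := by
    refine lt_of_le_of_lt ?_ h
    have : κ ≤ κ ^ 3 := le_self_pow₀ hk1 (by norm_num)
    gcongr
  have hx0 := nu_pos hN hx
  have hg0 := nu_pos hN hg
  have hinvx := hN.inv x hx
  have hix0 := nu_pos hN (J_ne_zero hJ he hx)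
  have f1 := i_sub_i hJ he hg hx (nq_ne hN h')
  have f2 := i_sub_i hJ he hg (neg_ne_zero.mpr hx) (by
    rw [← sub_eq_add_neg]
    exact nq_ne' hN h')
  rw [i_neg hJ he, H_negr hJ he, ← sub_eq_add_neg, ← sub_eq_add_neg] at f2
  have hH := hN.H g (J e x)
  set K := HuaVal.H J e g (J e x) with hK
  have key : κ ^ 3 * ν g < ν K := by
    rw [hH]
    calc κ ^ 3 * ν g = κ ^ 3 * ν g * (ν (J e x) * ν x) := by rw [hinvx, mul_one]
      _ = (κ ^ 3 * ν x) * (ν g * ν (J e x)) := by field_simp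
      _ < ν g * (ν g * ν (J e x)) := mul_lt_mul_of_pos_right h (mul_pos hg0 hix0)
      _ = ν g ^ 2 * ν (J e x) := by field_simp
  have key' : κ * ν g < ν K := by
    refine lt_of_le_of_lt ?_ key
    have : κ ≤ κ ^ 3 := le_self_pow₀ hk1 (by norm_num)
    gcongr
  have hZ1 : ν K ≤ κ * ν (K - g) := nq' hN key'
  have hgg : ν (g + g) ≤ κ * ν g := add_le' hN le_rfl le_rfl
  have hZ2 : κ * ν (g + g) < ν (K - g) := by
    have h1 : κ * (κ * ν (g + g)) < κ * ν (K - g) := by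
      calc κ * (κ * ν (g + g)) ≤ κ * (κ * (κ * ν g)) := by gcongr
        _ = κ ^ 3 * ν g := by field_simp
        _ < ν K := key
        _ ≤ _ := hZ1
    exact lt_of_mul_lt_mul_left h1 zero_le
  have hB := est_B hJ he hN hZ2
  have hS : ν (J e (g + x) + J e (g - x) - (J e g + J e g)) =
      ν (J e (K - g + (g + g)) - J e (K - g)) := by
    rw [← hN.neg]
    congr 1
    have e1 : K - g + (g + g) = g + K := by abel
    have e2 : J e (K - g) = -J e (g - K) := by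
      rw [← i_neg hJ he]
      congr 1
      abel
    rw [e1, e2, ← f1, ← f2]
    abel
  rw [hS]
  set S := ν (J e (K - g + (g + g)) - J e (K - g))
  have h5 : (S * ν g ^ 3) * ν g ≤ (κ ^ 4 * ν x ^ 2) * ν g := by
    calc (S * ν g ^ 3) * ν g = S * ν g ^ 4 * (ν (J e x) * ν x) * (ν (J e x) * ν x) := by
          rw [hinvx, mul_one, mul_one]
          field_simp
      _ = S * (ν g ^ 2 * ν (J e x)) ^ 2 * ν x ^ 2 := by field_simp
      _ = S * ν K ^ 2 * ν x ^ 2 := by rw [hH]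
      _ ≤ S * (κ * ν (K - g)) ^ 2 * ν x ^ 2 := by gcongr
      _ = κ ^ 2 * (S * ν (K - g) ^ 2) * ν x ^ 2 := by field_simp
      _ ≤ κ ^ 2 * (κ * (κ * ν g)) * ν x ^ 2 := by
        have : S * ν (K - g) ^ 2 ≤ κ * (κ * ν g) := hB.trans (by gcongr)
        gcongr
      _ = (κ ^ 4 * ν x ^ 2) * ν g := by field_simp
  exact le_of_mul_le_mul_right h5 hg0

omit [LinearOrderedCommGroupWithZero Γ] hN in
/-- the inner function in the estimate (C) -/
private lemma H_formula {s c : A} (hc : c ≠ 0) (h1 : e + s ≠ 0) (h2 : e - J e c + s ≠ 0) :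
    HuaVal.H J e (e + s) c = (e + s) - J e (J e (e + s) - J e (e - J e c + s)) := by
  have h := hJ.hua e (e + s) (J e c) he h1 (J_ne_zero hJ he hc) (by
    intro h
    apply h2
    have h3 : e - J e c + s = (e + s) - J e c := by abel
    rw [h3, h, sub_self])
  rw [H_of_ne h1, h]
  have h3 : e - J e c + s = (e + s) - J e c := by abel
  rw [h3]

/-- (C) -/
lemma est_C {x c : A} (hc : κ < ν c) (h : κ ^ 8 * ν c * ν x < 1) :
    ν (HuaVal.H J e (e + x) c + HuaVal.H J e (e - x) c - (c + c)) ≤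
      κ ^ 16 * ν c ^ 3 * ν x ^ 2 := by
  have hk := k_pos hN
  have hk1 := k_le hN
  have hc0 : c ≠ 0 := ne_of_nu hN (lt_trans hk hc)
  have hcpos := nu_pos hN hc0
  have hc1 : 1 ≤ ν c := hk1.trans hc.le
  have hw0 := J_ne_zero hJ he hc0
  have hwpos := nu_pos hN hw0
  have hinvc := hN.inv c hc0
  have hw1 : κ * ν (J e c) < ν e := by
    rw [hN.one, ← hinvc, mul_comm]
    exact mul_lt_mul_of_pos_left hc hwpos
  have hg2 : ν e ≤ κ * ν (e - J e c) := nq' hN hw1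
  rw [hN.one] at hg2
  -- smallness of `x`
  have hx9 : κ ^ 9 * ν x < 1 := by
    refine lt_of_le_of_lt ?_ h
    calc κ ^ 9 * ν x = κ ^ 8 * κ * ν x := by field_simp
      _ ≤ κ ^ 8 * ν c * ν x := by
        have := hc.le
        gcongr
  have hxk : ∀ n, n ≤ 9 → κ ^ n * ν x < 1 := by
    intro n hn
    refine lt_of_le_of_lt ?_ hx9
    have : κ ^ n ≤ κ ^ 9 := pow_le_pow_right₀ hk1 hn
    gcongr
  have hx1 : κ * ν x < ν e := by
    rw [hN.one]
    simpa using hxk 1 (by norm_num)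
  have hx3 : κ ^ 3 * ν x < ν e := by
    rw [hN.one]
    exact hxk 3 (by norm_num)
  have hgx : ∀ n, n ≤ 8 → κ ^ n * ν x < ν (e - J e c) := by
    intro n hn
    have h1 : κ * (κ ^ n * ν x) < κ * ν (e - J e c) := by
      calc κ * (κ ^ n * ν x) = κ ^ (n + 1) * ν x := by
            rw [pow_succ]
            field_simp
        _ < 1 := hxk (n + 1) (by omega)
        _ ≤ _ := hg2
    exact lt_of_mul_lt_mul_left h1 zero_le
  have hgx1 : κ * ν x < ν (e - J e c) := by simpa using hgx 1 (by norm_num)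
  set g2 := e - J e c with hg2def
  -- the formulas
  have F1 := H_formula hJ he (s := x) hc0 (nq_ne hN hx1) (nq_ne hN hgx1)
  have F2 := H_formula hJ he (s := -x) hc0
    (by rw [← sub_eq_add_neg]; exact nq_ne' hN hx1)
    (by rw [← sub_eq_add_neg]; exact nq_ne' hN hgx1)
  have hg2ne : g2 ≠ 0 := by
    intro h0
    rw [h0, nu_zero hN] at hgx1
    exact absurd hgx1 (not_lt.mpr zero_le)
  have F0 := H_formula hJ he (s := 0) hc0 (by rwa [add_zero]) (by rwa [add_zero])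
  rw [← hg2def] at F1 F2 F0
  rw [← sub_eq_add_neg, ← sub_eq_add_neg] at F2
  rw [add_zero, add_zero, H_self hJ he] at F0
  set A0 := J e e - J e g2 with hA0
  set Ap := J e (e + x) - J e (g2 + x) with hAp
  set Am := J e (e - x) - J e (g2 - x) with hAm
  -- estimates of the differences
  have hsum : ν ((Ap - A0) + (Am - A0)) ≤ κ ^ 8 * ν x ^ 2 := by
    have a1 := est_A hJ he hN hx3
    rw [hN.one, one_pow, mul_one] at a1
    have a2 := est_A hJ he hN (hgx 3 (by norm_num))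
    have a3 : ν (J e (g2 + x) + J e (g2 - x) - (J e g2 + J e g2)) ≤ κ ^ 7 * ν x ^ 2 := by
      set S := ν (J e (g2 + x) + J e (g2 - x) - (J e g2 + J e g2))
      calc S = S * 1 ^ 3 := by rw [one_pow, mul_one]
        _ ≤ S * (κ * ν g2) ^ 3 := by gcongr
        _ = κ ^ 3 * (S * ν g2 ^ 3) := by field_simp
        _ ≤ κ ^ 3 * (κ ^ 4 * ν x ^ 2) := by gcongr
        _ = κ ^ 7 * ν x ^ 2 := by field_simp
    have a4 : ν (J e (e + x) + J e (e - x) - (J e e + J e e)) ≤ κ ^ 7 * ν x ^ 2 := by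
      refine a1.trans ?_
      have : κ ^ 4 ≤ κ ^ 7 := pow_le_pow_right₀ hk1 (by norm_num)
      gcongr
    have a5 := sub_le' hN a4 a3
    have e1 : (Ap - A0) + (Am - A0) = (J e (e + x) + J e (e - x) - (J e e + J e e)) -
        (J e (g2 + x) + J e (g2 - x) - (J e g2 + J e g2)) := by
      rw [hAp, hAm, hA0]
      abel
    rw [e1]
    refine a5.trans (le_of_eq ?_)
    field_simp
  have hD1 : ν (Ap - A0) ≤ κ ^ 4 * ν x := by
    have b1 := est_B hJ he hN hx1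
    rw [hN.one, one_pow, mul_one] at b1
    have b2 := est_B hJ he hN hgx1
    have b3 : ν (J e (g2 + x) - J e g2) ≤ κ ^ 3 * ν x := by
      set S := ν (J e (g2 + x) - J e g2)
      calc S = S * 1 ^ 2 := by rw [one_pow, mul_one]
        _ ≤ S * (κ * ν g2) ^ 2 := by gcongr
        _ = κ ^ 2 * (S * ν g2 ^ 2) := by field_simp
        _ ≤ κ ^ 2 * (κ * ν x) := by gcongr
        _ = κ ^ 3 * ν x := by field_simp
    have b4 : ν (J e (e + x) - J e e) ≤ κ ^ 3 * ν x := by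
      refine b1.trans ?_
      have : κ ≤ κ ^ 3 := le_self_pow₀ hk1 (by norm_num)
      gcongr
    have b5 := sub_le' hN b4 b3
    have e1 : Ap - A0 = (J e (e + x) - J e e) - (J e (g2 + x) - J e g2) := by
      rw [hAp, hA0]
      abel
    rw [e1]
    refine b5.trans (le_of_eq ?_)
    field_simp
  set D1 := Ap - A0 with hD1def
  set D2 := Am - A0 with hD2def
  have hApe : Ap = A0 + D1 := by rw [hD1def]; abel
  have hAme : Am = A0 + D2 := by rw [hD2def]; abel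
  -- the size of `A0`
  have hA0e : J e A0 = e - c := by
    have h1 : J e A0 = e - (e - J e A0) := by abel
    rw [h1, ← F0]
  have hcne : e - c ≠ 0 := by
    have h1 := nq_ne' hN (x := c) (w := e) (by rwa [hN.one, mul_one])
    intro h2
    apply h1
    rw [← neg_sub, h2, neg_zero]
  have hA0e' : A0 = J e (e - c) := by rw [← hA0e, hJ.inv e _ he]
  have hinvA := hN.inv _ hcne
  rw [← hA0e'] at hinvA
  have hec : ν (e - c) ≤ κ * ν c := sub_le' hN (by rwa [hN.one]) le_rfl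
  have hA1 : 1 ≤ κ * ν c * ν A0 := by
    rw [← hinvA, mul_comm (ν A0)]
    gcongr
  have hA0ne : A0 ≠ 0 := by
    rw [hA0e']
    exact J_ne_zero hJ he hcne
  have hA0pos := nu_pos hN hA0ne
  have hAD : κ ^ 3 * ν D1 < ν A0 := by
    have h1 : (κ * ν c) * (κ ^ 3 * ν D1) < (κ * ν c) * ν A0 := by
      calc (κ * ν c) * (κ ^ 3 * ν D1) ≤ (κ * ν c) * (κ ^ 3 * (κ ^ 4 * ν x)) := by gcongr
        _ = κ ^ 8 * ν c * ν x := by field_simp
        _ < 1 := h
        _ ≤ _ := hA1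
    exact lt_of_mul_lt_mul_left h1 zero_le
  have hAD1 : κ * ν D1 < ν A0 := by
    refine lt_of_le_of_lt ?_ hAD
    have : κ ≤ κ ^ 3 := le_self_pow₀ hk1 (by norm_num)
    gcongr
  -- first part
  have P1 : ν (J e (A0 + D1) + J e (A0 - D1) - (J e A0 + J e A0)) ≤
      κ ^ 15 * ν c ^ 3 * ν x ^ 2 := by
    have a1 := est_A hJ he hN hAD
    set S := ν (J e (A0 + D1) + J e (A0 - D1) - (J e A0 + J e A0))
    calc S = S * 1 ^ 3 := by rw [one_pow, mul_one]
      _ ≤ S * (κ * ν c * ν A0) ^ 3 := by gcongr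
      _ = κ ^ 3 * ν c ^ 3 * (S * ν A0 ^ 3) := by field_simp
      _ ≤ κ ^ 3 * ν c ^ 3 * (κ ^ 4 * ν D1 ^ 2) := by gcongr
      _ ≤ κ ^ 3 * ν c ^ 3 * (κ ^ 4 * (κ ^ 4 * ν x) ^ 2) := by gcongr
      _ = κ ^ 15 * ν c ^ 3 * ν x ^ 2 := by field_simp
  -- second part
  have hX : ν A0 ≤ κ * ν (A0 - D1) := nq' hN hAD1
  have hX1 : 1 ≤ κ ^ 2 * ν c * ν (A0 - D1) := by
    calc 1 ≤ κ * ν c * ν A0 := hA1
      _ ≤ κ * ν c * (κ * ν (A0 - D1)) := by gcongr
      _ = _ := by field_simp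
  have hXW : κ * ν (D1 + D2) < ν (A0 - D1) := by
    have h1 : (κ ^ 2 * ν c) * (κ * ν (D1 + D2)) < (κ ^ 2 * ν c) * ν (A0 - D1) := by
      calc (κ ^ 2 * ν c) * (κ * ν (D1 + D2))
          ≤ (κ ^ 2 * ν c) * (κ * (κ ^ 8 * ν x ^ 2)) := by gcongr
        _ = (κ ^ 8 * ν c * ν x) * (κ ^ 3 * ν x) := by field_simp
        _ ≤ (κ ^ 8 * ν c * ν x) * 1 := by
          have := (hxk 3 (by norm_num)).le
          gcongr
        _ = κ ^ 8 * ν c * ν x := mul_one _
        _ < 1 := h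
        _ ≤ _ := hX1
    exact lt_of_mul_lt_mul_left h1 zero_le
  have P2 : ν (J e (A0 + D2) - J e (A0 - D1)) ≤ κ ^ 15 * ν c ^ 3 * ν x ^ 2 := by
    have b1 := est_B hJ he hN hXW
    have e1 : A0 - D1 + (D1 + D2) = A0 + D2 := by abel
    rw [e1] at b1
    set S := ν (J e (A0 + D2) - J e (A0 - D1))
    calc S = S * 1 ^ 2 := by rw [one_pow, mul_one]
      _ ≤ S * (κ ^ 2 * ν c * ν (A0 - D1)) ^ 2 := by gcongr
      _ = κ ^ 4 * ν c ^ 2 * (S * ν (A0 - D1) ^ 2) := by field_simp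
      _ ≤ κ ^ 4 * ν c ^ 2 * (κ * ν (D1 + D2)) := by gcongr
      _ ≤ κ ^ 4 * ν c ^ 2 * (κ * (κ ^ 8 * ν x ^ 2)) := by gcongr
      _ = κ ^ 13 * ν c ^ 2 * ν x ^ 2 := by field_simp
      _ ≤ κ ^ 15 * ν c ^ 3 * ν x ^ 2 := by
        have h1 : κ ^ 13 ≤ κ ^ 15 := pow_le_pow_right₀ hk1 (by norm_num)
        have h2 : ν c ^ 2 ≤ ν c ^ 3 := pow_le_pow_right₀ hc1 (by norm_num)
        gcongr
  have P3 := add_le' hN P1 P2
  have e5 : HuaVal.H J e (e + x) c + HuaVal.H J e (e - x) c - (c + c) =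
      -((J e (A0 + D1) + J e (A0 - D1) - (J e A0 + J e A0)) +
        (J e (A0 + D2) - J e (A0 - D1))) := by
    rw [F1, F2, hApe, hAme, hA0e]
    abel
  rw [e5, hN.neg]
  refine P3.trans (le_of_eq ?_)
  field_simp

/-- (E) -/
lemma est_E {x c : A} (hc : ν c ≤ κ) (h : κ ^ 12 * ν x < 1) :
    ν (Dl J e x c) ≤ κ ^ 30 * ν x ^ 2 := by
  have hk := k_pos hN
  have hk1 := k_le hN
  have hkk := hN.one_lt
  obtain ⟨d, hd⟩ := hN.scale
  have h12 : κ < κ ^ 2 := by
    calc κ = κ * 1 := (mul_one κ).symm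
      _ < κ * κ := mul_lt_mul_of_pos_left hkk hk
      _ = κ ^ 2 := (sq κ).symm
  have h23 : κ ^ 2 < κ ^ 3 := by
    calc κ ^ 2 = κ ^ 2 * 1 := (mul_one _).symm
      _ < κ ^ 2 * κ := mul_lt_mul_of_pos_left hkk (pow_pos hk 2)
      _ = κ ^ 3 := by field_simp
  have hcd : κ * ν c < ν d := by
    rw [hd]
    refine lt_of_le_of_lt ?_ h23
    rw [sq]
    gcongr
  have hs1 : κ ^ 2 ≤ ν (d + c) := by
    have h1 := nq hN hcd
    have h2 : κ * κ ^ 2 ≤ κ * ν (d + c) := by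
      rw [hd] at h1
      refine le_trans (le_of_eq ?_) h1
      field_simp
    exact le_of_mul_le_mul_left h2 hk
  have hs2 : ν (d + c) ≤ κ ^ 4 := by
    have h1 : ν (d + c) ≤ κ * κ ^ 3 := add_le' hN hd.le (hc.trans (h12.le.trans h23.le))
    refine h1.trans (le_of_eq ?_)
    field_simp
  have c1 : ν (HuaVal.H J e (e + x) (d + c) + HuaVal.H J e (e - x) (d + c) -
      ((d + c) + (d + c))) ≤ κ ^ 28 * ν x ^ 2 := by
    refine (est_C hJ he hN (lt_of_lt_of_le h12 hs1) (lt_of_le_of_lt ?_ h)).trans ?_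
    · calc κ ^ 8 * ν (d + c) * ν x ≤ κ ^ 8 * κ ^ 4 * ν x := by gcongr
        _ = κ ^ 12 * ν x := by field_simp
    · calc κ ^ 16 * ν (d + c) ^ 3 * ν x ^ 2 ≤ κ ^ 16 * (κ ^ 4) ^ 3 * ν x ^ 2 := by gcongr
        _ = κ ^ 28 * ν x ^ 2 := by field_simp
  have c2 : ν (HuaVal.H J e (e + x) d + HuaVal.H J e (e - x) d - (d + d)) ≤
      κ ^ 28 * ν x ^ 2 := by
    have hd2 : κ < ν d := by
      rw [hd]
      exact h12.trans h23
    refine (est_C hJ he hN hd2 (lt_of_le_of_lt ?_ h)).trans ?_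
    · rw [hd]
      have : κ ^ 8 * κ ^ 3 ≤ κ ^ 12 := by
        rw [← pow_add]
        exact pow_le_pow_right₀ hk1 (by norm_num)
      gcongr
    · rw [hd]
      have : κ ^ 16 * (κ ^ 3) ^ 3 ≤ κ ^ 28 := by
        rw [← pow_mul, ← pow_add]
        exact pow_le_pow_right₀ hk1 (by norm_num)
      gcongr
  have c3 := sub_le' hN c1 c2
  have c4 : ν (HuaVal.H J e x c + HuaVal.H J e x c) ≤ κ * (κ ^ 28 * ν x ^ 2) := by
    have h1 : ν (HuaVal.H J e x c) ≤ κ ^ 28 * ν x ^ 2 := by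
      rw [hN.H, mul_comm]
      have : ν c ≤ κ ^ 28 := hc.trans (le_self_pow₀ hk1 (by norm_num))
      gcongr
    exact add_le' hN h1 h1
  have c5 := sub_le' hN c3 c4
  have e1 : Dl J e x c = HuaVal.H J e (e + x) (d + c) + HuaVal.H J e (e - x) (d + c) -
      ((d + c) + (d + c)) - (HuaVal.H J e (e + x) d + HuaVal.H J e (e - x) d - (d + d)) -
      (HuaVal.H J e x c + HuaVal.H J e x c) := by
    rw [Dl, H_add hJ he, H_add hJ he]
    abel
  rw [e1]
  refine c5.trans (le_of_eq ?_)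
  field_simp

/-- (F) -/
lemma est_F {x w : A} (hx : ν x ≤ 1) (h : κ ^ 13 * ν w < 1) :
    ν (Dl J e x w) ≤ κ ^ 32 * ν w ^ 2 := by
  have hk := k_pos hN
  have hk1 := k_le hN
  by_cases hw : w = 0
  · rw [hw, Dl_zero_right hJ he, nu_zero hN]
    exact zero_le
  have hw0 := J_ne_zero hJ he hw
  have hwpos := nu_pos hN hw
  have hiwpos := nu_pos hN hw0
  have hinvw := hN.inv w hw
  have hw1 : ν w ≤ 1 := by
    refine le_trans ?_ h.le
    calc ν w = 1 * ν w := (one_mul _).symm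
      _ ≤ κ ^ 13 * ν w := by
        have : (1 : Γ) ≤ κ ^ 13 := one_le_pow₀ hk1
        gcongr
  have hlt : κ * ν x < ν (J e w) := by
    calc κ * ν x ≤ κ ^ 13 * 1 := by
          have : κ ≤ κ ^ 13 := le_self_pow₀ hk1 (by norm_num)
          gcongr
      _ = κ ^ 13 * (ν (J e w) * ν w) := by rw [hinvw]
      _ = (κ ^ 13 * ν w) * ν (J e w) := by field_simp
      _ < 1 * ν (J e w) := mul_lt_mul_of_pos_right h hiwpos
      _ = ν (J e w) := one_mul _
  have hs := nq_ne hN hlt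
  have hs1 := nq hN hlt
  rw [add_comm] at hs hs1
  have hinvs := hN.inv _ hs
  have hspos := nu_pos hN hs
  -- the new argument is small
  have hnew : ν (J e (x + J e w)) ≤ κ * ν w := by
    set S := ν (J e (x + J e w))
    calc S = S * (ν (J e w) * ν w) := by rw [hinvw, mul_one]
      _ = S * ν (J e w) * ν w := by field_simp
      _ ≤ S * (κ * ν (x + J e w)) * ν w := by gcongr
      _ = (S * ν (x + J e w)) * (κ * ν w) := by field_simp
      _ = κ * ν w := by rw [hinvs, one_mul]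
  have hval : ν (x + HuaVal.H J e x w) ≤ κ := by
    have h1 : ν (HuaVal.H J e x w) ≤ 1 := by
      rw [hN.H]
      calc ν x ^ 2 * ν w ≤ 1 ^ 2 * 1 := by gcongr
        _ = 1 := by rw [one_pow, mul_one]
    have h2 := add_le' hN hx h1
    rwa [mul_one] at h2
  rw [Dl_trans hJ he hw hs]
  refine (est_E hJ he hN hval (lt_of_le_of_lt ?_ h)).trans ?_
  · calc κ ^ 12 * ν (J e (x + J e w)) ≤ κ ^ 12 * (κ * ν w) := by gcongr
      _ = κ ^ 13 * ν w := by field_simp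
  · calc κ ^ 30 * ν (J e (x + J e w)) ^ 2 ≤ κ ^ 30 * (κ * ν w) ^ 2 := by gcongr
      _ = κ ^ 32 * ν w ^ 2 := by field_simp

/-- (G) -/
lemma est_G {x w : A} (hx : ν x ≤ 1) (h : κ ^ 13 * ν x ^ 4 * ν w < 1) :
    ν (Dl J e x w) ≤ κ ^ 32 * ν x ^ 4 * ν w ^ 2 := by
  by_cases hx0 : x = 0
  · rw [hx0, Dl_zero_left hJ he, nu_zero hN]
    exact zero_le
  have hxpos := nu_pos hN hx0
  have h1 : ν (HuaVal.H J e x (HuaVal.H J e x w)) = ν x ^ 4 * ν w := by
    rw [hN.H, hN.H]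
    field_simp
  have h2 := est_F hJ he hN (w := HuaVal.H J e x (HuaVal.H J e x w)) hx (by
    rw [h1]
    refine lt_of_le_of_lt (le_of_eq ?_) h
    field_simp)
  rw [Dl_comm hJ he, Dl_comm hJ he, hN.H, hN.H, h1] at h2
  have h3 : ν x ^ 4 * ν (Dl J e x w) ≤ ν x ^ 4 * (κ ^ 32 * ν x ^ 4 * ν w ^ 2) := by
    calc ν x ^ 4 * ν (Dl J e x w) = ν x ^ 2 * (ν x ^ 2 * ν (Dl J e x w)) := by field_simp
      _ ≤ κ ^ 32 * (ν x ^ 4 * ν w) ^ 2 := h2
      _ = ν x ^ 4 * (κ ^ 32 * ν x ^ 4 * ν w ^ 2) := by field_simp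
  exact le_of_mul_le_mul_left h3 (pow_pos hxpos 4)

end

end Pool.Agent.HuaVal
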