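import Mathlib
import Pool.Agent.HuaVal.Norm

/-!
# Hua systems with a quasi-norm: the Hua maps are quadratic
-/

set_option autoImplicit false

namespace Pool.Agent.HuaVal

/-- a map with vanishing third difference which is even is quadratic -/
lemma exists_quad {A M : Type*} [AddCommGroup A] [AddCommGroup M]
    (h2 : ∀ m : M, m + m = 0 → m = 0) (Q : A → M) (hneg : ∀ x, Q (-x) = Q x)
    (hadd : ∀ x y z, Q (x + y + z) - Q (x + y) - Q (x + z) - Q (y + z) + Q x + Q y + Q z = 0) :
    ∃ U : QuadraticMap ℤ A M, ∀ x, U x = Q x := by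
  have h0 : Q 0 = 0 := by
    have h := hadd 0 0 0
    simp only [add_zero] at h
    calc Q 0 = Q 0 - Q 0 - Q 0 - Q 0 + Q 0 + Q 0 + Q 0 := by abel
      _ = 0 := h
  have hl : ∀ x y z, Q (x + y + z) - Q (x + y) - Q z =
      (Q (x + z) - Q x - Q z) + (Q (y + z) - Q y - Q z) := by
    intro x y z
    have h := hadd x y z
    have h3 : Q (x + y + z) - Q (x + y) - Q z =
      (Q (x + z) - Q x - Q z) + (Q (y + z) - Q y - Q z) +
        (Q (x + y + z) - Q (x + y) - Q (x + z) - Q (y + z) + Q x + Q y + Q z) := by abel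
    rw [h3, h, add_zero]
  let P : A →+ A →+ M :=
    AddMonoidHom.mk' (fun x => AddMonoidHom.mk' (fun y => Q (x + y) - Q x - Q y) (by
      intro y z
      have h := hl y z x
      have e1 : x + (y + z) = y + z + x := by abel
      rw [e1, add_comm x y, add_comm x z]
      have e2 : Q (y + z + x) - Q x - Q (y + z) = Q (y + z + x) - Q (y + z) - Q x := by abel
      rw [e2, h]
      abel)) (by
      intro x y
      ext z
      simp only [AddMonoidHom.mk'_apply, AddMonoidHom.add_apply]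
      exact hl x y z)
  have hP : ∀ x y, P x y = Q (x + y) - Q x - Q y := fun x y => rfl
  have hPP : ∀ x, P x x = Q x + Q x := by
    intro x
    have h1 : P x (-x) = -P x x := map_neg _ _
    rw [hP, add_neg_cancel, h0, hneg] at h1
    have h3 : P x x = -(-P x x) := (neg_neg _).symm
    rw [h3, ← h1]
    abel
  let B : LinearMap.BilinMap ℤ A M :=
    (AddMonoidHom.mk' (fun x => (P x).toIntLinearMap) (by
      intro x y
      ext z
      simp only [map_add, AddMonoidHom.coe_toIntLinearMap, AddMonoidHom.add_apply,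
        LinearMap.add_apply])).toIntLinearMap
  have hB : ∀ x y, B x y = P x y := fun x y => rfl
  refine ⟨⟨Q, ?_, ⟨B, ?_⟩⟩, fun x => rfl⟩
  · intro n x
    have h3 : B (n • x) (n • x) = (n * n) • B x x := by
      rw [map_smul, map_smul, LinearMap.smul_apply, smul_smul]
    rw [hB, hB, hPP, hPP] at h3
    have h4 : (Q (n • x) - (n * n) • Q x) + (Q (n • x) - (n * n) • Q x) = 0 := by
      have h5 : (Q (n • x) - (n * n) • Q x) + (Q (n • x) - (n * n) • Q x) =
        (Q (n • x) + Q (n • x)) - (n * n) • (Q x + Q x) := by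
        rw [smul_add]
        abel
      rw [h5, h3, sub_self]
    exact sub_eq_zero.mp (h2 _ h4)
  · intro x y
    rw [hB, hP]
    abel

/-- a quasi-norm on a Hua system -/
structure NormH {A : Type*} [AddCommGroup A] (J : A → A → A)
    {Γ : Type*} [LinearOrderedCommGroupWithZero Γ] (N : A → Γ) (K : Γ) : Prop where
  zero_iff : ∀ a, N a = 0 ↔ a = 0
  add : ∀ a b, N (a + b) ≤ K * max (N a) (N b)
  J : ∀ a b, a ≠ 0 → b ≠ 0 → N (J a b) * N b = N a ^ 2
  large : ∃ a b, b ≠ 0 ∧ K * N b < N a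

section

variable {A : Type*} [AddCommGroup A] {J : A → A → A}
  {Γ : Type*} [LinearOrderedCommGroupWithZero Γ] {N : A → Γ} {K : Γ}
  (hJ : JSys J) (hN : NormH J N K)

include hN

private lemma N_ne {x : A} (hx : x ≠ 0) : N x ≠ 0 := fun h => hx ((hN.zero_iff x).mp h)

private lemma N_pos {x : A} (hx : x ≠ 0) : 0 < N x := zero_lt_iff.mpr (N_ne hN hx)

private lemma K_le : 1 ≤ K := by
  obtain ⟨a, b, hb, -⟩ := hN.large
  have h := hN.add b 0
  have h0 : N 0 = 0 := (hN.zero_iff 0).mpr rfl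
  rw [add_zero, h0, max_eq_left zero_le] at h
  have h2 : 1 * N b ≤ K * N b := by rwa [one_mul]
  exact le_of_mul_le_mul_right h2 (N_pos hN hb)

include hJ

private lemma N_neg (x : A) : N (-x) = N x := by
  by_cases hx : x = 0
  · rw [hx, neg_zero]
  have h := hN.J x (-x) hx (neg_ne_zero.mpr hx)
  rw [hJ.neg x x hx, hJ.self x hx, ← sq] at h
  exact (pow_left_inj₀ zero_le zero_le (by norm_num)).mp h

/-- from a quasi-norm to the normalised quasi-norms at the points `z` -/
theorem exists_normAt : ∃ κ : Γ, ∀ z, z ≠ 0 → NormAt J z (fun x => N x / N z) κ ∧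
    ∃ f : A → A, ∀ x, N (f x) = κ * N x := by
  obtain ⟨a, b, hb, hab⟩ := hN.large
  have hK := K_le hN
  have ha : a ≠ 0 := by
    rintro rfl
    rw [(hN.zero_iff 0).mpr rfl] at hab
    exact absurd hab (not_lt.mpr zero_le)
  have hNa := N_pos hN ha
  have hNb := N_pos hN hb
  have hr : K < N a / N b := by rwa [lt_div_iff₀ hNb]
  have hr1 : 1 < N a / N b := lt_of_le_of_lt hK hr
  have hKκ : K ≤ (N a / N b) ^ 2 := hr.le.trans (le_self_pow₀ hr1.le (by norm_num))
  have hκ1 : 1 < (N a / N b) ^ 2 := one_lt_pow₀ hr1 (by norm_num)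
  have hf : ∀ x, N (J a (J b x)) = (N a / N b) ^ 2 * N x := by
    intro x
    by_cases hx : x = 0
    · rw [hx, hJ.zero b hb, hJ.zero a ha, (hN.zero_iff 0).mpr rfl, mul_zero]
    have hbx := J_ne_zero hJ hb hx
    have h1 := hN.J a (J b x) ha hbx
    have h2 := hN.J b x hb hx
    have hbx0 := N_ne hN hbx
    have hx0 := N_ne hN hx
    have hb0 := hNb.ne'
    have h3 : N (J a (J b x)) = N a ^ 2 / N (J b x) := by
      rw [← h1]
      field_simp
    have h4 : N (J b x) = N b ^ 2 / N x := by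
      rw [← h2]
      field_simp
    rw [h3, h4]
    field_simp
  refine ⟨(N a / N b) ^ 2, fun z hz => ⟨?_, fun x => J a (J b x), hf⟩⟩
  have hNz := N_pos hN hz
  have hNz0 := hNz.ne'
  have h00 : N 0 = 0 := (hN.zero_iff 0).mpr rfl
  refine ⟨?_, ?_, ?_, ?_, ?_, ?_, hκ1, ?_⟩
  · intro x
    rw [div_eq_zero_iff]
    constructor
    · rintro (h | h)
      · exact (hN.zero_iff x).mp h
      · exact absurd h hNz0
    · intro h
      exact Or.inl ((hN.zero_iff x).mpr h)
  · exact div_self hNz0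
  · intro x y
    have h1 : N x ≤ max (N x / N z) (N y / N z) * N z := by
      rw [← div_le_iff₀ hNz]
      exact le_max_left _ _
    have h2 : N y ≤ max (N x / N z) (N y / N z) * N z := by
      rw [← div_le_iff₀ hNz]
      exact le_max_right _ _
    rw [div_le_iff₀ hNz, mul_assoc]
    refine (hN.add x y).trans ?_
    have := max_le h1 h2
    gcongr
  · intro x
    show N (-x) / N z = N x / N z
    rw [N_neg hJ hN]
  · intro c hc
    have h := hN.J z c hz hc
    show N (J z c) / N z * (N c / N z) = 1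
    rw [div_mul_div_comm, h, ← sq, div_self (pow_ne_zero 2 hNz0)]
  · intro x c
    show N (H J z x c) / N z = (N x / N z) ^ 2 * (N c / N z)
    by_cases hx : x = 0
    · rw [hx, H_zero_left, h00, zero_div, zero_pow (by norm_num), zero_mul]
    by_cases hc : c = 0
    · rw [hc, H_zero_right hJ hz, h00, zero_div, mul_zero]
    have hzc := J_ne_zero hJ hz hc
    have h1 := hN.J x (J z c) hx hzc
    have h2 := hN.J z c hz hc
    have hzc0 := N_ne hN hzc
    have hc0 := N_ne hN hc
    have h3 : N (J x (J z c)) = N x ^ 2 / N (J z c) := by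
      rw [← h1]
      field_simp
    have h4 : N (J z c) = N z ^ 2 / N c := by
      rw [← h2]
      field_simp
    rw [H_of_ne hx, h3, h4]
    field_simp
  · refine ⟨J a (J b (J a (J b (J a (J b z))))), ?_⟩
    show N (J a (J b (J a (J b (J a (J b z)))))) / N z = ((N a / N b) ^ 2) ^ 3
    rw [hf, hf, hf]
    field_simp

end

/-- vanishing at infinity -/
def Van {A : Type*} [AddCommGroup A] {Γ : Type*} [LinearOrderedCommGroupWithZero Γ]
    (ν : A → Γ) (F : A → A) : Prop :=
  ∀ δ : A, δ ≠ 0 → ∃ R : A, ∀ z : A, ν R < ν z → ν (F z) < ν δ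

/-- the second difference of the Hua maps -/
noncomputable def Om {A : Type*} [AddCommGroup A] (J : A → A → A) (e z x c : A) : A :=
  H J e (z + x) c + H J e (z - x) c - (H J e z c + H J e z c) - (H J e x c + H J e x c)

/-- the third difference of the Hua maps -/
noncomputable def T3 {A : Type*} [AddCommGroup A] (J : A → A → A) (e x y z c : A) : A :=
  H J e (x + y + z) c - H J e (x + y) c - H J e (x + z) c - H J e (y + z) c +
    H J e x c + H J e y c + H J e z c

section

variable {A : Type*} [AddCommGroup A] {J : A → A → A} {e : A}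
  {Γ : Type*} [LinearOrderedCommGroupWithZero Γ] {ν : A → Γ} {κ : Γ}
  (hJ : JSys J) (he : e ≠ 0) (hN : NormAt J e ν κ)
  (hNz : ∀ z, z ≠ 0 → NormAt J z (fun x => ν x / ν z) κ)
  {f : A → A} (hf : ∀ x, ν (f x) = κ * ν x)

section

omit [AddCommGroup A] in
private lemma van_two (ν : A → Γ) (R S : A) :
    ∃ Q : A, ∀ z, ν Q < ν z → ν R < ν z ∧ ν S < ν z := by
  rcases le_total (ν R) (ν S) with h | h
  · exact ⟨S, fun z hz => ⟨lt_of_le_of_lt h hz, hz⟩⟩
  · exact ⟨R, fun z hz => ⟨hz, lt_of_le_of_lt h hz⟩⟩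

include hf

omit [AddCommGroup A] in
private lemma f_iter (n : ℕ) (x : A) : ν (f^[n] x) = κ ^ n * ν x := by
  induction n with
  | zero => simp
  | succ n ih =>
    rw [Function.iterate_succ_apply', hf, ih, pow_succ]
    field_simp

include hN

include hJ he in
private lemma f_div (δ : A) (hδ : δ ≠ 0) : ∃ δ' : A, δ' ≠ 0 ∧ κ * ν δ' ≤ ν δ := by
  have hk := k_pos hN
  refine ⟨J e (f (J e δ)), ?_, ?_⟩
  · apply J_ne_zero hJ he
    apply ne_of_nu hN
    rw [hf]
    exact mul_pos hk (nu_pos hN (J_ne_zero hJ he hδ))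
  · have hd := J_ne_zero hJ he hδ
    have h1 : 0 < ν (f (J e δ)) := by
      rw [hf]
      exact mul_pos hk (nu_pos hN hd)
    have h2 := hN.inv _ (ne_of_nu hN h1)
    have h3 := hN.inv δ hδ
    rw [hf] at h2
    have h4 : ν (J e δ) * (κ * ν (J e (f (J e δ)))) ≤ ν (J e δ) * ν δ := by
      rw [h3, ← h2]
      apply le_of_eq
      field_simp
    exact le_of_mul_le_mul_left h4 (nu_pos hN hd)

include hJ he in
private lemma van_add {F G : A → A} (hF : Van ν F) (hG : Van ν G) :
    Van ν (fun z => F z + G z) := by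
  intro δ hδ
  obtain ⟨δ', hδ', hle⟩ := f_div hJ he hN hf δ hδ
  obtain ⟨R, hR⟩ := hF δ' hδ'
  obtain ⟨S, hS⟩ := hG δ' hδ'
  obtain ⟨Q, hQ⟩ := van_two ν R S
  refine ⟨Q, fun z hz => ?_⟩
  obtain ⟨h1, h2⟩ := hQ z hz
  have h3 := hR z h1
  have h4 := hS z h2
  calc ν (F z + G z) ≤ κ * max (ν (F z)) (ν (G z)) := hN.add _ _
    _ < κ * ν δ' := mul_lt_mul_of_pos_left (max_lt h3 h4) (k_pos hN)
    _ ≤ ν δ := hle

include hJ he in
private lemma van_sub {F G : A → A} (hF : Van ν F) (hG : Van ν G) :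
    Van ν (fun z => F z - G z) := by
  have hG' : Van ν (fun z => -G z) := by
    intro δ hδ
    obtain ⟨R, hR⟩ := hG δ hδ
    exact ⟨R, fun z hz => by simpa only [hN.neg] using hR z hz⟩
  have h := van_add hJ he hN hf hF hG'
  simpa only [← sub_eq_add_neg] using h

private lemma van_shift {F : A → A} (hF : Van ν F) (a : A) : Van ν (fun z => F (z + a)) := by
  intro δ hδ
  obtain ⟨R, hR⟩ := hF δ hδ
  obtain ⟨Q, hQ⟩ := van_two ν (f R) (f a)
  refine ⟨Q, fun z hz => ?_⟩
  obtain ⟨h1, h2⟩ := hQ z hz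
  rw [hf] at h1 h2
  apply hR
  have h3 := nq hN h2
  exact lt_of_mul_lt_mul_left (lt_of_lt_of_le h1 h3) zero_le

include he in
private lemma van_const {v : A} (h : Van ν (fun _ => v)) : v = 0 := by
  by_contra hv
  obtain ⟨R, hR⟩ := h v hv
  have h1 : ∃ z, ν R < ν z := by
    by_cases hR0 : R = 0
    · refine ⟨e, ?_⟩
      rw [hR0, nu_zero hN]
      exact nu_pos hN he
    · refine ⟨f R, ?_⟩
      rw [hf]
      calc ν R = 1 * ν R := (one_mul _).symm
        _ < κ * ν R := mul_lt_mul_of_pos_right hN.one_lt (nu_pos hN hR0)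
  obtain ⟨z, hz⟩ := h1
  exact lt_irrefl _ (hR z hz)

end

include hJ hN hNz in
/-- (H) -/
private lemma est_Om {z x c : A} (hz : z ≠ 0) (hx : ν x ≤ ν z)
    (h : κ ^ 13 * ν x ^ 4 * ν c < ν z ^ 3) :
    ν (Om J e z x c) * ν z ≤ κ ^ 32 * ν x ^ 4 * ν c ^ 2 := by
  have hzp := nu_pos hN hz
  have hz0 := hzp.ne'
  have hw : ν (H J e z c) / ν z = ν z * ν c := by
    rw [hN.H]
    field_simp
  have h1 := est_G hJ hz (hNz z hz) (x := x) (w := H J e z c) (by
    show ν x / ν z ≤ 1
    rw [div_le_one₀ hzp]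
    exact hx) (by
    show κ ^ 13 * (ν x / ν z) ^ 4 * (ν (H J e z c) / ν z) < 1
    rw [hw]
    have h2 : κ ^ 13 * (ν x / ν z) ^ 4 * (ν z * ν c) = κ ^ 13 * ν x ^ 4 * ν c / ν z ^ 3 := by
      field_simp
    rw [h2, div_lt_one₀ (pow_pos hzp 3)]
    exact h)
  rw [Dl_change hJ hz] at h1
  have h3 : ν (Om J e z x c) / ν z ≤
      κ ^ 32 * (ν x / ν z) ^ 4 * (ν (H J e z c) / ν z) ^ 2 := h1
  rw [hw, div_le_iff₀ hzp] at h3
  calc ν (Om J e z x c) * ν z ≤ κ ^ 32 * (ν x / ν z) ^ 4 * (ν z * ν c) ^ 2 * ν z * ν z := by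
        gcongr
    _ = κ ^ 32 * ν x ^ 4 * ν c ^ 2 := by field_simp

include hJ he hN hNz hf in
private lemma van_Om (x c : A) : Van ν (fun z => Om J e z x c) := by
  intro δ hδ
  have hiδ := J_ne_zero hJ he hδ
  have hδp := nu_pos hN hδ
  have hinvδ := hN.inv δ hδ
  obtain ⟨Q1, hQ1⟩ := van_two ν e x
  obtain ⟨Q2, hQ2⟩ := van_two ν (f^[13] (H J e x (H J e x c)))
    (f^[32] (H J e x (H J e x (H J e c (J e δ)))))
  obtain ⟨Q, hQ⟩ := van_two ν Q1 Q2
  refine ⟨Q, fun z hz => ?_⟩
  obtain ⟨g1, g2⟩ := hQ z hz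
  obtain ⟨a1, a2⟩ := hQ1 z g1
  obtain ⟨a3, a4⟩ := hQ2 z g2
  rw [hN.one] at a1
  rw [f_iter hf, hN.H, hN.H] at a3
  rw [f_iter hf, hN.H, hN.H, hN.H] at a4
  have hzp : 0 < ν z := lt_trans zero_lt_one a1
  have hz0 : z ≠ 0 := ne_of_nu hN hzp
  have h3 : κ ^ 13 * ν x ^ 4 * ν c < ν z ^ 3 := by
    calc κ ^ 13 * ν x ^ 4 * ν c = κ ^ 13 * (ν x ^ 2 * (ν x ^ 2 * ν c)) := by field_simp
      _ < ν z := a3
      _ ≤ ν z ^ 3 := le_self_pow₀ a1.le (by norm_num)
  have h5 := est_Om hJ hN hNz hz0 a2.le h3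
  have h6 : κ ^ 32 * ν x ^ 4 * ν c ^ 2 < ν δ * ν z := by
    calc κ ^ 32 * ν x ^ 4 * ν c ^ 2 = κ ^ 32 * ν x ^ 4 * ν c ^ 2 * (ν (J e δ) * ν δ) := by
          rw [hinvδ, mul_one]
      _ = ν δ * (κ ^ 32 * (ν x ^ 2 * (ν x ^ 2 * (ν c ^ 2 * ν (J e δ))))) := by field_simp
      _ < ν δ * ν z := mul_lt_mul_of_pos_left a4 hδp
  exact lt_of_mul_lt_mul_right (lt_of_le_of_lt h5 h6) zero_le

include hJ he hN hNz hf in
private lemma van_T3 (x y c : A) : Van ν (fun z => T3 J e x y z c + T3 J e x y z c) := by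
  have h1 := van_shift hN hf (van_Om hJ he hN hNz hf (x + y) c) x
  have h2 := van_shift hN hf (van_Om hJ he hN hNz hf x c) (x + y)
  have h3 := van_Om hJ he hN hNz hf y c
  have h4 := van_sub hJ he hN hf (van_sub hJ he hN hf h1 h2) h3
  have h5 : (fun z => T3 J e x y z c + T3 J e x y z c) =
      (fun z => Om J e (z + x) (x + y) c - Om J e (z + (x + y)) x c - Om J e z y c) := by
    funext z
    have e1 : z + x + (x + y) = z + (x + y) + x := by abel
    have e2 : z + x - (x + y) = z - y := by abel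
    have e3 : z + (x + y) - x = y + z := by abel
    have e4 : z + (x + y) = x + y + z := by abel
    have e5 : z + x = x + z := by abel
    have e6 : z + y = y + z := by abel
    rw [T3, Om, Om, Om, e1, e2, e3, e4, e5, e6]
    abel
  rw [h5]
  exact h4

include hJ he hN hNz hf in
/-- the third differences vanish -/
theorem T3_eq_zero (h2 : ∀ a : A, a + a = 0 → a = 0) (x y w c : A) : T3 J e x y w c = 0 := by
  apply h2
  apply van_const he hN hf
  have v1 := van_shift hN hf (van_T3 hJ he hN hNz hf x y c) w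
  have v2 := van_T3 hJ he hN hNz hf x y c
  have v3 := van_T3 hJ he hN hNz hf (x + y) w c
  have v4 := van_T3 hJ he hN hNz hf x w c
  have v5 := van_T3 hJ he hN hNz hf y w c
  have v := van_add hJ he hN hf (van_add hJ he hN hf
    (van_sub hJ he hN hf (van_sub hJ he hN hf v1 v2) v3) v4) v5
  have h5 : (fun _ : A => T3 J e x y w c + T3 J e x y w c) =
      (fun z => (T3 J e x y (z + w) c + T3 J e x y (z + w) c) -
        (T3 J e x y z c + T3 J e x y z c) -
        (T3 J e (x + y) w z c + T3 J e (x + y) w z c) +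
        (T3 J e x w z c + T3 J e x w z c) + (T3 J e y w z c + T3 J e y w z c)) := by
    funext z
    have e1 : x + y + (z + w) = x + y + w + z := by abel
    have e2 : x + (z + w) = x + w + z := by abel
    have e3 : y + (z + w) = y + w + z := by abel
    have e4 : z + w = w + z := by abel
    simp only [T3]
    rw [e1, e2, e3, e4]
    abel
  rw [h5]
  exact v

end

end Pool.Agent.HuaVal
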