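import Mathlib
import Pool.Agent.HuaVal.Quad

/-!
# Hua systems with central scalars
-/

set_option autoImplicit false

namespace Pool.Agent.HuaVal

section

variable {A : Type*} [AddCommGroup A] {J : A → A → A} (hJ : JSys J) {e : A} (he : e ≠ 0)

include hJ he

/-- the inversion formula for the Hua map of a sum -/
lemma H_add_H {x w : A} (hx : x ≠ 0) (hw : w ≠ 0) (y : A) :
    H J e (x + w) y = H J e x (H J e (J e x + J e w) (H J e w y)) := by
  by_cases hxw : x + w = 0
  · have h1 : w = -x := by
      rw [add_comm] at hxw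
      exact eq_neg_of_add_eq_zero_left hxw
    rw [hxw, h1, i_neg hJ he, add_neg_cancel, H_zero_left, H_zero_left, H_zero_right hJ he]
  have hnw := neg_ne_zero.mpr hw
  have hne : x ≠ -w := by
    intro h
    apply hxw
    rw [h, neg_add_cancel]
  have h1 := hJ.sub x (-w) (J e y) hx hnw hne
  rw [sub_neg_eq_add, sub_neg_eq_add, hJ.negl w _ hw] at h1
  have hnegl : J (-w) x = J w x := hJ.negl w x hw
  rw [hnegl] at h1
  -- `J w x + w = J w (i z)` with `z = i x + i w`
  have hz : J w x + w = J w (J e (J e x + J e w)) := by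
    have h2 := hJ.add w e (J e x) (J e w) hw he
    rw [hJ.inv e x he, hJ.inv e w he, hJ.self w hw] at h2
    exact h2.symm
  have hz0 : J e x + J e w ≠ 0 := by
    intro h
    apply hxw
    have h3 : J e x = J e (-w) := by
      rw [i_neg hJ he]
      exact eq_neg_of_add_eq_zero_left h
    have h4 := congrArg (J e) h3
    rw [hJ.inv e _ he, hJ.inv e _ he] at h4
    rw [h4, neg_add_cancel]
  have hiz0 := J_ne_zero hJ he hz0
  rw [hz, hJ.comp w _ _ hw hiz0, hJ.inv w _ hw, hJ.comp e _ _ he hz0] at h1
  rw [H_of_ne hxw, H_of_ne hx, H_of_ne hz0, H_of_ne hw]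
  exact h1

/-- the polar form -/
noncomputable def Pl {A : Type*} [AddCommGroup A] (J : A → A → A) (e x y c : A) : A :=
  H J e (x + y) c - H J e x c - H J e y c

omit hJ he in
lemma Pl_comm (J : A → A → A) (e x y c : A) : Pl J e x y c = Pl J e y x c := by
  rw [Pl, Pl, add_comm x y]
  abel

/-- the exact inversion identity for the polar form -/
lemma Pl_inv {x w : A} (hx : x ≠ 0) (hw : w ≠ 0) (y : A) :
    Pl J e x w y = H J e x (Pl J e (J e x) (J e w) (H J e w y)) := by
  rw [Pl, Pl, H_sub hJ he, H_sub hJ he, H_right_inv hJ he hx, ← H_add_H hJ he hx hw,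
    H_left_inv hJ he hw]
  abel

end

section

variable {A : Type*} [AddCommGroup A] {J : A → A → A} (hJ : JSys J) {e : A} (he : e ≠ 0)
  {K : Type*} [Field K] [Module K A]
  (hK : ∀ (a x : A) (t : K), a ≠ 0 → t ≠ 0 → J a (t • x) = t⁻¹ • J a x)

include hJ he hK

lemma H_smul (x y : A) (t : K) : H J e x (t • y) = t • H J e x y := by
  by_cases hx : x = 0
  · rw [hx, H_zero_left, H_zero_left, smul_zero]
  by_cases ht : t = 0
  · rw [ht, zero_smul, zero_smul, H_zero_right hJ he]
  rw [H_of_ne hx, H_of_ne hx, hK e y t he ht, hK x _ _ hx (inv_ne_zero ht), inv_inv]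

omit he in
lemma J_smul_left {a : A} (ha : a ≠ 0) (x : A) {t : K} (ht : t ≠ 0) :
    J (t • a) x = (t * t) • J a x := by
  have hta : t • a ≠ 0 := smul_ne_zero ht ha
  by_cases hx : x = 0
  · rw [hx, hJ.zero _ hta, hJ.zero a ha, smul_zero]
  by_cases hxa : x = t • a
  · rw [hxa, hJ.self _ hta, hK a a t ha ht, hJ.self a ha, smul_smul]
    congr 1
    field_simp
  have hy : t⁻¹ • x ≠ 0 := smul_ne_zero (inv_ne_zero ht) hx
  have hay : a ≠ t⁻¹ • x := by
    intro h
    apply hxa
    rw [h, smul_smul, mul_inv_cancel₀ ht, one_smul]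
  have h1 := hJ.hua a (t • a) x ha hta hx (Ne.symm hxa)
  have h2 := hJ.hua a a (t⁻¹ • x) ha ha hy hay
  have h3 : t • a - x = t • (a - t⁻¹ • x) := by
    rw [smul_sub, smul_smul, mul_inv_cancel₀ ht, one_smul]
  rw [h3, hK a a t ha ht, hK a _ t ha ht, ← smul_sub, hK a _ _ ha (inv_ne_zero ht), inv_inv,
    ← smul_sub, ← h2, hK a x _ ha (inv_ne_zero ht), inv_inv, smul_smul] at h1
  exact h1

omit he in
lemma H_smul_left (x y : A) (t : K) : H J e (t • x) y = (t * t) • H J e x y := by
  by_cases hx : x = 0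
  · rw [hx, smul_zero, H_zero_left, smul_zero]
  by_cases ht : t = 0
  · rw [ht, zero_smul, mul_zero, zero_smul, H_zero_left]
  rw [H_of_ne hx, H_of_ne (smul_ne_zero ht hx), J_smul_left hJ hK hx _ ht]

lemma Pl_smul (x y c : A) (t : K) : Pl J e x y (t • c) = t • Pl J e x y c := by
  simp only [Pl, H_smul hJ he hK, smul_sub]

omit he in
lemma Pl_smul_smul (x y c : A) (t : K) :
    Pl J e (t • x) (t • y) c = (t * t) • Pl J e x y c := by
  simp only [Pl, ← smul_add, H_smul_left hJ hK, smul_sub]

end

/-- the functional equation -/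
lemma func_eq {K A : Type*} [Field K] [AddCommGroup A] [Module K A] (f g : K →+ A)
    (h : ∀ t : K, t ≠ 0 → g t = (t * t) • f t⁻¹) (s d : K) :
    f (s * s * d) = (2 * s * d) • f s + (s * s) • f d - (2 * (s * s * d)) • f 1 := by
  have hfg : ∀ t : K, t ≠ 0 → f t = (t * t) • g t⁻¹ := by
    intro t ht
    rw [h _ (inv_ne_zero ht), smul_smul, inv_inv]
    have : t * t * (t⁻¹ * t⁻¹) = 1 := by field_simp
    rw [this, one_smul]
  have key : ∀ s d : K, f (s * s * d) = (2 * s * d) • f s - (s * s) • g d := by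
    intro s d
    by_cases hs : s = 0
    · simp [hs]
    by_cases hd : d = 0
    · simp [hd]
    by_cases hsd : s * d = 1
    · have h1 : d = s⁻¹ := eq_inv_of_mul_eq_one_right hsd
      rw [h1, ← hfg s hs]
      have h2 : s * s * s⁻¹ = s := by field_simp
      have h3 : 2 * s * s⁻¹ = 1 + 1 := by
        field_simp
        norm_num
      rw [h2, h3, add_smul, one_smul]
      abel
    have hu : d⁻¹ - s ≠ 0 := by
      intro h0
      apply hsd
      have h1 : d⁻¹ = s := sub_eq_zero.mp h0
      rw [← h1, inv_mul_cancel₀ hd]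
    set u := d⁻¹ - s with hudef
    have h1sd : 1 - s * d ≠ 0 := by
      intro h0
      apply hsd
      rw [sub_eq_zero] at h0
      exact h0.symm
    have hw : s⁻¹ + u⁻¹ = (s - s * s * d)⁻¹ := by
      have hud : u = (1 - s * d) / d := by
        rw [hudef]
        field_simp
      have h5 : s - s * s * d = s * (1 - s * d) := by ring
      rw [hud, h5]
      field_simp
      ring
    have hw0 : s - s * s * d ≠ 0 := by
      have h5 : s - s * s * d = s * (1 - s * d) := by ring
      rw [h5]
      exact mul_ne_zero hs h1sd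
    have e1 := hfg _ hw0
    rw [← hw, map_add, h _ (inv_ne_zero hs), h _ (inv_ne_zero hu), inv_inv, inv_inv,
      map_sub] at e1
    have e2 : f u = (d⁻¹ * d⁻¹) • g d - f s := by
      rw [hudef, map_sub, hfg _ (inv_ne_zero hd), inv_inv]
    rw [e2, smul_add, smul_smul, smul_smul, smul_sub, smul_smul] at e1
    have c1 : (s - s * s * d) * (s - s * s * d) * (s⁻¹ * s⁻¹) = (1 - s * d) * (1 - s * d) := by
      field_simp
    have c2 : (s - s * s * d) * (s - s * s * d) * (u⁻¹ * u⁻¹) = (s * d) * (s * d) := by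
      have hud : u = (1 - s * d) / d := by
        rw [hudef]
        field_simp
      rw [hud]
      field_simp
    have c3 : (s * d) * (s * d) * (d⁻¹ * d⁻¹) = s * s := by field_simp
    rw [c1, c2, c3] at e1
    have e3 : f (s * s * d) = f s - (f s - f (s * s * d)) := by abel
    rw [e3, e1]
    module
  have h1 := key 1 d
  have h2 : g d = (2 * d) • f 1 - f d := by
    have h3 : f d = (2 * d) • f 1 - g d := by
      simpa using h1
    rw [h3]
    abel
  rw [key, h2]
  module

end Pool.Agent.HuaVal
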