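import Mathlib
import Pool.Agent.HuaVal.Quad

/-!
# Hua systems with quadratic Hua maps: the Jordan identities
-/

set_option autoImplicit false

namespace Pool.Agent.HuaVal

section

variable {A : Type*} [AddCommGroup A] {J : A → A → A} (hJ : JSys J)
  (h2 : ∀ a : A, a + a = 0 → a = 0) (h3 : ∀ a : A, a + a + a = 0 → a = 0)
  (hT : ∀ e, e ≠ 0 → ∀ x y z c, T3 J e x y z c = 0)

include hJ h2 hT

/-- the quadratic map of Hua maps with respect to the base `e` -/
theorem exists_U {e : A} (he : e ≠ 0) : ∃ U : QuadraticMap ℤ A (Module.End ℤ A),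
    ∀ x y, U x y = H J e x y := by
  obtain ⟨U, hU⟩ := exists_quad (M := Module.End ℤ A) (by
    intro f hf
    ext x
    apply h2
    have h := congrArg (fun g : Module.End ℤ A => g x) hf
    simpa using h) (fun x => (Hm hJ he x).toIntLinearMap) (by
    intro x
    ext y
    show H J e (-x) y = H J e x y
    exact H_neg hJ x y) (by
    intro x y z
    ext c
    have h := hT e he x y z c
    simpa [T3, Hm_apply] using h)
  refine ⟨U, fun x y => ?_⟩
  rw [hU]
  rfl

omit hT in
/-- the linearisation of the fundamental formula at the unit -/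
private lemma lin_one {e : A} (he : e ≠ 0) (h3 : ∀ a : A, a + a + a = 0 → a = 0)
    {U : QuadraticMap ℤ A (Module.End ℤ A)}
    (hU : ∀ x y, U x y = H J e x y) (a y : A) :
    QuadraticMap.polar (⇑U) y (QuadraticMap.polar (⇑U) e a y) =
      QuadraticMap.polar (⇑U) e a * U y + U y * QuadraticMap.polar (⇑U) e a := by
  have hQ : ∀ x y, U (U x y) = U x * U y * U x := by
    intro x y
    ext z
    simp only [Module.End.mul_apply, hU]
    exact H_H' hJ he x y z
  have h1 : U e = 1 := by
    ext z
    rw [hU, H_self hJ he]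
    rfl
  set V := QuadraticMap.polar (⇑U) e a with hV
  have hX : ∀ t : ℤ, U (e + t • a) = 1 + (t * t) • U a + t • V := by
    intro t
    rw [QuadraticMap.map_add (⇑U), QuadraticMap.map_smul, QuadraticMap.polar_smul_right, h1]
  have hadd : ∀ x y, U (x + y) = U x + U y + QuadraticMap.polar (⇑U) x y :=
    fun x y => QuadraticMap.map_add _ _ _
  set p := V y with hp
  set q := U a y with hq
  set D1 := QuadraticMap.polar (⇑U) y p - (V * U y + U y * V) with hD1
  set D2 := U p + QuadraticMap.polar (⇑U) y q - (U a * U y + U y * U a + V * U y * V) with hD2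
  set D3 := QuadraticMap.polar (⇑U) p q - (V * U y * U a + U a * U y * V) with hD3
  have hD4 : U q = U a * U y * U a := hQ a y
  have key : ∀ t : ℤ, t • D1 + (t * t) • D2 + (t * t * t) • D3 = 0 := by
    intro t
    have h := hQ (e + t • a) y
    have e1 : U (e + t • a) y = y + t • p + (t * t) • q := by
      rw [hX]
      simp only [LinearMap.add_apply, LinearMap.smul_apply, Module.End.one_apply, hp, hq]
      abel
    rw [e1, hX, hadd, hadd, QuadraticMap.map_smul, QuadraticMap.map_smul, hD4,
      QuadraticMap.polar_add_left, QuadraticMap.polar_smul_right, QuadraticMap.polar_smul_right,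
      QuadraticMap.polar_smul_left, QuadraticMap.polar_smul_right] at h
    have h5 : t • D1 + (t * t) • D2 + (t * t * t) • D3 =
      (U y + (t * t) • U p + t • QuadraticMap.polar (⇑U) y p +
        (t * t * (t * t)) • (U a * U y * U a) +
        ((t * t) • QuadraticMap.polar (⇑U) y q +
          t • (t * t) • QuadraticMap.polar (⇑U) p q)) -
      (1 + (t * t) • U a + t • V) * U y * (1 + (t * t) • U a + t • V) := by
      rw [hD1, hD2, hD3]
      simp only [add_mul, mul_add, one_mul, mul_one, smul_mul_assoc, mul_smul_comm]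
      module
    rw [h5, h, sub_self]
  have k1 := key 1
  have k2 := key (-1)
  have k3 := key 2
  have hE2 : ∀ f : Module.End ℤ A, f + f = 0 → f = 0 := by
    intro f hf
    ext x
    apply h2
    have h := congrArg (fun g : Module.End ℤ A => g x) hf
    simpa using h
  have hE3 : ∀ f : Module.End ℤ A, f + f + f = 0 → f = 0 := by
    intro f hf
    ext x
    apply h3
    have h := congrArg (fun g : Module.End ℤ A => g x) hf
    simpa using h
  have g2 : D2 = 0 := by
    apply hE2
    calc D2 + D2 = ((1 : ℤ) • D1 + ((1 : ℤ) * 1) • D2 + ((1 : ℤ) * 1 * 1) • D3) +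
          ((-1 : ℤ) • D1 + ((-1 : ℤ) * -1) • D2 + ((-1 : ℤ) * -1 * -1) • D3) := by module
      _ = 0 := by rw [k1, k2, add_zero]
  have g3 : D3 = 0 := by
    apply hE2
    apply hE3
    calc D3 + D3 + (D3 + D3) + (D3 + D3) =
        ((2 : ℤ) • D1 + ((2 : ℤ) * 2) • D2 + ((2 : ℤ) * 2 * 2) • D3) -
          (2 : ℤ) • ((1 : ℤ) • D1 + ((1 : ℤ) * 1) • D2 + ((1 : ℤ) * 1 * 1) • D3) -
          (2 : ℤ) • D2 := by module
      _ = 0 := by rw [k1, k3, g2, smul_zero, sub_zero, sub_zero]
  have g1 : D1 = 0 := by
    calc D1 = ((1 : ℤ) • D1 + ((1 : ℤ) * 1) • D2 + ((1 : ℤ) * 1 * 1) • D3) - D2 - D3 := by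
          module
      _ = 0 := by rw [k1, g2, g3, sub_zero, sub_zero]
  exact sub_eq_zero.mp g1

omit hT in
/-- the symmetry of the unit -/
private lemma symm_one {e : A} (he : e ≠ 0) (h3 : ∀ a : A, a + a + a = 0 → a = 0)
    {U : QuadraticMap ℤ A (Module.End ℤ A)}
    (hU : ∀ x y, U x y = H J e x y) (a y : A) :
    QuadraticMap.polar (⇑U) a y e = QuadraticMap.polar (⇑U) e y a := by
  -- `V_x e = 2 x`
  have hVe : ∀ x, QuadraticMap.polar (⇑U) e x e = x + x := by
    intro x
    have h := H_add_i hJ he x e he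
    rw [hJ.self e he] at h
    rw [QuadraticMap.polar, LinearMap.sub_apply, LinearMap.sub_apply, hU, hU, hU, H_self hJ he,
      add_comm e x, h]
    abel
  have L := fun y => lin_one hJ h2 he h3 hU a y
  have hpol : ∀ y z, QuadraticMap.polar (⇑U) y (QuadraticMap.polar (⇑U) e a z) +
      QuadraticMap.polar (⇑U) z (QuadraticMap.polar (⇑U) e a y) =
      QuadraticMap.polar (⇑U) e a * QuadraticMap.polar (⇑U) y z +
        QuadraticMap.polar (⇑U) y z * QuadraticMap.polar (⇑U) e a := by
    intro y z
    have l1 := L (y + z)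
    have l2 := L y
    have l3 := L z
    rw [map_add, QuadraticMap.polar_add_left, QuadraticMap.polar_add_right,
      QuadraticMap.polar_add_right, QuadraticMap.map_add (⇑U) y z, l2, l3] at l1
    have h5 : QuadraticMap.polar (⇑U) y (QuadraticMap.polar (⇑U) e a z) +
      QuadraticMap.polar (⇑U) z (QuadraticMap.polar (⇑U) e a y) =
      (QuadraticMap.polar (⇑U) e a * U y + U y * QuadraticMap.polar (⇑U) e a +
        QuadraticMap.polar (⇑U) y (QuadraticMap.polar (⇑U) e a z) +
      (QuadraticMap.polar (⇑U) z (QuadraticMap.polar (⇑U) e a y) +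
        (QuadraticMap.polar (⇑U) e a * U z + U z * QuadraticMap.polar (⇑U) e a))) -
      (QuadraticMap.polar (⇑U) e a * U y + U y * QuadraticMap.polar (⇑U) e a) -
      (QuadraticMap.polar (⇑U) e a * U z + U z * QuadraticMap.polar (⇑U) e a) := by abel
    rw [h5, l1]
    noncomm_ring
  have h := congrArg (fun f : Module.End ℤ A => f e) (hpol e y)
  simp only [LinearMap.add_apply, Module.End.mul_apply] at h
  rw [hVe, hVe, hVe, QuadraticMap.polar_add_right, LinearMap.add_apply, map_add, map_add,
    QuadraticMap.polar_comm (⇑U) y a] at h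
  have h5 := add_left_cancel h
  have h6 : QuadraticMap.polar (⇑U) a y e - QuadraticMap.polar (⇑U) e y a +
      (QuadraticMap.polar (⇑U) a y e - QuadraticMap.polar (⇑U) e y a) = 0 := by
    calc QuadraticMap.polar (⇑U) a y e - QuadraticMap.polar (⇑U) e y a +
        (QuadraticMap.polar (⇑U) a y e - QuadraticMap.polar (⇑U) e y a) =
        (QuadraticMap.polar (⇑U) a y e + QuadraticMap.polar (⇑U) a y e) -
        (QuadraticMap.polar (⇑U) e y a + QuadraticMap.polar (⇑U) e y a) := by abel
      _ = 0 := by rw [h5, sub_self]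
  exact sub_eq_zero.mp (h2 _ h6)

/-- the symmetry at an arbitrary element -/
private lemma symm_any {e : A} (he : e ≠ 0) (h3 : ∀ a : A, a + a + a = 0 → a = 0)
    {U : QuadraticMap ℤ A (Module.End ℤ A)}
    (hU : ∀ x y, U x y = H J e x y) {a : A} (ha : a ≠ 0) (x y : A) :
    QuadraticMap.polar (⇑U) x y a = QuadraticMap.polar (⇑U) (J e a) x (U a y) := by
  have hw := J_ne_zero hJ he ha
  obtain ⟨W, hW⟩ := exists_U hJ h2 hT hw
  have h := symm_one hJ h2 hw h3 hW x y
  rw [QuadraticMap.polar_comm (⇑W) x y] at h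
  have h' := symm_one hJ h2 hw h3 hW y x
  have hc : ∀ u v c, QuadraticMap.polar (⇑W) u v c =
      QuadraticMap.polar (⇑U) u v (J e (J (J e a) c)) := by
    intro u v c
    simp only [QuadraticMap.polar, LinearMap.sub_apply, hW, hU, H_change hJ he]
  rw [hc, hc, hJ.self _ hw, hJ.inv e a he] at h'
  have h5 : J e (J (J e a) y) = U a y := by
    rw [hJ.comp e a y he ha, hJ.inv e _ he, hU, H_of_ne ha]
  rw [h5, QuadraticMap.polar_comm (⇑U) y x] at h'
  exact h'

/-- the Jordan identities for the Hua maps -/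
theorem exists_jordan (h3 : ∀ a : A, a + a + a = 0 → a = 0) {e : A} (he : e ≠ 0) :
    ∃ U : QuadraticMap ℤ A (Module.End ℤ A), (∀ x y, U x y = H J e x y) ∧
      U e = 1 ∧
      (∀ a b c : A, U a ((QuadraticMap.polar (⇑U) b c) a) =
        (QuadraticMap.polar (⇑U) a (U a c)) b) ∧
      (∀ a b : A, U (U a b) = U a * U b * U a) ∧
      (∀ a : A, a ≠ 0 → Function.Bijective (U a)) := by
  obtain ⟨U, hU⟩ := exists_U hJ h2 hT he
  have hQ : ∀ x y, U (U x y) = U x * U y * U x := by
    intro x y
    ext z
    simp only [Module.End.mul_apply, hU]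
    exact H_H' hJ he x y z
  refine ⟨U, hU, ?_, ?_, hQ, ?_⟩
  · ext z
    rw [hU, H_self hJ he]
    rfl
  · intro a b c
    by_cases ha : a = 0
    · rw [ha]
      simp [QuadraticMap.polar]
    have h1 : U a (J e a) = a := by rw [hU, H_inv_self hJ he]
    have h4 : ∀ x y, QuadraticMap.polar (⇑U) (U a x) (U a y) =
        U a * QuadraticMap.polar (⇑U) x y * U a := by
      intro x y
      rw [QuadraticMap.polar, ← map_add, hQ, hQ, hQ, QuadraticMap.polar]
      noncomm_ring
    have h5 : QuadraticMap.polar (⇑U) a (U a c) b =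
        U a (QuadraticMap.polar (⇑U) (J e a) c (U a b)) := by
      calc QuadraticMap.polar (⇑U) a (U a c) b =
          QuadraticMap.polar (⇑U) (U a (J e a)) (U a c) b := by rw [h1]
        _ = U a (QuadraticMap.polar (⇑U) (J e a) c (U a b)) := by
          rw [h4]
          rfl
    rw [h5, ← symm_any hJ h2 hT he h3 hU ha c b, QuadraticMap.polar_comm (⇑U) b c]
  · intro a ha
    refine Function.bijective_iff_has_inverse.mpr ⟨fun y => U (J e a) y, ?_, ?_⟩
    · intro y
      show U (J e a) (U a y) = y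
      rw [hU, hU, H_left_inv hJ he ha]
    · intro y
      show U a (U (J e a) y) = y
      rw [hU, hU, H_right_inv hJ he ha]

omit hT h2 in
/-- divisibility -/
theorem exists_div {e : A} (he : e ≠ 0) {U : QuadraticMap ℤ A (Module.End ℤ A)}
    (hU : ∀ x y, U x y = H J e x y) (n : ℤ) (hn : ∀ a : A, n • a = 0 → a = 0) (b : A) :
    ∃ x, n • x = b := by
  by_cases hb : b = 0
  · exact ⟨0, by rw [hb, smul_zero]⟩
  set a := J e b with ha
  have ha0 : a ≠ 0 := J_ne_zero hJ he hb
  have h1 : U (n • a) (J e (n • a)) = n • a := by rw [hU, H_inv_self hJ he]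
  rw [QuadraticMap.map_smul, LinearMap.smul_apply] at h1
  have h4 : n • (n • U a (J e (n • a)) - a) = 0 := by
    rw [smul_sub, smul_smul, h1, sub_self]
  have h5 := sub_eq_zero.mp (hn _ h4)
  rw [← map_smul] at h5
  refine ⟨J e (n • a), ?_⟩
  have h6 := H_left_inv hJ he ha0 (n • J e (n • a))
  rw [← hU a, h5] at h6
  have h7 := H_left_inv hJ he ha0 (J e a)
  rw [H_inv_self hJ he] at h7
  rw [← h6, h7, ha, hJ.inv e b he]

end

end Pool.Agent.HuaVal
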