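import Mathlib

/-!
# Strictness of the Jordan identities when 6 is invertible
-/

set_option autoImplicit false

open scoped TensorProduct

namespace Pool.Agent.HuaVal

/-- polarisation -/
lemma polar_perm {n : ℕ} {A M : Type*} [AddCommGroup A] [AddCommGroup M]
    (F : MultilinearMap ℤ (fun _ : Fin n => A) M) (h : ∀ x, F (fun _ => x) = 0)
    (x : Fin n → A) : ∑ σ : Equiv.Perm (Fin n), F (fun i => x (σ i)) = 0 := by
  classical
  have h1 : ∀ T : Finset (Fin n), F (fun _ => ∑ i ∈ Tᶜ, x i) =
      ∑ r : Fin n → Fin n, if ∀ k, r k ∉ T then F (fun i => x (r i)) else 0 := by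
    intro T
    rw [F.map_sum_finset (fun _ => x) (fun _ => Tᶜ), ← Finset.sum_filter]
    apply Finset.sum_congr
    · ext r
      simp [Fintype.mem_piFinset]
    · intros
      rfl
  have h2 : ∑ T : Finset (Fin n), (-1 : ℤ) ^ T.card • F (fun _ => ∑ i ∈ Tᶜ, x i) = 0 := by
    apply Finset.sum_eq_zero
    intro T _
    rw [h, smul_zero]
  simp only [h1, Finset.smul_sum] at h2
  rw [Finset.sum_comm] at h2
  have h3 : ∀ r : Fin n → Fin n, ∑ T : Finset (Fin n), (-1 : ℤ) ^ T.card •
      (if ∀ k, r k ∉ T then F (fun i => x (r i)) else 0) =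
      if Function.Bijective r then F (fun i => x (r i)) else 0 := by
    intro r
    have h4 : ∀ T : Finset (Fin n), (-1 : ℤ) ^ T.card •
        (if ∀ k, r k ∉ T then F (fun i => x (r i)) else 0) =
        (if T ∈ (Finset.univ.image r)ᶜ.powerset then (-1 : ℤ) ^ T.card else 0) •
          F (fun i => x (r i)) := by
      intro T
      have h5 : (∀ k, r k ∉ T) ↔ T ∈ (Finset.univ.image r)ᶜ.powerset := by
        rw [Finset.mem_powerset]
        constructor
        · intro h i hi
          rw [Finset.mem_compl, Finset.mem_image]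
          rintro ⟨k, -, rfl⟩
          exact h k hi
        · intro h k hk
          have := h hk
          rw [Finset.mem_compl] at this
          exact this (Finset.mem_image_of_mem r (Finset.mem_univ k))
      by_cases h6 : ∀ k, r k ∉ T
      · rw [if_pos h6, if_pos (h5.mp h6)]
      · rw [if_neg h6, if_neg (fun h7 => h6 (h5.mpr h7)), smul_zero, zero_smul]
    rw [Finset.sum_congr rfl (fun T _ => h4 T), ← Finset.sum_smul, ← Finset.sum_filter,
      Finset.filter_univ_mem, Finset.sum_powerset_neg_one_pow_card]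
    have h7 : (Finset.univ.image r)ᶜ = ∅ ↔ Function.Bijective r := by
      rw [Finset.compl_eq_empty_iff]
      constructor
      · intro h
        have hs : Function.Surjective r := by
          intro k
          have hk := Finset.mem_univ k
          rw [← h, Finset.mem_image] at hk
          obtain ⟨i, -, hi⟩ := hk
          exact ⟨i, hi⟩
        exact ⟨Finite.injective_iff_surjective.mpr hs, hs⟩
      · intro h
        exact Finset.image_univ_of_surjective h.2
    by_cases h8 : Function.Bijective r
    · rw [if_pos h8, if_pos (h7.mpr h8), one_smul]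
    · rw [if_neg h8, if_neg (fun h9 => h8 (h7.mp h9)), zero_smul]
  rw [Finset.sum_congr rfl (fun r _ => h3 r), ← Finset.sum_filter] at h2
  rw [← h2]
  refine Finset.sum_bij (fun σ _ => ⇑σ) ?_ ?_ ?_ ?_
  · intro σ _
    rw [Finset.mem_filter]
    exact ⟨Finset.mem_univ _, σ.bijective⟩
  · intro σ _ τ _ h
    exact DFunLike.coe_injective h
  · intro r hr
    rw [Finset.mem_filter] at hr
    exact ⟨Equiv.ofBijective r hr.2, Finset.mem_univ _, rfl⟩
  · intro σ _
    rfl

/-- base change of an identity -/
lemma base_change {n : ℕ} {A : Type*} [AddCommGroup A] {Ω : Type*} [CommRing Ω]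
    (F' : MultilinearMap Ω (fun _ : Fin n => Ω ⊗[ℤ] A) (Ω ⊗[ℤ] A))
    (F : MultilinearMap ℤ (fun _ : Fin n => A) A)
    (hc : ∀ x : Fin n → A, F' (fun i => (1 : Ω) ⊗ₜ[ℤ] x i) = (1 : Ω) ⊗ₜ[ℤ] F x)
    (h : ∀ x, F (fun _ => x) = 0) (x : Ω ⊗[ℤ] A) :
    (Fintype.card (Equiv.Perm (Fin n))) • F' (fun _ => x) = 0 := by
  classical
  obtain ⟨S, rfl⟩ := TensorProduct.exists_finset x
  have h1 : F' (fun _ => ∑ i ∈ S, i.1 ⊗ₜ[ℤ] i.2) =
      ∑ r ∈ Fintype.piFinset (fun _ : Fin n => S), (∏ k, (r k).1) • ((1 : Ω) ⊗ₜ[ℤ]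
        F (fun k => (r k).2)) := by
    rw [F'.map_sum_finset (fun _ i => i.1 ⊗ₜ[ℤ] i.2) (fun _ => S)]
    apply Finset.sum_congr rfl
    intro r _
    rw [← hc, ← F'.map_smul_univ]
    congr 1
    funext i
    rw [TensorProduct.smul_tmul', smul_eq_mul, mul_one]
  have h2 : ∀ σ : Equiv.Perm (Fin n),
      ∑ r ∈ Fintype.piFinset (fun _ : Fin n => S), (∏ k, (r k).1) • ((1 : Ω) ⊗ₜ[ℤ]
        F (fun k => (r k).2)) =
      ∑ r ∈ Fintype.piFinset (fun _ : Fin n => S), (∏ k, (r k).1) • ((1 : Ω) ⊗ₜ[ℤ]
        F (fun k => (r (σ k)).2)) := by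
    intro σ
    symm
    refine Finset.sum_equiv (σ.symm.arrowCongr (Equiv.refl _)) ?_ ?_
    · intro r
      simp only [Fintype.mem_piFinset, Equiv.arrowCongr_apply, Equiv.coe_refl,
        Function.comp_apply, Equiv.symm_symm, id_eq]
      constructor
      · intro h k
        exact h _
      · intro h k
        have := h (σ.symm k)
        rwa [Equiv.apply_symm_apply] at this
    · intro r _
      simp only [Equiv.arrowCongr_apply, Equiv.coe_refl, Function.comp_apply,
        Equiv.symm_symm, id_eq]
      rw [Equiv.prod_comp σ (fun k => (r k).1)]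
  have h3 : ∑ σ : Equiv.Perm (Fin n), F' (fun _ => ∑ i ∈ S, i.1 ⊗ₜ[ℤ] i.2) = 0 := by
    rw [h1, Finset.sum_congr rfl (fun σ _ => h2 σ), Finset.sum_comm]
    apply Finset.sum_eq_zero
    intro r _
    rw [← Finset.smul_sum, ← TensorProduct.tmul_sum,
      polar_perm F h (fun k => (r k).2), TensorProduct.tmul_zero, smul_zero]
  rw [Finset.sum_const, Finset.card_univ] at h3
  exact h3

section

variable {R M : Type*} [CommRing R] [AddCommGroup M] [Module R M]

/-- the form expressing the fundamental formula -/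
def G4 (B : LinearMap.BilinMap R M (Module.End R M)) (b d c : M) :
    MultilinearMap R (fun _ : Fin 4 => M) M :=
  MultilinearMap.mk' (fun x => B (B (x 0) (x 1) b) (B (x 2) (x 3) d) c -
    B (x 0) (x 1) (B b d (B (x 2) (x 3) c)))
    (by
      intro m i x y
      fin_cases i <;> simp [Function.update] <;> abel)
    (by
      intro m i t x
      fin_cases i <;> simp [Function.update, smul_sub])

/-- the form expressing the second identity -/
def G3 (B : LinearMap.BilinMap R M (Module.End R M)) (y z : M) :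
    MultilinearMap R (fun _ : Fin 3 => M) M :=
  MultilinearMap.mk' (fun x => B (x 0) (x 1) (B y z (x 2)) - B (x 0) (B (x 1) (x 2) z) y)
    (by
      intro m i x y
      fin_cases i <;> simp [Function.update] <;> abel)
    (by
      intro m i t x
      fin_cases i <;> simp [Function.update, smul_sub])

lemma G4_apply (B : LinearMap.BilinMap R M (Module.End R M)) (b d c : M)
    (x : Fin 4 → M) : G4 B b d c x = B (B (x 0) (x 1) b) (B (x 2) (x 3) d) c -
    B (x 0) (x 1) (B b d (B (x 2) (x 3) c)) := rfl

lemma G3_apply (B : LinearMap.BilinMap R M (Module.End R M)) (y z : M)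
    (x : Fin 3 → M) : G3 B y z x =
    B (x 0) (x 1) (B y z (x 2)) - B (x 0) (B (x 1) (x 2) z) y := rfl

end

section

variable {R M : Type*} [CommRing R] [AddCommGroup M] [Module R M]
  (B : LinearMap.BilinMap R M (Module.End R M))

lemma G4_add1 (b b' d c : M) (x : Fin 4 → M) :
    G4 B (b + b') d c x = G4 B b d c x + G4 B b' d c x := by
  simp only [G4_apply, map_add, LinearMap.add_apply]
  abel

lemma G4_add2 (b d d' c : M) (x : Fin 4 → M) :
    G4 B b (d + d') c x = G4 B b d c x + G4 B b d' c x := by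
  simp only [G4_apply, map_add, LinearMap.add_apply]
  abel

lemma G4_add3 (b d c c' : M) (x : Fin 4 → M) :
    G4 B b d (c + c') x = G4 B b d c x + G4 B b d c' x := by
  simp only [G4_apply, map_add]
  abel

lemma G4_smul1 (t : R) (b d c : M) (x : Fin 4 → M) :
    G4 B (t • b) d c x = t • G4 B b d c x := by
  simp only [G4_apply, map_smul, LinearMap.smul_apply, smul_sub]

lemma G4_smul2 (t : R) (b d c : M) (x : Fin 4 → M) :
    G4 B b (t • d) c x = t • G4 B b d c x := by
  simp only [G4_apply, map_smul, LinearMap.smul_apply, smul_sub]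

lemma G4_smul3 (t : R) (b d c : M) (x : Fin 4 → M) :
    G4 B b d (t • c) x = t • G4 B b d c x := by
  simp only [G4_apply, map_smul, smul_sub]

lemma G3_add1 (y y' z : M) (x : Fin 3 → M) :
    G3 B (y + y') z x = G3 B y z x + G3 B y' z x := by
  simp only [G3_apply, map_add, LinearMap.add_apply]
  abel

lemma G3_add2 (y z z' : M) (x : Fin 3 → M) :
    G3 B y (z + z') x = G3 B y z x + G3 B y z' x := by
  simp only [G3_apply, map_add, LinearMap.add_apply]
  abel

lemma G3_smul1 (t : R) (y z : M) (x : Fin 3 → M) :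
    G3 B (t • y) z x = t • G3 B y z x := by
  simp only [G3_apply, map_smul, LinearMap.smul_apply, smul_sub]

lemma G3_smul2 (t : R) (y z : M) (x : Fin 3 → M) :
    G3 B y (t • z) x = t • G3 B y z x := by
  simp only [G3_apply, map_smul, LinearMap.smul_apply, smul_sub]

end

/-- strictness of the Jordan identities -/
theorem strict {A : Type*} [AddCommGroup A]
    (h2 : ∀ a : A, a + a = 0 → a = 0)
    (hd : ∀ a : A, ∃ b, (24 : ℤ) • b = a) (hn : ∀ a : A, (24 : ℤ) • a = 0 → a = 0)
    (U : QuadraticMap ℤ A (Module.End ℤ A))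
    (hU2 : ∀ a b c : A, U a ((QuadraticMap.polar (⇑U) b c) a) =
        (QuadraticMap.polar (⇑U) a (U a c)) b)
    (hU3 : ∀ a b : A, U (U a b) = U a * U b * U a)
    (Ω : Type*) [CommRing Ω]
    (U' : QuadraticMap Ω (Ω ⊗[ℤ] A) (Module.End Ω (Ω ⊗[ℤ] A)))
    (hU' : ∀ (a c : A) (ω : Ω), U' ((1 : Ω) ⊗ₜ[ℤ] a) (ω ⊗ₜ[ℤ] c) = ω ⊗ₜ[ℤ] (U a c)) :
    (∀ x y z : Ω ⊗[ℤ] A,
      U' x ((QuadraticMap.polar (⇑U') y z) x) = (QuadraticMap.polar (⇑U') x (U' x z)) y) ∧
    (∀ x y : Ω ⊗[ℤ] A, U' (U' x y) = U' x * U' y * U' x) := by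
  -- division by 24 on the scalar extension
  have hinv : ∀ x : Ω ⊗[ℤ] A, (24 : ℤ) • x = 0 → x = 0 := by
    choose g hg using hd
    let ψ : A →ₗ[ℤ] A :=
      { toFun := g
        map_add' := by
          intro a b
          have h : (24 : ℤ) • (g (a + b) - (g a + g b)) = 0 := by
            rw [smul_sub, smul_add, hg, hg, hg, sub_self]
          exact sub_eq_zero.mp (hn _ h)
        map_smul' := by
          intro m a
          have h : (24 : ℤ) • (g (m • a) - m • g a) = 0 := by
            rw [smul_sub, hg, smul_comm, hg, sub_self]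
          exact sub_eq_zero.mp (hn _ h) }
    intro x hx
    have h : LinearMap.lTensor Ω ψ ((24 : ℤ) • x) = x := by
      have h1 : (24 : ℤ) • LinearMap.lTensor Ω ψ = LinearMap.id := by
        apply TensorProduct.ext'
        intro ω a
        rw [LinearMap.smul_apply, LinearMap.lTensor_tmul, LinearMap.id_apply,
          ← TensorProduct.tmul_smul]
        congr 1
        exact hg a
      rw [map_smul, ← LinearMap.smul_apply, h1, LinearMap.id_apply]
    rw [← h, hx, map_zero]
  have hinv2 : ∀ x : Ω ⊗[ℤ] A, x + x = 0 → x = 0 := by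
    intro x hx
    apply hinv
    calc (24 : ℤ) • x = (12 : ℤ) • (x + x) := by module
      _ = 0 := by rw [hx, smul_zero]
  have hN2 : ∀ x : A, x + x = 0 → x = 0 := h2
  set B := U.polarBilin with hB
  set B' := U'.polarBilin with hB'
  have hBa : ∀ a b, B a b = QuadraticMap.polar (⇑U) a b := fun a b => rfl
  have hBa' : ∀ a b, B' a b = QuadraticMap.polar (⇑U') a b := fun a b => rfl
  have hself : ∀ a, B a a = U a + U a := by
    intro a
    rw [hBa, QuadraticMap.polar_self, two_smul]
  have hself' : ∀ a, B' a a = U' a + U' a := by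
    intro a
    rw [hBa', QuadraticMap.polar_self, two_smul]
  -- compatibility
  have hcomp : ∀ (a b c : A) (ω : Ω), B' ((1 : Ω) ⊗ₜ[ℤ] a) ((1 : Ω) ⊗ₜ[ℤ] b) (ω ⊗ₜ[ℤ] c) =
      ω ⊗ₜ[ℤ] (B a b c) := by
    intro a b c ω
    rw [hBa', hBa, QuadraticMap.polar, QuadraticMap.polar, ← TensorProduct.tmul_add,
      LinearMap.sub_apply, LinearMap.sub_apply, LinearMap.sub_apply, LinearMap.sub_apply,
      hU', hU', hU', TensorProduct.tmul_sub, TensorProduct.tmul_sub]
  -- the identity of degree 4 over `ℤ`
  have z4 : ∀ b d c : A, ∀ x, G4 B b d c (fun _ => x) = 0 := by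
    have diag : ∀ b c x, B (B x x b) (B x x b) c - B x x (B b b (B x x c)) = 0 := by
      intro b c x
      have h := congrArg (fun f : Module.End ℤ A => f c) (hU3 x b)
      simp only [Module.End.mul_apply] at h
      simp only [hself, LinearMap.add_apply, map_add]
      rw [h]
      abel
    intro b d c x
    rw [G4_apply]
    apply h2
    have e1 := diag (b + d) c x
    have e2 := diag b c x
    have e3 := diag d c x
    have sy : B (B x x d) (B x x b) c = B (B x x b) (B x x d) c := by
      rw [hBa (B x x d), QuadraticMap.polar_comm]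
      rfl
    have sy2 : B d b = B b d := by
      rw [hBa, QuadraticMap.polar_comm]
      rfl
    simp only [map_add, LinearMap.add_apply] at e1
    rw [sy, sy2] at e1
    calc B (B x x b) (B x x d) c - B x x (B b d (B x x c)) +
        (B (B x x b) (B x x d) c - B x x (B b d (B x x c))) =
        (B (B x x b) (B x x b) c + B (B x x b) (B x x d) c +
          (B (B x x b) (B x x d) c + B (B x x d) (B x x d) c) -
        (B x x (B b b (B x x c)) + B x x (B b d (B x x c)) +
          (B x x (B b d (B x x c)) + B x x (B d d (B x x c))))) -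
        (B (B x x b) (B x x b) c - B x x (B b b (B x x c))) -
        (B (B x x d) (B x x d) c - B x x (B d d (B x x c))) := by abel
      _ = 0 := by
        rw [e2, e3, sub_zero, sub_zero]
        rw [← e1]
  have z3 : ∀ y z : A, ∀ x, G3 B y z (fun _ => x) = 0 := by
    intro y z x
    rw [G3_apply]
    have h := hU2 x y z
    rw [hself, LinearMap.add_apply, LinearMap.add_apply, map_add, LinearMap.add_apply, hBa y z,
      h, hBa]
    abel
  -- base change
  have t1 : ∀ (ω : Ω) (a : A), ω ⊗ₜ[ℤ] a = ω • ((1 : Ω) ⊗ₜ[ℤ] a) := by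
    intro ω a
    rw [TensorProduct.smul_tmul', smul_eq_mul, mul_one]
  have c4 : ∀ b d c x : Ω ⊗[ℤ] A, G4 B' b d c (fun _ => x) = 0 := by
    intro b d c x
    induction b using TensorProduct.induction_on with
    | zero => simp [G4_apply]
    | add b b' ih ih' => rw [G4_add1, ih, ih', add_zero]
    | tmul ω b =>
      rw [t1, G4_smul1]
      induction d using TensorProduct.induction_on with
      | zero => simp [G4_apply]
      | add b b' ih ih' => rw [G4_add2, smul_add, ih, ih', add_zero]
      | tmul ω' d =>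
        rw [t1 ω' d, G4_smul2]
        induction c using TensorProduct.induction_on with
        | zero => simp [G4_apply]
        | add b b' ih ih' => rw [G4_add3, smul_add, smul_add, ih, ih', add_zero]
        | tmul ω'' c =>
          rw [t1 ω'' c, G4_smul3]
          have h := base_change (G4 B' ((1 : Ω) ⊗ₜ[ℤ] b) ((1 : Ω) ⊗ₜ[ℤ] d) ((1 : Ω) ⊗ₜ[ℤ] c))
            (G4 B b d c) (by
              intro x
              simp only [G4_apply, hcomp, TensorProduct.tmul_sub]) (z4 b d c) x
          have h5 : G4 B' ((1 : Ω) ⊗ₜ[ℤ] b) ((1 : Ω) ⊗ₜ[ℤ] d) ((1 : Ω) ⊗ₜ[ℤ] c)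
              (fun _ => x) = 0 := by
            apply hinv
            rw [Fintype.card_perm, Fintype.card_fin] at h
            rw [← h, show (24 : ℤ) = ((Nat.factorial 4 : ℕ) : ℤ) from rfl, natCast_zsmul]
          rw [h5, smul_zero, smul_zero, smul_zero]
  have c3 : ∀ y z x : Ω ⊗[ℤ] A, G3 B' y z (fun _ => x) = 0 := by
    intro y z x
    induction y using TensorProduct.induction_on with
    | zero => simp [G3_apply]
    | add b b' ih ih' => rw [G3_add1, ih, ih', add_zero]
    | tmul ω y =>
      rw [t1, G3_smul1]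
      induction z using TensorProduct.induction_on with
      | zero => simp [G3_apply]
      | add b b' ih ih' => rw [G3_add2, smul_add, ih, ih', add_zero]
      | tmul ω' z =>
        rw [t1 ω' z, G3_smul2]
        have h := base_change (G3 B' ((1 : Ω) ⊗ₜ[ℤ] y) ((1 : Ω) ⊗ₜ[ℤ] z)) (G3 B y z) (by
          intro x
          simp only [G3_apply, hcomp, TensorProduct.tmul_sub]) (z3 y z) x
        have h5 : G3 B' ((1 : Ω) ⊗ₜ[ℤ] y) ((1 : Ω) ⊗ₜ[ℤ] z) (fun _ => x) = 0 := by
          apply hinv
          rw [Fintype.card_perm, Fintype.card_fin] at h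
          rw [show (24 : ℤ) = 4 * ((Nat.factorial 3 : ℕ) : ℤ) from rfl, mul_smul,
            natCast_zsmul, h, smul_zero]
        rw [h5, smul_zero, smul_zero]
  constructor
  · intro x y z
    have h := c3 y z x
    rw [G3_apply, hself', LinearMap.add_apply, LinearMap.add_apply, map_add,
      LinearMap.add_apply] at h
    have h5 : (U' x (B' y z x) - B' x (U' x z) y) + (U' x (B' y z x) - B' x (U' x z) y) = 0 := by
      rw [← h]
      abel
    exact sub_eq_zero.mp (hinv2 _ h5)
  · intro x y
    apply LinearMap.ext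
    intro c
    show U' (U' x y) c = U' x (U' y (U' x c))
    have h := c4 y y c x
    rw [G4_apply, hself' x, hself' y] at h
    simp only [LinearMap.add_apply, map_add] at h
    rw [hself' (U' x y)] at h
    have h5 : (8 : ℤ) • (U' (U' x y) c - U' x (U' y (U' x c))) = 0 := by
      rw [← h]
      simp only [LinearMap.add_apply]
      module
    apply sub_eq_zero.mp
    apply hinv
    calc (24 : ℤ) • (U' (U' x y) c - U' x (U' y (U' x c))) =
        (3 : ℤ) • ((8 : ℤ) • (U' (U' x y) c - U' x (U' y (U' x c)))) := by module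
      _ = 0 := by rw [h5, smul_zero]

end Pool.Agent.HuaVal
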