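import Mathlib
import Pool.Agent.HuaVal.Basic
import Pool.Agent.HuaVal.Jordan
import Pool.Agent.HuaVal.Strict

/-!
# Hua systems with a nontrivial quasi-norm come from quadratic Jordan division rings
-/

set_option autoImplicit false

open scoped TensorProduct

namespace Pool.Agent.HuaVal

universe u v w

/-- from the vanishing of the third differences to the quadratic Jordan division ring -/
theorem jordan_of_T3 {A : Type u} [AddCommGroup A]
    (h2 : ∀ a : A, a + a = 0 → a = 0) (h3 : ∀ a : A, a + a + a = 0 → a = 0)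
    (j : A → Option A → Option A) {J : A → A → A} (hJ : JSys J)
    (hjJ : ∀ a b : A, a ≠ 0 → b ≠ 0 → j a (some b) = some (J a b))
    (hT : ∀ e, e ≠ 0 → ∀ x y z c, T3 J e x y z c = 0) {e : A} (he : e ≠ 0) :
    ∃ (one : A) (U : QuadraticMap ℤ A (Module.End ℤ A)),
     JordanIdentities U one ∧
     (∀ (Ω : Type v) [CommRing Ω] (U' : QuadraticMap Ω (Ω ⊗[ℤ] A) (Module.End Ω (Ω ⊗[ℤ] A))),
        (∀ (a c : A) (ω : Ω), U' ((1 : Ω) ⊗ₜ[ℤ] a) (ω ⊗ₜ[ℤ] c) = ω ⊗ₜ[ℤ] (U a c)) →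
        JordanIdentities U' ((1 : Ω) ⊗ₜ[ℤ] one)) ∧
     (∀ a : A, a ≠ 0 → Function.Bijective (U a)) ∧
     (∀ a b c : A, a ≠ 0 → b ≠ 0 → U b c = b → j a (some b) = some (U a c)) := by
  obtain ⟨U, hU, hU1, hU2, hU3, hbij⟩ := exists_jordan hJ h2 hT h3 he
  have hn : ∀ a : A, (24 : ℤ) • a = 0 → a = 0 := by
    intro a ha
    apply h2
    apply h2
    apply h2
    apply h3
    rw [← ha]
    module
  have hd := exists_div hJ he hU 24 hn
  refine ⟨e, U, ⟨hU1, hU2, hU3⟩, ?_, hbij, ?_⟩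
  · intro Ω _ U' hU'
    obtain ⟨s2, s3⟩ := strict h2 hd hn U hU2 hU3 Ω U' hU'
    refine ⟨?_, s2, s3⟩
    ext x
    simp only [TensorProduct.AlgebraTensorModule.curry_apply, TensorProduct.curry_apply,
      LinearMap.coe_restrictScalars, Module.End.one_apply]
    rw [hU', hU1]
    rfl
  · intro a b c ha hb hc
    rw [hjJ a b ha hb]
    congr 1
    have h1 := H_inv_self hJ he b
    rw [← hU] at h1
    have h2' : c = J e b := (hbij b hb).1 (hc.trans h1.symm)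
    rw [h2', hU, H_of_ne ha, hJ.inv e b he]

/-- **valued Hua systems** -/
theorem valued {A : Type u} [AddCommGroup A]
    (h2 : ∀ a : A, a + a = 0 → a = 0) (h3 : ∀ a : A, a + a + a = 0 → a = 0)
    (j : A → Option A → Option A) (hj : IsHua j)
    {Γ : Type w} [LinearOrderedCommGroupWithZero Γ] (N : A → Γ) (K : Γ)
    (hN0 : ∀ a, N a = 0 ↔ a = 0)
    (hNadd : ∀ a b, N (a + b) ≤ K * max (N a) (N b))
    (hNj : ∀ a b c, a ≠ 0 → b ≠ 0 → j a (some b) = some c → N c * N b = N a ^ 2)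
    (hNl : ∃ a b, b ≠ 0 ∧ K * N b < N a) :
    ∃ (one : A) (U : QuadraticMap ℤ A (Module.End ℤ A)),
     JordanIdentities U one ∧
     (∀ (Ω : Type v) [CommRing Ω] (U' : QuadraticMap Ω (Ω ⊗[ℤ] A) (Module.End Ω (Ω ⊗[ℤ] A))),
        (∀ (a c : A) (ω : Ω), U' ((1 : Ω) ⊗ₜ[ℤ] a) (ω ⊗ₜ[ℤ] c) = ω ⊗ₜ[ℤ] (U a c)) →
        JordanIdentities U' ((1 : Ω) ⊗ₜ[ℤ] one)) ∧
     (∀ a : A, a ≠ 0 → Function.Bijective (U a)) ∧
     (∀ a b c : A, a ≠ 0 → b ≠ 0 → U b c = b → j a (some b) = some (U a c)) := by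
  obtain ⟨J, hJ, hjJ⟩ := exists_J hj
  obtain ⟨a, b, hb, hab⟩ := hNl
  have hN : NormH J N K := by
    refine ⟨hN0, hNadd, ?_, ⟨a, b, hb, hab⟩⟩
    intro a b ha hb
    exact hNj a b _ ha hb (hjJ a b ha hb)
  obtain ⟨κ, hκ⟩ := exists_normAt hJ hN
  have hT : ∀ e, e ≠ 0 → ∀ x y z c, T3 J e x y z c = 0 := by
    intro e he x y z c
    obtain ⟨hNe, f, hf⟩ := hκ e he
    have hNe0 : N e ≠ 0 := fun h => he ((hN0 e).mp h)
    refine T3_eq_zero (ν := fun x => N x / N e) (κ := κ) (f := f) hJ he hNe ?_ ?_ h2 x y z c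
    · intro z hz
      have h := (hκ z hz).1
      have h5 : (fun x => (N x / N e) / (N z / N e)) = (fun x => N x / N z) := by
        funext x
        rw [div_div_div_cancel_right₀ hNe0]
      show NormAt J z (fun x => (N x / N e) / (N z / N e)) κ
      rw [h5]
      exact h
    · intro x
      show N (f x) / N e = κ * (N x / N e)
      rw [hf, mul_div_assoc]
  exact jordan_of_T3 h2 h3 j hJ hjJ hT hb

end Pool.Agent.HuaVal
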