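import Mathlib
import Pool.Agent.HuaVal.Lin

/-!
# Hua systems with biadditive polar form: the deviation from the Jordan identities
-/

set_option autoImplicit false

namespace Pool.Agent.HuaVal

section

variable {A : Type*} [AddCommGroup A] {J : A → A → A} (hJ : JSys J) {e : A} (he : e ≠ 0)
  (h2 : ∀ a : A, a + a = 0 → a = 0) (hT : ∀ x y z c, T3 J e x y z c = 0)

section

include hT

lemma P_addl (x x' y c : A) : Pl J e (x + x') y c = Pl J e x y c + Pl J e x' y c := by
  have h := hT x x' y c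
  have e1 : Pl J e (x + x') y c - (Pl J e x y c + Pl J e x' y c) = T3 J e x x' y c := by
    rw [T3, Pl, Pl, Pl]
    abel
  rw [h] at e1
  exact sub_eq_zero.mp e1

lemma P_addr (x y y' c : A) : Pl J e x (y + y') c = Pl J e x y c + Pl J e x y' c := by
  rw [Pl_comm, P_addl hT, Pl_comm J e y, Pl_comm J e y']

end

lemma P_zerol (y c : A) : Pl J e 0 y c = 0 := by
  rw [Pl, zero_add, H_zero_left]
  abel

lemma P_zeror (x c : A) : Pl J e x 0 c = 0 := by
  rw [Pl_comm, P_zerol]

include hJ he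

lemma P_add (x y c c' : A) : Pl J e x y (c + c') = Pl J e x y c + Pl J e x y c' := by
  rw [Pl, Pl, Pl, H_add hJ he, H_add hJ he, H_add hJ he]
  abel

lemma P_zero (x y : A) : Pl J e x y 0 = 0 := by
  rw [Pl, H_zero_right hJ he, H_zero_right hJ he, H_zero_right hJ he]
  abel

lemma P_neg (x y c : A) : Pl J e x y (-c) = -Pl J e x y c := by
  rw [Pl, Pl, H_negr hJ he, H_negr hJ he, H_negr hJ he]
  abel

lemma P_sub (x y c c' : A) : Pl J e x y (c - c') = Pl J e x y c - Pl J e x y c' := by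
  rw [sub_eq_add_neg, P_add hJ he, P_neg hJ he, ← sub_eq_add_neg]

/-- covariance -/
lemma P_H (a x y c : A) :
    Pl J e (H J e a x) (H J e a y) c = H J e a (Pl J e x y (H J e a c)) := by
  rw [Pl, Pl, ← H_add hJ he, H_H' hJ he, H_H' hJ he, H_H' hJ he, H_sub hJ he, H_sub hJ he]

/-- evaluation -/
lemma P_i (x : A) {w : A} (hw : w ≠ 0) : Pl J e x w (J e w) = x + x := by
  have h := H_add_i hJ he x (J e w) (J_ne_zero hJ he hw)
  rw [hJ.inv e w he] at h
  rw [Pl, h, H_inv_self hJ he]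
  abel

lemma P_e (x : A) : Pl J e x e e = x + x := by
  have h := P_i hJ he x he
  rwa [hJ.self e he] at h

/-- `H x` commutes with `V x` -/
lemma V_comm (x y : A) : Pl J e x e (H J e x y) = H J e x (Pl J e x e y) := by
  by_cases hx : x = 0
  · rw [hx, P_zerol, H_zero_left]
  have h1 : H J e (x + e) (H J e x y) = H J e x (H J e (x + e) y) := by
    rw [H_add_e hJ he hx (H J e x y), H_add_e' hJ he hx y]
  rw [Pl, Pl, h1, H_self hJ he, H_self hJ he, H_sub hJ he, H_sub hJ he]

/-- `V x = V (i x) ∘ H x` -/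
lemma V_inv {x : A} (hx : x ≠ 0) (y : A) :
    Pl J e x e y = Pl J e (J e x) e (H J e x y) := by
  have h1 := H_add_e' hJ he hx y
  have h3 := H_left_inv hJ he hx y
  rw [Pl, Pl, h1, h3, H_self hJ he, H_self hJ he]
  abel

/-- `V x = H x ∘ V (i x)` -/
lemma V_inv' {x : A} (hx : x ≠ 0) (y : A) :
    Pl J e x e y = H J e x (Pl J e (J e x) e y) := by
  have h1 := V_comm hJ he x (H J e (J e x) y)
  rw [H_right_inv hJ he hx] at h1
  rw [h1]
  congr 1
  rw [V_inv hJ he hx (H J e (J e x) y), H_right_inv hJ he hx]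

lemma V_i {x : A} (hx : x ≠ 0) : Pl J e x e (J e x) = e + e := by
  rw [Pl_comm, P_i hJ he e hx]

include hT

omit hJ he in
lemma P_negl (x y c : A) : Pl J e (-x) y c = -Pl J e x y c := by
  have h := P_addl hT x (-x) y c
  rw [add_neg_cancel, P_zerol] at h
  exact (neg_eq_of_add_eq_zero_right h.symm).symm

omit hJ he in
lemma P_negr (x y c : A) : Pl J e x (-y) c = -Pl J e x y c := by
  rw [Pl_comm, P_negl hT, Pl_comm]

omit hJ he in
lemma P_subl (x x' y c : A) : Pl J e (x - x') y c = Pl J e x y c - Pl J e x' y c := by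
  rw [sub_eq_add_neg, P_addl hT, P_negl hT, ← sub_eq_add_neg]

omit he in
lemma P_self (x c : A) : Pl J e x x c = H J e x c + H J e x c := by
  have h := P_negr hT x x c
  rw [Pl, add_neg_cancel, H_zero_left, H_neg hJ] at h
  have h3 : Pl J e x x c = -(-Pl J e x x c) := (neg_neg _).symm
  rw [h3, ← h]
  abel

include h2

/-- the linearised commutation relation -/
lemma comm_lin (x v w : A) :
    H J e x (Pl J e v e w) + Pl J e x v (Pl J e x e w) =
      Pl J e v e (H J e x w) + Pl J e x e (Pl J e x v w) := by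
  have hH : ∀ a b c, H J e (a + b) c = H J e a c + H J e b c + Pl J e a b c := by
    intro a b c
    rw [Pl]
    abel
  have K : ∀ v, (H J e x (Pl J e v e w) + Pl J e x v (Pl J e x e w) -
      (Pl J e v e (H J e x w) + Pl J e x e (Pl J e x v w))) +
      (H J e v (Pl J e x e w) + Pl J e x v (Pl J e v e w) -
      (Pl J e x e (H J e v w) + Pl J e v e (Pl J e x v w))) = 0 := by
    intro v
    have h := V_comm hJ he (x + v) w
    have hx := V_comm hJ he x w
    have hv := V_comm hJ he v w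
    rw [hH, hH, P_addl hT, P_addl hT, P_add hJ he, P_add hJ he, P_add hJ he, P_add hJ he,
      H_add hJ he, H_add hJ he, P_add hJ he, hx, hv] at h
    have h' := sub_eq_zero.mpr h
    rw [← neg_eq_zero, ← h']
    abel
  have k1 := K v
  have k2 := K (-v)
  simp only [P_negl hT, P_negr hT, H_neg hJ, H_negr hJ he, P_neg hJ he,
    neg_neg] at k2
  apply sub_eq_zero.mp
  apply h2
  have k3 := congrArg₂ (fun a b => a - b) k1 k2
  simp only [sub_zero] at k3
  rw [← k3]
  abel

/-- the deviation -/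
noncomputable def Dv {A : Type*} [AddCommGroup A] (J : A → A → A) (e x v : A) : A :=
  Pl J e x v e - Pl J e x e v

omit h2 hT in
lemma V_self (v : A) : Pl J e v e v = H J e v e + H J e v e := by
  by_cases hv : v = 0
  · rw [hv, P_zerol, H_zero_left, add_zero]
  have h1 := H_add_e hJ he hv v
  have h3 := H_add_i hJ he e v hv
  rw [add_comm, H_self hJ he] at h3
  rw [Pl, h1, h3, H_add hJ he, H_add hJ he, H_add hJ he, H_inv_self hJ he, H_self hJ he]
  abel

omit hJ he h2 in
lemma Dv_addl (x x' v : A) : Dv J e (x + x') v = Dv J e x v + Dv J e x' v := by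
  rw [Dv, Dv, Dv, P_addl hT, P_addl hT]
  abel

omit h2 in
lemma Dv_add (x v v' : A) : Dv J e x (v + v') = Dv J e x v + Dv J e x v' := by
  rw [Dv, Dv, Dv, P_addr hT, P_add hJ he]
  abel

omit h2 in
lemma Dv_self (v : A) : Dv J e v v = 0 := by
  rw [Dv, P_self hJ hT, V_self hJ he, sub_self]

omit h2 in
lemma Dv_alt (x v : A) : Dv J e x v = -Dv J e v x := by
  have h := Dv_self hJ he hT (x + v)
  rw [Dv_addl hT, Dv_add hJ he hT, Dv_add hJ he hT, Dv_self hJ he hT,
    Dv_self hJ he hT, zero_add, add_zero] at h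
  exact eq_neg_of_add_eq_zero_left h

omit h2 in
lemma Dv_neg (x v : A) : Dv J e x (-v) = -Dv J e x v := by
  rw [Dv, Dv, P_negr hT, P_neg hJ he]
  abel

omit h2 in
lemma Dv_zero (x : A) : Dv J e x 0 = 0 := by
  have h := Dv_add hJ he hT x 0 0
  rw [add_zero] at h
  exact left_eq_add.mp h

omit h2 in
lemma Dv_sub (x v v' : A) : Dv J e x (v - v') = Dv J e x v - Dv J e x v' := by
  rw [sub_eq_add_neg, Dv_add hJ he hT, Dv_neg hJ he hT, ← sub_eq_add_neg]

lemma Dv_two {x : A} (hx : x ≠ 0) (v : A) : Dv J e x v + Dv J e x v =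
    Pl J e v e x - H J e x (Pl J e v e (J e x)) := by
  have h := comm_lin hJ he h2 hT x v (J e x)
  rw [V_i hJ he hx, H_inv_self hJ he, Pl_comm J e x v (J e x), P_i hJ he v hx,
    P_add hJ he, P_add hJ he] at h
  have h3 := sub_eq_zero.mpr h
  apply sub_eq_zero.mp
  rw [← h3, Dv]
  abel

lemma Dv_i {x : A} (hx : x ≠ 0) (v : A) : Dv J e (J e x) v = -H J e (J e x) (Dv J e x v) := by
  have h1 := Dv_two hJ he h2 hT hx v
  have h3 := Dv_two hJ he h2 hT (J_ne_zero hJ he hx) v
  rw [hJ.inv e x he] at h3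
  apply sub_eq_zero.mp
  apply h2
  have h4 : (Dv J e (J e x) v - -H J e (J e x) (Dv J e x v)) +
      (Dv J e (J e x) v - -H J e (J e x) (Dv J e x v)) =
      (Dv J e (J e x) v + Dv J e (J e x) v) + H J e (J e x) (Dv J e x v + Dv J e x v) := by
    rw [H_add hJ he]
    abel
  rw [h4, h1, h3, H_sub hJ he, H_left_inv hJ he hx]
  abel

lemma Dv_ir {w : A} (hw : w ≠ 0) (x : A) :
    Dv J e x (J e w) = -H J e (J e w) (Dv J e x w) := by
  rw [Dv_alt hJ he hT, Dv_i hJ he h2 hT hw, Dv_alt hJ he hT w x, H_negr hJ he, neg_neg]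

/-- `D(x, -)` is compatible with `H x` -/
lemma Dv_H (x c : A) : Dv J e x (H J e x c) = H J e x (Dv J e x c) := by
  by_cases hx : x = 0
  · rw [hx, H_zero_left, H_zero_left, Dv_zero hJ he hT]
  by_cases hc : c = 0
  · rw [hc, H_zero_right hJ he, Dv_zero hJ he hT, H_zero_right hJ he]
  obtain ⟨w, hw0, rfl⟩ : ∃ w, w ≠ 0 ∧ c = J e w :=
    ⟨J e c, J_ne_zero hJ he hc, (hJ.inv e c he).symm⟩
  have hdx := Dv_self hJ he hT x
  by_cases hxw : x + w = 0
  · have h1 : w = -x := by
      rw [add_comm] at hxw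
      exact eq_neg_of_add_eq_zero_left hxw
    rw [h1, i_neg hJ he, H_negr hJ he, H_inv_self hJ he, Dv_neg hJ he hT, hdx,
      Dv_neg hJ he hT, Dv_ir hJ he h2 hT hx, hdx, H_zero_right hJ he]
    simp only [neg_zero]
    rw [H_zero_right hJ he]
  have h1 := i_sub_i hJ he hx hw0 hxw
  have hu0 : J e x - J e (x + w) ≠ 0 := by
    intro h
    have h3 := congrArg (J e) (sub_eq_zero.mp h)
    rw [hJ.inv e _ he, hJ.inv e _ he] at h3
    exact hw0 (left_eq_add.mp h3)
  have h3 : H J e x (J e w) = J e (J e x - J e (x + w)) - x := by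
    rw [h1, hJ.inv e _ he]
    abel
  have h4 : Dv J e x (J e x - J e (x + w)) = H J e (J e (x + w)) (Dv J e x w) := by
    rw [Dv_sub hJ he hT, Dv_ir hJ he h2 hT hx, hdx, H_zero_right hJ he,
      Dv_ir hJ he h2 hT hxw, Dv_add hJ he hT, hdx, zero_add]
    abel
  have h5 : H J e x (J e w) = J e (J e x - J e (x + w)) - x := h3
  rw [h5, Dv_sub hJ he hT, hdx, sub_zero, Dv_ir hJ he h2 hT hu0, h4,
    Dv_ir hJ he h2 hT hw0, H_negr hJ he]
  congr 1
  -- the maps
  have h6 : J e (J e x - J e (x + w)) = H J e x (J e x + J e w) := by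
    rw [h1, hJ.inv e _ he, H_add hJ he, H_inv_self hJ he]
  rw [h6, H_H' hJ he]
  congr 1
  have h7 := H_add_H hJ he hw0 hx
  have h8 : ∀ y, H J e (J e x + J e w) (H J e x y) = H J e (J e w) (H J e (x + w) y) := by
    intro y
    rw [add_comm x w, h7, H_left_inv hJ he hw0, add_comm]
  rw [h8, H_right_inv hJ he hxw]

lemma Dv_Hi {x : A} (hx : x ≠ 0) (c : A) :
    Dv J e x (H J e (J e x) c) = H J e (J e x) (Dv J e x c) := by
  have h := Dv_H hJ he h2 hT x (H J e (J e x) c)
  rw [H_right_inv hJ he hx] at h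
  rw [h, H_left_inv hJ he hx]

end

end Pool.Agent.HuaVal
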