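import Mathlib
import Pool.Agent.HuaVal.Strict

/-!
# Strictness of the Jordan identities over an infinite field of scalars
-/

set_option autoImplicit false

open scoped TensorProduct

namespace Pool.Agent.HuaVal

/-- the homogeneous components of a vanishing form vanish -/
lemma coeff_zero {K A : Type*} [Field K] [Infinite K] [AddCommGroup A] [Module K A] {n : ℕ}
    {σ : Type*} (S : Finset σ) (a : σ → A) (F : MultilinearMap K (fun _ : Fin n => A) A)
    (h : ∀ x, F (fun _ => x) = 0) (m : σ →₀ ℕ) [DecidableEq (σ →₀ ℕ)] :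
    ∑ r ∈ (Fintype.piFinset (fun _ : Fin n => S)).filter
      (fun r => (∑ k, Finsupp.single (r k) 1) = m), F (fun k => a (r k)) = 0 := by
  classical
  apply (Module.forall_dual_apply_eq_zero_iff K _).mp
  intro φ
  set p : MvPolynomial σ K := ∑ r ∈ Fintype.piFinset (fun _ : Fin n => S),
    MvPolynomial.C (φ (F (fun k => a (r k)))) * ∏ k, MvPolynomial.X (r k) with hp
  have hp0 : p = 0 := by
    apply MvPolynomial.funext
    intro t
    have h1 : MvPolynomial.eval t p = φ (F (fun _ => ∑ s ∈ S, t s • a s)) := by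
      rw [hp, map_sum, F.map_sum_finset (fun _ s => t s • a s) (fun _ => S), map_sum]
      apply Finset.sum_congr rfl
      intro r _
      rw [map_mul, MvPolynomial.eval_C, map_prod, F.map_smul_univ (fun k => t (r k)), map_smul,
        smul_eq_mul, mul_comm]
      simp only [MvPolynomial.eval_X]
    rw [h1, h, map_zero, map_zero]
  have h2 : MvPolynomial.coeff m p = ∑ r ∈ Fintype.piFinset (fun _ : Fin n => S),
      if (∑ k, Finsupp.single (r k) 1) = m then φ (F (fun k => a (r k))) else 0 := by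
    rw [hp, MvPolynomial.coeff_sum]
    apply Finset.sum_congr rfl
    intro r _
    have h3 : (∏ k, MvPolynomial.X (r k) : MvPolynomial σ K) =
        MvPolynomial.monomial (∑ k, Finsupp.single (r k) 1) 1 := by
      rw [MvPolynomial.monomial_sum_one]
      rfl
    rw [h3, MvPolynomial.coeff_C_mul, MvPolynomial.coeff_monomial]
    split_ifs
    · rw [mul_one]
    · rw [mul_zero]
  rw [hp0, MvPolynomial.coeff_zero, ← Finset.sum_filter, ← map_sum] at h2
  exact h2.symm

/-- base change of an identity over an infinite field -/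
lemma poly_strict {K : Type*} [Field K] [Infinite K] {n : ℕ} {A : Type*} [AddCommGroup A]
    [Module K A] {Ω : Type*} [CommRing Ω]
    (F' : MultilinearMap Ω (fun _ : Fin n => Ω ⊗[ℤ] A) (Ω ⊗[ℤ] A))
    (F : MultilinearMap K (fun _ : Fin n => A) A)
    (hc : ∀ x : Fin n → A, F' (fun i => (1 : Ω) ⊗ₜ[ℤ] x i) = (1 : Ω) ⊗ₜ[ℤ] F x)
    (h : ∀ x, F (fun _ => x) = 0) (x : Ω ⊗[ℤ] A) : F' (fun _ => x) = 0 := by
  classical
  obtain ⟨S, rfl⟩ := TensorProduct.exists_finset x
  have h1 : F' (fun _ => ∑ i ∈ S, i.1 ⊗ₜ[ℤ] i.2) =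
      ∑ r ∈ Fintype.piFinset (fun _ : Fin n => S), (∏ k, (r k).1) • ((1 : Ω) ⊗ₜ[ℤ]
        F (fun k => (r k).2)) := by
    rw [F'.map_sum_finset (fun _ i => i.1 ⊗ₜ[ℤ] i.2) (fun _ => S)]
    apply Finset.sum_congr rfl
    intro r _
    rw [← hc, ← F'.map_smul_univ]
    congr 1
    funext i
    rw [TensorProduct.smul_tmul', smul_eq_mul, mul_one]
  have hw : ∀ r : Fin n → Ω × A, (∏ k, (r k).1) =
      (∑ k, Finsupp.single (r k) 1 : (Ω × A) →₀ ℕ).prod (fun i k => i.1 ^ k) := by
    intro r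
    rw [← Finsupp.prod_finsetSum_index]
    · apply Finset.prod_congr rfl
      intro k _
      rw [Finsupp.prod_single_index, pow_one]
      exact pow_zero _
    · intro i
      exact pow_zero _
    · intro i p q
      exact pow_add _ _ _
  rw [h1, ← Finset.sum_fiberwise_of_maps_to
    (t := (Fintype.piFinset (fun _ : Fin n => S)).image
      (fun r => (∑ k, Finsupp.single (r k) 1 : (Ω × A) →₀ ℕ)))
    (g := fun r => (∑ k, Finsupp.single (r k) 1 : (Ω × A) →₀ ℕ))
    (fun r hr => Finset.mem_image_of_mem _ hr)]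
  apply Finset.sum_eq_zero
  intro m _
  have h2 : ∑ r ∈ (Fintype.piFinset (fun _ : Fin n => S)).filter
      (fun r => (∑ k, Finsupp.single (r k) 1 : (Ω × A) →₀ ℕ) = m),
      (∏ k, (r k).1) • ((1 : Ω) ⊗ₜ[ℤ] F (fun k => (r k).2)) =
      ∑ r ∈ (Fintype.piFinset (fun _ : Fin n => S)).filter
      (fun r => (∑ k, Finsupp.single (r k) 1 : (Ω × A) →₀ ℕ) = m),
      (m.prod (fun i k => i.1 ^ k)) • ((1 : Ω) ⊗ₜ[ℤ] F (fun k => (r k).2)) := by
    apply Finset.sum_congr rfl
    intro r hr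
    rw [Finset.mem_filter] at hr
    rw [hw, hr.2]
  rw [h2, ← Finset.smul_sum, ← TensorProduct.tmul_sum,
    coeff_zero S (fun i => i.2) F h m, TensorProduct.tmul_zero, smul_zero]

section

variable {R M : Type*} [CommRing R] [AddCommGroup M] [Module R M]

/-- the form expressing the second identity -/
private def G2 (β B : LinearMap.BilinMap R M (Module.End R M)) (y z : M) :
    MultilinearMap R (fun _ : Fin 3 => M) M :=
  MultilinearMap.mk' (fun x => β (x 0) (x 1) (B y z (x 2)) - B (x 0) (β (x 1) (x 2) z) y)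
    (by
      intro m i x y
      fin_cases i <;> simp [Function.update] <;> abel)
    (by
      intro m i t x
      fin_cases i <;> simp [Function.update, smul_sub])

private lemma G2_apply (β B : LinearMap.BilinMap R M (Module.End R M)) (y z : M)
    (x : Fin 3 → M) : G2 β B y z x =
    β (x 0) (x 1) (B y z (x 2)) - B (x 0) (β (x 1) (x 2) z) y := rfl

private lemma G2_add1 (β B : LinearMap.BilinMap R M (Module.End R M)) (y y' z : M)
    (x : Fin 3 → M) : G2 β B (y + y') z x = G2 β B y z x + G2 β B y' z x := by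
  simp only [G2_apply, map_add, LinearMap.add_apply]
  abel

private lemma G2_add2 (β B : LinearMap.BilinMap R M (Module.End R M)) (y z z' : M)
    (x : Fin 3 → M) : G2 β B y (z + z') x = G2 β B y z x + G2 β B y z' x := by
  simp only [G2_apply, map_add, LinearMap.add_apply]
  abel

private lemma G2_smul1 (β B : LinearMap.BilinMap R M (Module.End R M)) (t : R) (y z : M)
    (x : Fin 3 → M) : G2 β B (t • y) z x = t • G2 β B y z x := by
  simp only [G2_apply, map_smul, LinearMap.smul_apply, smul_sub]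

private lemma G2_smul2 (β B : LinearMap.BilinMap R M (Module.End R M)) (t : R) (y z : M)
    (x : Fin 3 → M) : G2 β B y (t • z) x = t • G2 β B y z x := by
  simp only [G2_apply, map_smul, LinearMap.smul_apply, smul_sub]

end

/-- a bilinear map whose diagonal is a given quadratic map, over a field -/
private lemma exists_bilin {K A : Type*} [Field K] [AddCommGroup A] [Module K A]
    (W : QuadraticMap K A (Module.End K A)) :
    ∃ β : LinearMap.BilinMap K A (Module.End K A), ∀ x, β x x = W x := by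
  classical
  let _ : LinearOrder (Module.Basis.ofVectorSpaceIndex K A) :=
    linearOrderOfSTO WellOrderingRel
  refine ⟨W.toBilin (Module.Basis.ofVectorSpace K A), fun x => ?_⟩
  have h := congrArg (fun Q => Q x)
    (QuadraticMap.toQuadraticMap_toBilin W (Module.Basis.ofVectorSpace K A))
  exact h

/-- the scalar extension of a bilinear map with values in endomorphisms -/
private lemma exists_ext {K A : Type*} [Field K] [AddCommGroup A] [Module K A]
    (β : LinearMap.BilinMap K A (Module.End K A)) (Ω : Type*) [CommRing Ω] :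
    ∃ β' : LinearMap.BilinMap Ω (Ω ⊗[ℤ] A) (Module.End Ω (Ω ⊗[ℤ] A)),
      ∀ a b c : A, ∀ ω : Ω, β' ((1 : Ω) ⊗ₜ[ℤ] a) ((1 : Ω) ⊗ₜ[ℤ] b) (ω ⊗ₜ[ℤ] c) =
        ω ⊗ₜ[ℤ] (β a b c) := by
  let βz : LinearMap.BilinMap ℤ A (Module.End ℤ A) :=
    (AddMonoidHom.mk' (fun x => (AddMonoidHom.mk' (fun y =>
      ((β x y : A →ₗ[K] A).toAddMonoidHom.toIntLinearMap : Module.End ℤ A)) (by
        intro y z
        ext c
        simp only [map_add]
        rfl)).toIntLinearMap) (by
      intro x y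
      ext z c
      simp only [map_add]
      rfl)).toIntLinearMap
  have hβz : ∀ a b c, βz a b c = β a b c := fun a b c => rfl
  let Φ : (Ω ⊗[ℤ] Module.End ℤ A) →ₗ[Ω] Module.End Ω (Ω ⊗[ℤ] A) :=
    LinearMap.liftBaseChange Ω (Module.End.baseChangeHom ℤ Ω A).toLinearMap
  refine ⟨(LinearMap.BilinMap.baseChange Ω βz).compr₂ Φ, ?_⟩
  intro a b c ω
  rw [LinearMap.compr₂_apply, LinearMap.BilinMap.baseChange_tmul, mul_one]
  have h1 : Φ ((1 : Ω) ⊗ₜ[ℤ] βz a b) = (βz a b).baseChange Ω := by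
    simp only [Φ, LinearMap.liftBaseChange_tmul, one_smul]
    rfl
  rw [h1, LinearMap.baseChange_tmul, hβz]

/-- strictness of the Jordan identities over an infinite field of scalars -/
theorem strictK {K A : Type*} [Field K] [Infinite K] [AddCommGroup A] [Module K A]
    (W : QuadraticMap K A (Module.End K A))
    (hW2 : ∀ a b c : A, W a ((QuadraticMap.polar (⇑W) b c) a) =
        (QuadraticMap.polar (⇑W) a (W a c)) b)
    (hW3 : ∀ a b : A, W (W a b) = W a * W b * W a)
    (Ω : Type*) [CommRing Ω]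
    (U' : QuadraticMap Ω (Ω ⊗[ℤ] A) (Module.End Ω (Ω ⊗[ℤ] A)))
    (hU' : ∀ (a c : A) (ω : Ω), U' ((1 : Ω) ⊗ₜ[ℤ] a) (ω ⊗ₜ[ℤ] c) = ω ⊗ₜ[ℤ] (W a c)) :
    (∀ x y z : Ω ⊗[ℤ] A,
      U' x ((QuadraticMap.polar (⇑U') y z) x) = (QuadraticMap.polar (⇑U') x (U' x z)) y) ∧
    (∀ x y : Ω ⊗[ℤ] A, U' (U' x y) = U' x * U' y * U' x) := by
  obtain ⟨β, hβ⟩ := exists_bilin W
  obtain ⟨β', hβ'⟩ := exists_ext β Ω
  set B := W.polarBilin with hB
  set B' := U'.polarBilin with hB'
  have hBa : ∀ a b, B a b = QuadraticMap.polar (⇑W) a b := fun a b => rfl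
  have hBa' : ∀ a b, B' a b = QuadraticMap.polar (⇑U') a b := fun a b => rfl
  have t1 : ∀ (ω : Ω) (a : A), ω ⊗ₜ[ℤ] a = ω • ((1 : Ω) ⊗ₜ[ℤ] a) := by
    intro ω a
    rw [TensorProduct.smul_tmul', smul_eq_mul, mul_one]
  -- two endomorphisms agreeing on pure tensors
  have hext : ∀ f g : Module.End Ω (Ω ⊗[ℤ] A), (∀ c : A, f ((1 : Ω) ⊗ₜ[ℤ] c) =
      g ((1 : Ω) ⊗ₜ[ℤ] c)) → f = g := by
    intro f g h
    apply LinearMap.ext
    intro z
    induction z using TensorProduct.induction_on with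
    | zero => rw [map_zero, map_zero]
    | add z z' ih ih' => rw [map_add, map_add, ih, ih']
    | tmul ω c => rw [t1, map_smul, map_smul, h]
  have hcomp : ∀ (a b c : A) (ω : Ω), B' ((1 : Ω) ⊗ₜ[ℤ] a) ((1 : Ω) ⊗ₜ[ℤ] b) (ω ⊗ₜ[ℤ] c) =
      ω ⊗ₜ[ℤ] (B a b c) := by
    intro a b c ω
    rw [hBa', hBa, QuadraticMap.polar, QuadraticMap.polar, ← TensorProduct.tmul_add,
      LinearMap.sub_apply, LinearMap.sub_apply, LinearMap.sub_apply, LinearMap.sub_apply,
      hU', hU', hU', TensorProduct.tmul_sub, TensorProduct.tmul_sub]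
  have hBβ : ∀ a b, B a b = β a b + β b a := by
    intro a b
    rw [hBa, QuadraticMap.polar, ← hβ, ← hβ, ← hβ]
    simp only [map_add, LinearMap.add_apply]
    abel
  have hBβ' : ∀ x y, B' x y = β' x y + β' y x := by
    intro x y
    induction x using TensorProduct.induction_on with
    | zero => simp
    | add x x' ih ih' =>
      rw [map_add, LinearMap.add_apply, ih, ih', map_add, LinearMap.add_apply, map_add]
      abel
    | tmul ω a =>
      induction y using TensorProduct.induction_on with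
      | zero => simp
      | add y y' ih ih' =>
        rw [map_add, ih, ih', map_add, map_add, LinearMap.add_apply]
        abel
      | tmul ω' b =>
        rw [t1 ω a, t1 ω' b]
        simp only [map_smul, LinearMap.smul_apply]
        have h1 : B' ((1 : Ω) ⊗ₜ[ℤ] a) ((1 : Ω) ⊗ₜ[ℤ] b) =
            β' ((1 : Ω) ⊗ₜ[ℤ] a) ((1 : Ω) ⊗ₜ[ℤ] b) + β' ((1 : Ω) ⊗ₜ[ℤ] b) ((1 : Ω) ⊗ₜ[ℤ] a) := by
          apply hext
          intro c
          rw [hcomp, LinearMap.add_apply, hβ', hβ', hBβ, LinearMap.add_apply,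
            TensorProduct.tmul_add]
        rw [h1, smul_add, smul_add, smul_comm ω ω']
  have hdiag : ∀ x, β' x x = U' x := by
    intro x
    induction x using TensorProduct.induction_on with
    | zero => simp
    | add x x' ih ih' =>
      rw [QuadraticMap.map_add (⇑U'), ← hBa', hBβ', ← ih, ← ih']
      simp only [map_add, LinearMap.add_apply]
      abel
    | tmul ω a =>
      rw [t1 ω a, QuadraticMap.map_smul, map_smul, map_smul, LinearMap.smul_apply, smul_smul]
      congr 1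
      apply hext
      intro c
      rw [hβ', hU', hβ]
  -- the identities over the field
  have e4 : ∀ y c x : A, G4 β y y c (fun _ => x) = 0 := by
    intro y c x
    rw [G4_apply, hβ x, hβ (W x y), hβ y, hW3]
    exact sub_self _
  have e4' : ∀ y z c x : A, G4 β y z c (fun _ => x) + G4 β z y c (fun _ => x) = 0 := by
    intro y z c x
    have h := e4 (y + z) c x
    rw [G4_add1, G4_add2, G4_add2, e4, e4] at h
    rw [← h]
    abel
  have e3 : ∀ y z x : A, G2 β B y z (fun _ => x) = 0 := by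
    intro y z x
    rw [G2_apply, hβ, hBa, hBa, hW2, sub_self]
  -- scalar extension of the third identity
  have f4 : ∀ y C x, G4 β' ((1 : Ω) ⊗ₜ[ℤ] y) ((1 : Ω) ⊗ₜ[ℤ] y) C (fun _ => x) = 0 := by
    intro y C x
    induction C using TensorProduct.induction_on with
    | zero => simp [G4_apply]
    | add C C' ih ih' => rw [G4_add3, ih, ih', add_zero]
    | tmul ω c =>
      rw [t1 ω c, G4_smul3, poly_strict (G4 β' ((1 : Ω) ⊗ₜ[ℤ] y) ((1 : Ω) ⊗ₜ[ℤ] y)
        ((1 : Ω) ⊗ₜ[ℤ] c)) (G4 β y y c) (by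
          intro x
          simp only [G4_apply, hβ', TensorProduct.tmul_sub]) (e4 y c) x, smul_zero]
  have f4' : ∀ Y Z C x, G4 β' Y Z C (fun _ => x) + G4 β' Z Y C (fun _ => x) = 0 := by
    intro Y Z C x
    induction Y using TensorProduct.induction_on with
    | zero => simp [G4_apply]
    | add Y Y' ih ih' =>
      rw [G4_add1, G4_add2]
      calc G4 β' Y Z C (fun _ => x) + G4 β' Y' Z C (fun _ => x) +
          (G4 β' Z Y C (fun _ => x) + G4 β' Z Y' C (fun _ => x)) =
          (G4 β' Y Z C (fun _ => x) + G4 β' Z Y C (fun _ => x)) +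
          (G4 β' Y' Z C (fun _ => x) + G4 β' Z Y' C (fun _ => x)) := by abel
        _ = 0 := by rw [ih, ih', add_zero]
    | tmul ω y =>
      induction Z using TensorProduct.induction_on with
      | zero => simp [G4_apply]
      | add Z Z' ih ih' =>
        rw [G4_add1, G4_add2]
        calc G4 β' (ω ⊗ₜ[ℤ] y) Z C (fun _ => x) + G4 β' (ω ⊗ₜ[ℤ] y) Z' C (fun _ => x) +
            (G4 β' Z (ω ⊗ₜ[ℤ] y) C (fun _ => x) + G4 β' Z' (ω ⊗ₜ[ℤ] y) C (fun _ => x)) =
            (G4 β' (ω ⊗ₜ[ℤ] y) Z C (fun _ => x) + G4 β' Z (ω ⊗ₜ[ℤ] y) C (fun _ => x)) +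
            (G4 β' (ω ⊗ₜ[ℤ] y) Z' C (fun _ => x) + G4 β' Z' (ω ⊗ₜ[ℤ] y) C (fun _ => x)) := by
              abel
          _ = 0 := by rw [ih, ih', add_zero]
      | tmul ω' z =>
        rw [t1 ω y, t1 ω' z, G4_smul1, G4_smul2, G4_smul1, G4_smul2, smul_comm ω' ω,
          ← smul_add, ← smul_add]
        have h5 : G4 β' ((1 : Ω) ⊗ₜ[ℤ] y) ((1 : Ω) ⊗ₜ[ℤ] z) C (fun _ => x) +
            G4 β' ((1 : Ω) ⊗ₜ[ℤ] z) ((1 : Ω) ⊗ₜ[ℤ] y) C (fun _ => x) = 0 := by
          induction C using TensorProduct.induction_on with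
          | zero => simp [G4_apply]
          | add C C' ih ih' =>
            rw [G4_add3, G4_add3]
            calc G4 β' ((1 : Ω) ⊗ₜ[ℤ] y) ((1 : Ω) ⊗ₜ[ℤ] z) C (fun _ => x) +
                G4 β' ((1 : Ω) ⊗ₜ[ℤ] y) ((1 : Ω) ⊗ₜ[ℤ] z) C' (fun _ => x) +
                (G4 β' ((1 : Ω) ⊗ₜ[ℤ] z) ((1 : Ω) ⊗ₜ[ℤ] y) C (fun _ => x) +
                G4 β' ((1 : Ω) ⊗ₜ[ℤ] z) ((1 : Ω) ⊗ₜ[ℤ] y) C' (fun _ => x)) =
                (G4 β' ((1 : Ω) ⊗ₜ[ℤ] y) ((1 : Ω) ⊗ₜ[ℤ] z) C (fun _ => x) +
                G4 β' ((1 : Ω) ⊗ₜ[ℤ] z) ((1 : Ω) ⊗ₜ[ℤ] y) C (fun _ => x)) +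
                (G4 β' ((1 : Ω) ⊗ₜ[ℤ] y) ((1 : Ω) ⊗ₜ[ℤ] z) C' (fun _ => x) +
                G4 β' ((1 : Ω) ⊗ₜ[ℤ] z) ((1 : Ω) ⊗ₜ[ℤ] y) C' (fun _ => x)) := by abel
              _ = 0 := by rw [ih, ih', add_zero]
          | tmul ω'' c =>
            rw [t1 ω'' c, G4_smul3, G4_smul3, ← smul_add]
            have h6 := poly_strict
              (G4 β' ((1 : Ω) ⊗ₜ[ℤ] y) ((1 : Ω) ⊗ₜ[ℤ] z) ((1 : Ω) ⊗ₜ[ℤ] c) +
                G4 β' ((1 : Ω) ⊗ₜ[ℤ] z) ((1 : Ω) ⊗ₜ[ℤ] y) ((1 : Ω) ⊗ₜ[ℤ] c))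
              (G4 β y z c + G4 β z y c) (by
                intro x
                simp only [_root_.add_apply, G4_apply, hβ', TensorProduct.tmul_sub,
                  TensorProduct.tmul_add]) (e4' y z c) x
            rw [_root_.add_apply] at h6
            rw [h6, smul_zero]
        rw [h5, smul_zero, smul_zero]
  have g4 : ∀ Y C x, G4 β' Y Y C (fun _ => x) = 0 := by
    intro Y C x
    induction Y using TensorProduct.induction_on with
    | zero => simp [G4_apply]
    | add Y Y' ih ih' =>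
      rw [G4_add1, G4_add2, G4_add2, ih, ih', zero_add, add_zero]
      exact f4' Y Y' C x
    | tmul ω y => rw [t1 ω y, G4_smul1, G4_smul2, f4, smul_zero, smul_zero]
  have g3 : ∀ Y Z x, G2 β' B' Y Z (fun _ => x) = 0 := by
    intro Y Z x
    induction Y using TensorProduct.induction_on with
    | zero => simp [G2_apply]
    | add Y Y' ih ih' => rw [G2_add1, ih, ih', add_zero]
    | tmul ω y =>
      rw [t1, G2_smul1]
      induction Z using TensorProduct.induction_on with
      | zero => simp [G2_apply]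
      | add Z Z' ih ih' => rw [G2_add2, smul_add, ih, ih', add_zero]
      | tmul ω' z =>
        rw [t1 ω' z, G2_smul2, poly_strict (G2 β' B' ((1 : Ω) ⊗ₜ[ℤ] y) ((1 : Ω) ⊗ₜ[ℤ] z))
          (G2 β B y z) (by
            intro x
            simp only [G2_apply, hcomp, hβ', TensorProduct.tmul_sub]) (e3 y z) x,
          smul_zero, smul_zero]
  constructor
  · intro x y z
    have h := g3 y z x
    rw [G2_apply, hdiag] at h
    exact sub_eq_zero.mp h
  · intro x y
    apply LinearMap.ext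
    intro c
    have h := g4 y c x
    rw [G4_apply, hdiag x, hdiag y, hdiag (U' x y)] at h
    exact sub_eq_zero.mp h

end Pool.Agent.HuaVal
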