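import Mathlib
import Pool.Agent.HuaVal.Alg

/-!
# Hua systems with a valuation in a chain: the estimates
-/

set_option autoImplicit false

namespace Pool.Agent.HuaVal

/-- a quasi-valuation with values in a chain `C`; the map `σ` plays the role of the
multiplication by the constant of the quasi-triangle inequality (`σ = id` for valuations) -/
structure ChainNorm {A : Type*} [AddCommGroup A] (J : A → A → A)
    {C : Type*} [LinearOrder C] (N : A → C) (σ : C → C) : Prop where
  mono : Monotone σ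
  zero : σ (N 0) = N 0
  pos : ∀ a, a ≠ 0 → N 0 < N a
  add : ∀ a b, N (a + b) ≤ σ (max (N a) (N b))
  rev : ∀ (k : ℕ) (a b c : A), a ≠ 0 → b ≠ 0 → c ≠ 0 → N b ≤ σ^[k] (N c) →
    N (J a c) ≤ σ^[k] (N (J a b))
  lef : ∀ (k : ℕ) (a b c : A), a ≠ 0 → b ≠ 0 → c ≠ 0 → N a ≤ σ^[k] (N b) →
    N (J a c) ≤ σ^[2 * k] (N (J b c))
  large : ∃ a b, b ≠ 0 ∧ σ (N b) < N a

/-- the comparison at level `k` -/
def L {A C : Type*} [LinearOrder C] (N : A → C) (σ : C → C) (k : ℕ) (a b : A) : Prop :=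
  N a ≤ σ^[k] (N b)

section

variable {A : Type*} [AddCommGroup A] {J : A → A → A}
  {C : Type*} [LinearOrder C] {N : A → C} {σ : C → C} (hJ : JSys J) (hN : ChainNorm J N σ)

section

include hN

lemma L_le_self (a : A) : N a ≤ σ (N a) := by
  have h := hN.add a 0
  rw [add_zero] at h
  have h0 : N 0 ≤ N a := by
    by_cases ha : a = 0
    · rw [ha]
    · exact (hN.pos a ha).le
  rwa [max_eq_left h0] at h

lemma L_iter_le (a : A) (k : ℕ) : N a ≤ σ^[k] (N a) := by
  induction k with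
  | zero => exact le_rfl
  | succ k ih =>
    rw [Function.iterate_succ_apply]
    exact ih.trans (hN.mono.iterate k (L_le_self hN a))

lemma L_mono {k l : ℕ} {a b : A} (h : L N σ k a b) (hkl : k ≤ l) : L N σ l a b := by
  obtain ⟨m, rfl⟩ := Nat.exists_eq_add_of_le hkl
  refine h.trans ?_
  rw [Function.iterate_add_apply]
  exact hN.mono.iterate k (L_iter_le hN b m)

lemma L_refl (k : ℕ) (a : A) : L N σ k a a := L_iter_le hN a k

lemma L_trans {k l : ℕ} {a b c : A} (h : L N σ k a b) (h' : L N σ l b c) :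
    L N σ (k + l) a c := by
  refine h.trans ?_
  rw [Function.iterate_add_apply]
  exact hN.mono.iterate k h'

lemma L_zero (k : ℕ) (a : A) : L N σ k 0 a := by
  have h0 : N 0 ≤ N a := by
    by_cases ha : a = 0
    · rw [ha]
    · exact (hN.pos a ha).le
  exact h0.trans (L_iter_le hN a k)

lemma eq_zero_of_L {k : ℕ} {a : A} (h : L N σ k a 0) : a = 0 := by
  have h1 : ∀ k : ℕ, σ^[k] (N 0) = N 0 := by
    intro k
    induction k with
    | zero => rfl
    | succ k ih => rw [Function.iterate_succ_apply, hN.zero, ih]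
  rw [L, h1] at h
  by_contra ha
  exact absurd (hN.pos a ha) (not_lt.mpr h)

lemma L_add {k : ℕ} {a b c : A} (ha : L N σ k a c) (hb : L N σ k b c) :
    L N σ (k + 1) (a + b) c := by
  refine (hN.add a b).trans ?_
  rw [Function.iterate_succ_apply']
  exact hN.mono (max_le ha hb)

lemma nL_ne {k : ℕ} {x w : A} (h : ¬L N σ k x w) : x ≠ 0 := by
  rintro rfl
  exact h (L_zero hN k w)

end

include hJ hN

lemma N_neg' (a : A) : N (-a) = N a := by
  by_cases ha : a = 0
  · rw [ha, neg_zero]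
  have hna := neg_ne_zero.mpr ha
  have h1 : J a (-a) = -a := by rw [hJ.neg a a ha, hJ.self a ha]
  have h2 : J a a = a := hJ.self a ha
  apply le_antisymm
  · rcases le_total (N a) (N (-a)) with h | h
    · have h3 := hN.rev 0 a a (-a) ha ha hna h
      rwa [h1, h2] at h3
    · exact h
  · rcases le_total (N a) (N (-a)) with h | h
    · exact h
    · have h3 := hN.rev 0 a (-a) a ha hna ha h
      rwa [h1, h2] at h3

lemma L_neg {k : ℕ} {a b : A} (h : L N σ k a b) : L N σ k (-a) b := by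
  rw [L, N_neg' hJ hN]
  exact h

lemma L_sub {k : ℕ} {a b c : A} (ha : L N σ k a c) (hb : L N σ k b c) :
    L N σ (k + 1) (a - b) c := by
  rw [sub_eq_add_neg]
  exact L_add hN ha (L_neg hJ hN hb)

omit hJ in
lemma L_J {k : ℕ} {a b c : A} (ha : a ≠ 0) (hb : b ≠ 0) (hc : c ≠ 0) (h : L N σ k b c) :
    L N σ k (J a c) (J a b) := hN.rev k a b c ha hb hc h

lemma L_J' {k : ℕ} {a b c : A} (ha : a ≠ 0) (hb : b ≠ 0) (hc : c ≠ 0)
    (h : L N σ k (J a c) (J a b)) : L N σ k b c := by
  have h1 := L_J hN ha (J_ne_zero hJ ha hc) (J_ne_zero hJ ha hb) h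
  rwa [hJ.inv a _ ha, hJ.inv a _ ha] at h1

variable {e : A} (he : e ≠ 0)

include he

lemma L_H {k : ℕ} {a b : A} (x : A) (h : L N σ k a b) :
    L N σ k (H J e x a) (H J e x b) := by
  by_cases hx : x = 0
  · rw [hx, H_zero_left]
    exact L_zero hN k _
  by_cases ha : a = 0
  · rw [ha, H_zero_right hJ he]
    exact L_zero hN k _
  by_cases hb : b = 0
  · rw [hb] at h
    exact absurd (eq_zero_of_L hN h) ha
  rw [H_of_ne hx, H_of_ne hx]
  exact L_J hN hx (J_ne_zero hJ he hb) (J_ne_zero hJ he ha) (L_J hN he ha hb h)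

lemma L_H' {k : ℕ} {a b x : A} (hx : x ≠ 0) (h : L N σ k (H J e x a) (H J e x b)) :
    L N σ k a b := by
  have h1 := L_H hJ hN he (J e x) h
  rwa [H_left_inv hJ he hx, H_left_inv hJ he hx] at h1

lemma L_Hl {k : ℕ} {a b : A} (x : A) (h : L N σ k a b) :
    L N σ (2 * k) (H J e a x) (H J e b x) := by
  by_cases ha : a = 0
  · rw [ha, H_zero_left]
    exact L_zero hN _ _
  by_cases hb : b = 0
  · rw [hb] at h
    exact absurd (eq_zero_of_L hN h) ha
  by_cases hx : x = 0
  · rw [hx, H_zero_right hJ he]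
    exact L_zero hN _ _
  rw [H_of_ne ha, H_of_ne hb]
  exact hN.lef k a b (J e x) ha hb (J_ne_zero hJ he hx) h

omit hJ he in
/-- (q) -/
lemma Lq {x w : A} (hJ : JSys J) (h : ¬L N σ 1 x w) : L N σ 1 x (x + w) := by
  have h1 := hN.add (x + w) (-w)
  rw [add_neg_cancel_right, N_neg' hJ hN] at h1
  rcases le_total (N (x + w)) (N w) with h2 | h2
  · rw [max_eq_right h2] at h1
    exact absurd h1 h
  · rw [max_eq_left h2] at h1
    exact h1

omit he in
lemma Lq' {x w : A} (h : ¬L N σ 1 x w) : L N σ 1 x (x - w) := by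
  rw [sub_eq_add_neg]
  apply Lq hN hJ
  intro h1
  apply h
  rw [L, N_neg' hJ hN] at h1
  exact h1

omit he in
lemma Lq_ne {x w : A} (h : ¬L N σ 1 x w) : x + w ≠ 0 := by
  intro h0
  have h1 := Lq hN hJ h
  rw [h0] at h1
  exact nL_ne hN h (eq_zero_of_L hN h1)

omit he in
lemma Lq_ne' {x w : A} (h : ¬L N σ 1 x w) : x - w ≠ 0 := by
  intro h0
  have h1 := Lq' hJ hN h
  rw [h0] at h1
  exact nL_ne hN h (eq_zero_of_L hN h1)

/-- (B) -/
lemma Lest_B {x w : A} (h : ¬L N σ 1 x w) :
    L N σ 1 (J e (x + w) - J e x) (H J e (J e x) w) := by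
  by_cases hw : w = 0
  · rw [hw, add_zero, sub_self]
    exact L_zero hN _ _
  have hx : x ≠ 0 := nL_ne hN h
  have hiw := J_ne_zero hJ he hw
  have hxw := Lq_ne hJ hN h
  have f := i_sub_i hJ he hx hw hxw
  have h1 : ¬L N σ 1 (H J e x (J e w)) x := by
    intro h1
    apply h
    have h2 : L N σ 1 (J e w) (J e x) := by
      apply L_H' hJ hN he hx
      rwa [H_inv_self hJ he]
    exact L_J' hJ hN he hx hw h2
  have h2 := Lq hN hJ h1
  have hZ := Lq_ne hJ hN h1
  rw [add_comm _ x] at h2 hZ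
  have h3 := L_J hN he (H_ne hJ he hx hiw) hZ h2
  rw [J_H hJ he hx, hJ.inv e w he, ← f] at h3
  have h4 := L_neg hJ hN h3
  rwa [neg_sub] at h4

/-- (A') -/
lemma Lest_A {g x : A} (h : ¬L N σ 3 g x) :
    L N σ 4 (J e (g + x) + J e (g - x) - (J e g + J e g))
      (H J e (J e g) (H J e x (J e g))) := by
  by_cases hx : x = 0
  · rw [hx, add_zero, sub_zero, sub_self]
    exact L_zero hN _ _
  have hg : g ≠ 0 := nL_ne hN h
  have h' : ¬L N σ 1 g x := fun h1 => h (L_mono hN h1 (by norm_num))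
  have hix := J_ne_zero hJ he hx
  have hig := J_ne_zero hJ he hg
  have f1 := i_sub_i hJ he hg hx (Lq_ne hJ hN h')
  have f2 := i_sub_i hJ he hg (neg_ne_zero.mpr hx) (by
    rw [← sub_eq_add_neg]
    exact Lq_ne' hJ hN h')
  rw [i_neg hJ he, H_negr hJ he, ← sub_eq_add_neg, ← sub_eq_add_neg] at f2
  have key : ¬L N σ 3 (H J e g (J e x)) g := by
    intro h1
    apply h
    have h2 : L N σ 3 (J e x) (J e g) := by
      apply L_H' hJ hN he hg
      rwa [H_inv_self hJ he]
    exact L_J' hJ hN he hg hx h2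
  have hJK : J e (H J e g (J e x)) = H J e (J e g) x := by
    rw [J_H hJ he hg, hJ.inv e x he]
  have hK0 := H_ne hJ he hg hix
  set K := H J e g (J e x) with hK
  have key' : ¬L N σ 1 K g := fun h1 => key (L_mono hN h1 (by norm_num))
  have hZ1 : L N σ 1 K (K - g) := Lq' hJ hN key'
  have hZ0 := Lq_ne' hJ hN key'
  have hgg : L N σ 1 (g + g) g := L_add hN (L_refl hN 0 g) (L_refl hN 0 g)
  have hZ2 : ¬L N σ 1 (K - g) (g + g) := by
    intro h1
    apply key
    exact L_trans hN (L_trans hN hZ1 h1) hgg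
  have hB := Lest_B hJ hN he hZ2
  have hS : J e (g + x) + J e (g - x) - (J e g + J e g) =
      -(J e (K - g + (g + g)) - J e (K - g)) := by
    have e1 : K - g + (g + g) = g + K := by abel
    have e2 : J e (K - g) = -J e (g - K) := by
      rw [← i_neg hJ he]
      congr 1
      abel
    rw [e1, e2, ← f1, ← f2]
    abel
  rw [hS]
  have b1 : L N σ 1 (H J e (J e (K - g)) (g + g)) (H J e (J e (K - g)) g) :=
    L_H hJ hN he _ hgg
  have b2 : L N σ 1 (J e (K - g)) (J e K) := L_J hN he hK0 hZ0 hZ1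
  have b3 := L_Hl hJ hN he g b2
  have b4 : H J e (J e K) g = H J e (J e g) (H J e x (J e g)) := by
    rw [hJK, H_H' hJ he]
    congr 2
    have := H_inv_self hJ he (J e g)
    rwa [hJ.inv e g he] at this
  rw [b4] at b3
  have b5 := L_trans hN (L_trans hN hB b1) b3
  exact L_neg hJ hN b5

omit hN in
private lemma H_formula' {s c : A} (hc : c ≠ 0) (h1 : e + s ≠ 0) (h2 : e - J e c + s ≠ 0) :
    HuaVal.H J e (e + s) c = (e + s) - J e (J e (e + s) - J e (e - J e c + s)) := by
  have h := hJ.hua e (e + s) (J e c) he h1 (J_ne_zero hJ he hc) (by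
    intro h
    apply h2
    have h3 : e - J e c + s = (e + s) - J e c := by abel
    rw [h3, h, sub_self])
  rw [H_of_ne h1, h]
  have h3 : e - J e c + s = (e + s) - J e c := by abel
  rw [h3]

/-- (C) -/
lemma Lest_C {x c : A} (hc : ¬L N σ 1 c e) (h : ¬L N σ 8 (J e c) x) :
    L N σ 16 (H J e (e + x) c + H J e (e - x) c - (c + c)) (H J e c (H J e x c)) := by
  by_cases hx : x = 0
  · rw [hx, add_zero, sub_zero, H_self hJ he, sub_self]
    exact L_zero hN _ _
  have hie : J e e = e := hJ.self e he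
  have hc0 : c ≠ 0 := nL_ne hN hc
  have hw0 := J_ne_zero hJ he hc0
  -- `w = i c` is smaller than `e`
  have hw1 : ¬L N σ 1 e (J e c) := by
    intro h1
    apply hc
    apply L_J' hJ hN he hc0 he
    rwa [hie]
  have hg2 : L N σ 1 e (e - J e c) := Lq' hJ hN hw1
  have hg20 := Lq_ne' hJ hN hw1
  have hce : L N σ 0 e c := by
    rcases le_total (N e) (N c) with h1 | h1
    · exact h1
    · exact absurd (L_mono hN (show L N σ 0 c e from h1) (by norm_num)) hc
  -- smallness of `x`
  have hwe : L N σ 0 (J e c) e := by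
    have h1 := L_J hN he he hc0 hce
    rwa [hie] at h1
  have hx8 : ¬L N σ 8 e x := fun h1 => h (L_trans hN hwe h1)
  have hxe : ∀ n, n ≤ 8 → ¬L N σ n e x := fun n hn h1 => hx8 (L_mono hN h1 hn)
  have hxg : ∀ n, n ≤ 7 → ¬L N σ n (e - J e c) x := by
    intro n hn h1
    have h2 := L_trans hN hg2 h1
    exact hx8 (L_mono hN h2 (by omega))
  set g2 := e - J e c with hg2def
  have F1 := H_formula' hJ he (s := x) hc0 (Lq_ne hJ hN (hxe 1 (by norm_num)))
    (Lq_ne hJ hN (hxg 1 (by norm_num)))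
  have F2 := H_formula' hJ he (s := -x) hc0
    (by rw [← sub_eq_add_neg]; exact Lq_ne' hJ hN (hxe 1 (by norm_num)))
    (by rw [← sub_eq_add_neg]; exact Lq_ne' hJ hN (hxg 1 (by norm_num)))
  have F0 := H_formula' hJ he (s := 0) hc0 (by rwa [add_zero]) (by rwa [add_zero])
  rw [← hg2def] at F1 F2 F0
  rw [← sub_eq_add_neg, ← sub_eq_add_neg] at F2
  rw [add_zero, add_zero, H_self hJ he] at F0
  have hig2 : L N σ 1 (J e g2) e := by
    have h1 := L_J hN he he hg20 hg2
    rwa [hie] at h1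
  set A0 := J e e - J e g2 with hA0
  set Ap := J e (e + x) - J e (g2 + x) with hAp
  set Am := J e (e - x) - J e (g2 - x) with hAm
  -- the sum of the differences
  have hsum : L N σ 8 ((Ap - A0) + (Am - A0)) (H J e x e) := by
    have a1 := Lest_A hJ hN he (hxe 3 (by norm_num))
    rw [hie, H_self hJ he] at a1
    have a2 := Lest_A hJ hN he (hxg 3 (by norm_num))
    have a3 : L N σ 3 (H J e (J e g2) (H J e x (J e g2))) (H J e x e) := by
      have b1 := L_Hl hJ hN he (H J e x (J e g2)) hig2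
      rw [H_self hJ he] at b1
      exact L_trans hN b1 (L_H hJ hN he x hig2)
    have a4 := L_trans hN a2 a3
    have a5 := L_sub hJ hN (L_mono hN a1 (by norm_num : 4 ≤ 7)) a4
    have e1 : (Ap - A0) + (Am - A0) = (J e (e + x) + J e (e - x) - (e + e)) -
        (J e (g2 + x) + J e (g2 - x) - (J e g2 + J e g2)) := by
      rw [hAp, hAm, hA0, hie]
      abel
    rw [e1]
    exact a5
  have hD1 : L N σ 4 (Ap - A0) x := by
    have b1 := Lest_B hJ hN he (hxe 1 (by norm_num))
    rw [hie, H_self hJ he] at b1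
    have b2 := Lest_B hJ hN he (hxg 1 (by norm_num))
    have b3 := L_Hl hJ hN he x hig2
    rw [H_self hJ he] at b3
    have b4 := L_trans hN b2 b3
    have b5 := L_sub hJ hN (L_mono hN b1 (by norm_num : 1 ≤ 3)) b4
    have e1 : Ap - A0 = (J e (e + x) - e) - (J e (g2 + x) - J e g2) := by
      rw [hAp, hA0, hie]
      abel
    rw [e1]
    exact b5
  set D1 := Ap - A0 with hD1def
  set D2 := Am - A0 with hD2def
  have hApe : Ap = A0 + D1 := by rw [hD1def]; abel
  have hAme : Am = A0 + D2 := by rw [hD2def]; abel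
  -- the size of `A0`
  have hA0e : J e A0 = e - c := by
    have h1 : J e A0 = e - (e - J e A0) := by abel
    rw [h1, ← F0]
  have hcne : e - c ≠ 0 := by
    have h1 := Lq_ne' hJ hN hc
    intro h2
    apply h1
    rw [← neg_sub, h2, neg_zero]
  have hA0e' : A0 = J e (e - c) := by rw [← hA0e, hJ.inv e _ he]
  have hec : L N σ 1 (e - c) c := L_sub hJ hN hce (L_refl hN 0 c)
  have hA1 : L N σ 1 (J e c) A0 := by
    rw [hA0e']
    exact L_J hN he hcne hc0 hec
  have hA0ne : A0 ≠ 0 := by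
    rw [hA0e']
    exact J_ne_zero hJ he hcne
  have hAD : ¬L N σ 3 A0 D1 := by
    intro h1
    exact h (L_trans hN (L_trans hN hA1 h1) hD1)
  have hAD1 : ¬L N σ 1 A0 D1 := fun h1 => hAD (L_mono hN h1 (by norm_num))
  -- first part
  have P1 : L N σ 15 (J e (A0 + D1) + J e (A0 - D1) - (J e A0 + J e A0))
      (H J e c (H J e x c)) := by
    have a1 := Lest_A hJ hN he hAD
    rw [hA0e] at a1
    have a2 := L_Hl hJ hN he (H J e D1 (e - c)) hec
    have a3 := L_H hJ hN he c (L_H hJ hN he D1 hec)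
    have a4 := L_H hJ hN he c (L_Hl hJ hN he c hD1)
    have a5 := L_trans hN (L_trans hN (L_trans hN a1 a2) a3) a4
    rw [← hA0e] at a5
    exact a5
  -- second part
  have hX : L N σ 1 A0 (A0 - D1) := Lq' hJ hN hAD1
  have hX0 := Lq_ne' hJ hN hAD1
  have hX2 : L N σ 2 (J e c) (A0 - D1) := L_trans hN hA1 hX
  have hiX : L N σ 2 (J e (A0 - D1)) c := by
    have h1 := L_J hN he hw0 hX0 hX2
    rwa [hJ.inv e c he] at h1
  have hXW : ¬L N σ 1 (A0 - D1) (D1 + D2) := by
    intro h1
    have h2 : L N σ 11 (J e c) (H J e x e) := L_trans hN (L_trans hN hX2 h1) hsum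
    -- `x² ≺ x`
    have h3 : ¬L N σ 3 x (H J e x e) := by
      intro h4
      have h5 : L N σ 3 (J e x) e := by
        apply L_H' hJ hN he hx
        rwa [H_inv_self hJ he]
      have h6 : L N σ 3 e x := by
        apply L_J' hJ hN he he hx
        rwa [hie]
      exact hxe 3 (by norm_num) h6
    have h7 : σ^[3] (N (H J e x e)) < N x := not_le.mp h3
    have h8 : σ^[8] (N x) < N (J e c) := not_le.mp h
    have h9 : σ^[11] (N (H J e x e)) ≤ σ^[8] (N x) := by
      rw [show (11 : ℕ) = 8 + 3 from rfl, Function.iterate_add_apply]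
      exact hN.mono.iterate 8 h7.le
    exact absurd h2 (not_le.mpr (lt_of_le_of_lt h9 h8))
  have P2 : L N σ 15 (J e (A0 + D2) - J e (A0 - D1)) (H J e c (H J e x c)) := by
    have b1 := Lest_B hJ hN he hXW
    have e1 : A0 - D1 + (D1 + D2) = A0 + D2 := by abel
    rw [e1] at b1
    have b2 := L_Hl hJ hN he (D1 + D2) hiX
    have b3 := L_H hJ hN he c hsum
    have b4 := L_H hJ hN he c (L_H hJ hN he x hce)
    exact L_mono hN (L_trans hN (L_trans hN (L_trans hN b1 b2) b3) b4) (by norm_num)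
  have P3 := L_add hN P1 P2
  have e5 : H J e (e + x) c + H J e (e - x) c - (c + c) =
      -((J e (A0 + D1) + J e (A0 - D1) - (J e A0 + J e A0)) +
        (J e (A0 + D2) - J e (A0 - D1))) := by
    rw [F1, F2, hApe, hAme, hA0e]
    abel
  rw [e5]
  exact L_neg hJ hN P3

/-- (E) -/
lemma Lest_E {x c τ : A} (hτ : ¬L N σ 3 τ e) (hc : L N σ 1 c e) (h : ¬L N σ 9 (J e τ) x) :
    L N σ 21 (Dl J e x c) (H J e τ (H J e x τ)) := by
  have hτ0 := nL_ne hN hτ
  have heτ : L N σ 0 e τ := by
    rcases le_total (N e) (N τ) with h1 | h1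
    · exact h1
    · exact absurd (L_mono hN (show L N σ 0 τ e from h1) (by norm_num)) hτ
  have hcτ : ¬L N σ 1 τ c := fun h1 => hτ (L_mono hN (L_trans hN h1 hc) (by norm_num))
  have hcτ0 : L N σ 0 c τ := by
    rcases le_total (N c) (N τ) with h1 | h1
    · exact h1
    · exact absurd (L_mono hN (show L N σ 0 τ c from h1) (by norm_num)) hcτ
  have hs1 : L N σ 1 τ (τ + c) := Lq hN hJ hcτ
  have hs0 := Lq_ne hJ hN hcτ
  have hs2 : L N σ 1 (τ + c) τ := L_add hN (L_refl hN 0 τ) hcτ0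
  have hs3 : ¬L N σ 1 (τ + c) e := fun h1 =>
    hτ (L_mono hN (L_trans hN hs1 h1) (by norm_num))
  have hs4 : ¬L N σ 8 (J e (τ + c)) x := by
    intro h1
    exact h (L_trans hN (L_J hN he hs0 hτ0 hs2) h1)
  have c1 := Lest_C hJ hN he hs3 hs4
  have c1' : L N σ 19 (H J e (e + x) (τ + c) + H J e (e - x) (τ + c) - ((τ + c) + (τ + c)))
      (H J e τ (H J e x τ)) := by
    have d1 := L_Hl hJ hN he (H J e x (τ + c)) hs2
    have d2 := L_H hJ hN he τ (L_H hJ hN he x hs2)
    exact L_trans hN (L_trans hN c1 d1) d2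
  have hτ1 : ¬L N σ 1 τ e := fun h1 => hτ (L_mono hN h1 (by norm_num))
  have hτ8 : ¬L N σ 8 (J e τ) x := fun h1 => h (L_mono hN h1 (by norm_num))
  have c2 := L_mono hN (Lest_C hJ hN he hτ1 hτ8) (by norm_num : 16 ≤ 19)
  have c3 := L_sub hJ hN c1' c2
  have c4 : L N σ 20 (H J e x c + H J e x c) (H J e τ (H J e x τ)) := by
    have d1 : L N σ 0 (H J e x c) (H J e x τ) := L_H hJ hN he x hcτ0
    have d2 := L_Hl hJ hN he (H J e x τ) heτ
    rw [H_self hJ he] at d2
    have d3 := L_trans hN d1 d2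
    exact L_mono hN (L_add hN d3 d3) (by norm_num)
  have c5 := L_sub hJ hN c3 c4
  have e1 : Dl J e x c = H J e (e + x) (τ + c) + H J e (e - x) (τ + c) -
      ((τ + c) + (τ + c)) - (H J e (e + x) τ + H J e (e - x) τ - (τ + τ)) -
      (H J e x c + H J e x c) := by
    rw [Dl, H_add hJ he, H_add hJ he]
    abel
  rw [e1]
  exact c5

/-- (F) -/
lemma Lest_F {x w τ : A} (hτ : ¬L N σ 3 τ e) (hx : L N σ 0 x e) (h : ¬L N σ 10 (J e τ) w) :
    L N σ 23 (Dl J e x w) (H J e τ (H J e w τ)) := by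
  by_cases hw : w = 0
  · rw [hw, Dl_zero_right hJ he]
    exact L_zero hN _ _
  have hie : J e e = e := hJ.self e he
  have hτ0 := nL_ne hN hτ
  have hiw0 := J_ne_zero hJ he hw
  have heτ : L N σ 0 e τ := by
    rcases le_total (N e) (N τ) with h1 | h1
    · exact h1
    · exact absurd (L_mono hN (show L N σ 0 τ e from h1) (by norm_num)) hτ
  have hiτ : L N σ 0 (J e τ) e := by
    have h1 := L_J hN he he hτ0 heτ
    rwa [hie] at h1
  have hwe : ¬L N σ 10 e w := fun h1 => h (L_trans hN hiτ h1)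
  have hwe0 : L N σ 0 w e := by
    rcases le_total (N w) (N e) with h1 | h1
    · exact h1
    · exact absurd (L_mono hN (show L N σ 0 e w from h1) (by norm_num)) hwe
  have hlt : ¬L N σ 1 (J e w) x := by
    intro h1
    apply hwe
    have h2 : L N σ 1 (J e w) e := L_trans hN h1 hx
    have h3 : L N σ 1 e w := by
      apply L_J' hJ hN he he hw
      rwa [hie]
    exact L_mono hN h3 (by norm_num)
  have hs := Lq_ne hJ hN hlt
  have hs1 := Lq hN hJ hlt
  rw [add_comm] at hs hs1
  have hnew : L N σ 1 (J e (x + J e w)) w := by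
    have h1 := L_J hN he hiw0 hs hs1
    rwa [hJ.inv e w he] at h1
  have hval : L N σ 1 (x + H J e x w) e := by
    have h1 : L N σ 0 (H J e x w) e := by
      have h2 := L_Hl hJ hN he w hx
      rw [H_self hJ he] at h2
      exact L_trans hN h2 hwe0
    exact L_add hN hx h1
  rw [Dl_trans hJ he hw hs]
  have h9 : ¬L N σ 9 (J e τ) (J e (x + J e w)) := fun h1 => h (L_trans hN h1 hnew)
  have g1 := Lest_E hJ hN he hτ hval h9
  have g2 := L_H hJ hN he τ (L_Hl hJ hN he τ hnew)
  exact L_trans hN g1 g2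

omit [LinearOrder C] hN in
/-- `Δ x` commutes with the powers of `H x` -/
lemma Dl_comm_iter (n : ℕ) (x y : A) :
    Dl J e x ((H J e x)^[n] y) = (H J e x)^[n] (Dl J e x y) := by
  induction n with
  | zero => rfl
  | succ n ih =>
    rw [Function.iterate_succ_apply', Function.iterate_succ_apply', Dl_comm hJ he, ih]

end

end Pool.Agent.HuaVal
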