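import Mathlib
import Pool.Agent.HuaVal.Chain
import Pool.Agent.HuaVal.Quad

/-!
# Hua systems with a valuation in a chain: the Hua maps are quadratic
-/

set_option autoImplicit false

namespace Pool.Agent.HuaVal

section

variable {A : Type*} [AddCommGroup A] {J : A → A → A} {e : A} (hJ : JSys J) (he : e ≠ 0)

include hJ he

private lemma iter_left (n : ℕ) {x : A} (hx : x ≠ 0) (y : A) :
    (H J e (J e x))^[n] ((H J e x)^[n] y) = y := by
  induction n with
  | zero => rfl
  | succ n ih =>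
    rw [Function.iterate_succ_apply, Function.iterate_succ_apply', H_left_inv hJ he hx, ih]

private lemma iter_H_H (n : ℕ) (x w y : A) :
    H J e ((H J e x)^[n] w) y = (H J e x)^[n] (H J e w ((H J e x)^[n] y)) := by
  induction n generalizing y with
  | zero => rfl
  | succ n ih =>
    rw [Function.iterate_succ_apply', H_H' hJ he, ih, Function.iterate_succ_apply',
      Function.iterate_succ_apply]

end

section

variable {A : Type*} [AddCommGroup A] {J : A → A → A} {e : A}
  {C : Type*} [LinearOrder C] {N : A → C} {σ : C → C} (hJ : JSys J) (he : e ≠ 0)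
  (hN : ChainNorm J N σ)

include hJ he hN

/-- (G) -/
lemma Lest_G {x w : A} (n : ℕ) (hx : x ≠ 0) (hxe : ¬L N σ 3 e x)
    (h : ¬L N σ 10 x ((H J e x)^[n] w)) :
    L N σ 23 (Dl J e x w)
      (H J e (J e x) (H J e w ((H J e x)^[n] (J e x)))) := by
  have hix := J_ne_zero hJ he hx
  have hie : J e e = e := hJ.self e he
  have hτ : ¬L N σ 3 (J e x) e := by
    intro h1
    apply hxe
    apply L_J' hJ hN he he hx
    rwa [hie]
  have hx0 : L N σ 0 x e := by
    rcases le_total (N x) (N e) with h1 | h1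
    · exact h1
    · exact absurd (L_mono hN (show L N σ 0 e x from h1) (by norm_num)) hxe
  have g := Lest_F hJ hN he hτ hx0 (w := (H J e x)^[n] w) (by rwa [hJ.inv e x he])
  rw [Dl_comm_iter hJ he, iter_H_H hJ he] at g
  have g2 : ∀ m : ℕ, ∀ a b : A, L N σ 23 a b →
      L N σ 23 ((H J e (J e x))^[m] a) ((H J e (J e x))^[m] b) := by
    intro m
    induction m with
    | zero => exact fun a b h => h
    | succ m ih =>
      intro a b h
      rw [Function.iterate_succ_apply', Function.iterate_succ_apply']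
      exact L_H hJ hN he _ (ih a b h)
  have g3 := g2 n _ _ g
  rw [iter_left hJ he n hx, ← Function.iterate_succ_apply, Function.iterate_succ_apply',
    iter_left hJ he n hx] at g3
  exact g3

omit hN in
omit [LinearOrder C] in
private lemma base_H {z : A} (hz : z ≠ 0) (a y : A) :
    H J z a y = H J e a (H J e (J e z) y) := by
  by_cases ha : a = 0
  · rw [ha, H_zero_left, H_zero_left]
  have hiz := J_ne_zero hJ he hz
  rw [H_of_ne ha, H_of_ne ha, H_of_ne hiz, hJ.comp e z _ he hz, hJ.inv e _ he, hJ.inv e _ he]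

private lemma g_two {x z : A} (hx : x ≠ 0) (hz : z ≠ 0) (h : L N σ 0 (H J e x e) z) (m : ℕ)
    (y : A) : L N σ 0 ((H J z x)^[2 * m] y) ((H J e (J e z))^[m] y) := by
  have hie : J e e = e := hJ.self e he
  have h1 : L N σ 0 (H J e x (J e z)) e := by
    have h2 : L N σ 0 (J e z) (H J e (J e x) e) := by
      have h3 := L_J hN he (H_ne hJ he hx he) hz h
      rwa [J_H hJ he hx, hie] at h3
    have h4 := L_H hJ hN he x h2
    rwa [H_right_inv hJ he hx] at h4
  have h5 : ∀ y, L N σ 0 (H J z x (H J z x y)) (H J e (J e z) y) := by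
    intro y
    rw [base_H hJ he hz, base_H hJ he hz, ← H_H' hJ he x (J e z)]
    have h6 := L_Hl hJ hN he (H J e (J e z) y) h1
    rwa [H_self hJ he] at h6
  induction m with
  | zero => exact L_refl hN 0 y
  | succ m ih =>
    rw [show 2 * (m + 1) = 2 * m + 1 + 1 from rfl, Function.iterate_succ_apply',
      Function.iterate_succ_apply', Function.iterate_succ_apply']
    exact L_trans hN (h5 _) (L_H hJ hN he _ ih)

/-- (H) -/
lemma Lest_Om {x z c : A} (hx : x ≠ 0) (hz : z ≠ 0) (h1 : L N σ 0 (H J e x e) z)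
    (h2 : L N σ 0 (J e x) z) (h3 : L N σ 0 c z) (h4 : L N σ 0 e z) (h5 : ¬L N σ 3 z x)
    (h6 : ¬L N σ 10 z (J e x)) : L N σ 23 (Om J e z x c) (J e z) := by
  have hie : J e e = e := hJ.self e he
  have hiz := J_ne_zero hJ he hz
  have hix := J_ne_zero hJ he hx
  have hiz1 : ∀ y, L N σ 0 (H J e (J e z) y) y := by
    intro y
    have h7 : L N σ 0 (J e z) e := by
      have h8 := L_J hN he he hz h4
      rwa [hie] at h8
    have h9 := L_Hl hJ hN he y h7
    rwa [H_self hJ he] at h9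
  have hiz2 : ∀ (m : ℕ) (a b : A), L N σ 0 a b →
      L N σ 0 ((H J e (J e z))^[m] a) ((H J e (J e z))^[m] b) := by
    intro m
    induction m with
    | zero => exact fun a b h => h
    | succ m ih =>
      intro a b h
      rw [Function.iterate_succ_apply', Function.iterate_succ_apply']
      exact L_H hJ hN he _ (ih a b h)
  have hzz : H J e (J e z) z = J e z := by
    have h7 := H_inv_self hJ he (J e z)
    rwa [hJ.inv e z he] at h7
  have hJzx : J z x = H J e z (J e x) := by rw [H_of_ne hz, hJ.inv e x he]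
  -- the condition
  have hcond : ¬L N σ 10 x ((H J z x)^[12] (H J e z c)) := by
    intro h7
    have k1 := g_two hJ he hN hx hz h1 6 (H J e z c)
    have k2 : L N σ 0 ((H J e (J e z))^[6] (H J e z c)) (J e z) := by
      rw [show (6 : ℕ) = 5 + 1 from rfl, Function.iterate_succ_apply, H_left_inv hJ he hz]
      have k3 := hiz2 5 c z h3
      have k4 : L N σ 0 ((H J e (J e z))^[5] z) (J e z) := by
        rw [Function.iterate_succ_apply, hzz]
        exact L_trans hN (L_trans hN (L_trans hN (hiz1 _) (hiz1 _)) (hiz1 _)) (hiz1 _)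
      exact L_trans hN k3 k4
    have k5 := L_trans hN (L_trans hN h7 k1) k2
    apply h6
    have k6 := L_J hN he hx hiz k5
    rwa [hJ.inv e z he] at k6
  have g := Lest_G hJ hz hN (x := x) (w := H J e z c) 12 hx h5 hcond
  rw [Dl_change hJ hz] at g
  have g' : L N σ 23 (Om J e z x c)
      (H J z (J z x) (H J z (H J e z c) ((H J z x)^[12] (J z x)))) := g
  have e1 : ∀ y, H J z (J z x) y = H J e z (H J e (J e x) y) := by
    intro y
    rw [base_H hJ he hz, hJzx, H_H' hJ he, H_right_inv hJ he hz]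
  have e2 : ∀ y, H J z (H J e z c) y = H J e z (H J e c y) := by
    intro y
    rw [base_H hJ he hz, H_H' hJ he, H_right_inv hJ he hz]
  rw [e1, e2] at g'
  have k1 := g_two hJ he hN hx hz h1 6 (J z x)
  have k2 : L N σ 0 ((H J e (J e z))^[6] (J z x)) ((H J e (J e z))^[5] z) := by
    rw [hJzx, show (6 : ℕ) = 5 + 1 from rfl, Function.iterate_succ_apply,
      H_left_inv hJ he hz]
    exact hiz2 5 _ _ h2
  have k3 := L_trans hN k1 k2
  -- collect
  have i5 : (H J e (J e z))^[5] z = H J e (J e z) ((H J e (J e z))^[4] z) :=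
    Function.iterate_succ_apply' _ _ _
  have i4 : (H J e (J e z))^[4] z = H J e (J e z) ((H J e (J e z))^[3] z) :=
    Function.iterate_succ_apply' _ _ _
  have i3 : (H J e (J e z))^[3] z = H J e (J e z) ((H J e (J e z))^[2] z) :=
    Function.iterate_succ_apply' _ _ _
  have i2 : (H J e (J e z))^[2] z = H J e (J e z) (J e z) := by
    rw [show (2 : ℕ) = 1 + 1 from rfl, Function.iterate_succ_apply,
      Function.iterate_succ_apply, Function.iterate_zero_apply, hzz]
  have k4 : L N σ 0 (H J e c ((H J z x)^[12] (J z x)))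
      (H J e z ((H J e (J e z))^[5] z)) := by
    have d1 := L_H hJ hN he c k3
    have d2 := L_Hl hJ hN he ((H J e (J e z))^[5] z) h3
    exact L_trans hN d1 d2
  rw [i5, H_right_inv hJ he hz] at k4
  have k5 := L_H hJ hN he z k4
  rw [i4, H_right_inv hJ he hz] at k5
  have k6 : L N σ 0 (H J e (J e x) (H J e z (H J e c ((H J z x)^[12] (J z x)))))
      (H J e z ((H J e (J e z))^[3] z)) := by
    have d1 := L_H hJ hN he (J e x) k5
    have d2 := L_Hl hJ hN he ((H J e (J e z))^[3] z) h2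
    exact L_trans hN d1 d2
  rw [i3, H_right_inv hJ he hz] at k6
  have k7 := L_H hJ hN he z k6
  rw [i2, H_right_inv hJ he hz] at k7
  exact L_trans hN g' k7

omit he in
/-- arbitrarily large elements -/
lemma exists_gap (a : A) (k : ℕ) : ∃ d, ¬L N σ k d a := by
  obtain ⟨a0, b, hb, hab⟩ := hN.large
  have step : ∀ p q : A, p ≠ 0 → q ≠ 0 → σ (N p) < N q →
      J q p ≠ 0 ∧ σ (N q) < N (J q p) := by
    intro p q hp hq h
    refine ⟨J_ne_zero hJ hq hp, ?_⟩
    by_contra h1
    have h2 : L N σ 1 (J q p) (J q q) := by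
      rw [hJ.self q hq]
      exact not_lt.mp h1
    have h3 := L_J' hJ hN hq hq hp h2
    exact absurd h3 (not_le.mpr h)
  have seq : ∀ (p q : A), p ≠ 0 → q ≠ 0 → σ (N p) < N q → ∀ n : ℕ,
      ∃ p' q' : A, p' ≠ 0 ∧ q' ≠ 0 ∧ σ (N p') < N q' ∧ σ^[n] (N p) ≤ N p' := by
    intro p q hp hq h n
    induction n with
    | zero => exact ⟨p, q, hp, hq, h, le_rfl⟩
    | succ n ih =>
      obtain ⟨p', q', hp', hq', h', hn⟩ := ih
      obtain ⟨s1, s2⟩ := step p' q' hp' hq' h'
      refine ⟨q', J q' p', hq', s1, s2, ?_⟩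
      rw [Function.iterate_succ_apply']
      exact (hN.mono hn).trans h'.le
  have main : ∀ (p q : A), p ≠ 0 → q ≠ 0 → σ (N p) < N q → ∀ n : ℕ,
      ∃ d, ¬L N σ n d p := by
    intro p q hp hq h n
    obtain ⟨p', q', hp', hq', h', hn⟩ := seq p q hp hq h n
    refine ⟨q', ?_⟩
    intro h1
    have h2 : N q' ≤ N p' := h1.trans hn
    exact absurd (h2.trans (L_le_self hN p')) (not_le.mpr h')
  have ha0 : a0 ≠ 0 := by
    rintro rfl
    exact absurd (L_zero hN 1 b) (not_le.mpr hab)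
  by_cases ha : a = 0
  · refine ⟨b, fun h => hb ?_⟩
    rw [ha] at h
    exact eq_zero_of_L hN h
  rcases lt_or_ge (σ (N b)) (N a) with h | h
  · obtain ⟨s1, s2⟩ := step b a hb ha h
    exact main a (J a b) ha s1 s2 k
  · obtain ⟨d, hd⟩ := main b a0 hb ha0 hab (k + 1)
    refine ⟨d, fun h1 => hd ?_⟩
    exact L_trans hN h1 h

omit hJ he hN in
/-- vanishing at infinity -/
def VanC {A C : Type*} [AddCommGroup A] [LinearOrder C] (N : A → C) (F : A → A) :
    Prop :=
  ∀ δ : A, δ ≠ 0 → ∃ R : A, ∀ z : A, N R < N z → N (F z) < N δ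

omit hJ he hN in
omit [AddCommGroup A] in
lemma vanC_two (N : A → C) (R S : A) :
    ∃ Q : A, ∀ z, N Q < N z → N R < N z ∧ N S < N z := by
  rcases le_total (N R) (N S) with h | h
  · exact ⟨S, fun z hz => ⟨lt_of_le_of_lt h hz, hz⟩⟩
  · exact ⟨R, fun z hz => ⟨hz, lt_of_le_of_lt h hz⟩⟩

omit he in
lemma big (a : A) (k : ℕ) : ∃ R : A, ∀ z, N R < N z → ¬L N σ k z a := by
  obtain ⟨d, hd⟩ := exists_gap hJ hN a k
  refine ⟨d, fun z hz h => hd ?_⟩
  exact hz.le.trans h

lemma vanC_add {F G : A → A} (hF : VanC N F) (hG : VanC N G) :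
    VanC N (fun z => F z + G z) := by
  intro δ hδ
  have hiδ := J_ne_zero hJ he hδ
  obtain ⟨d, hd⟩ := exists_gap hJ hN (J e δ) 1
  have hd0 := nL_ne hN hd
  have hδ' : ¬L N σ 1 δ (J e d) := by
    intro h
    apply hd
    have h1 := L_J hN he hδ (J_ne_zero hJ he hd0) h
    rwa [hJ.inv e d he] at h1
  obtain ⟨R, hR⟩ := hF (J e d) (J_ne_zero hJ he hd0)
  obtain ⟨S, hS⟩ := hG (J e d) (J_ne_zero hJ he hd0)
  obtain ⟨Q, hQ⟩ := vanC_two N R S
  refine ⟨Q, fun z hz => ?_⟩
  obtain ⟨h1, h2⟩ := hQ z hz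
  have h3 := hR z h1
  have h4 := hS z h2
  refine lt_of_le_of_lt (hN.add _ _) ?_
  refine lt_of_le_of_lt (hN.mono (max_lt h3 h4).le) ?_
  exact not_le.mp hδ'

lemma vanC_sub {F G : A → A} (hF : VanC N F) (hG : VanC N G) :
    VanC N (fun z => F z - G z) := by
  have hG' : VanC N (fun z => -G z) := by
    intro δ hδ
    obtain ⟨R, hR⟩ := hG δ hδ
    exact ⟨R, fun z hz => by simpa only [N_neg' hJ hN] using hR z hz⟩
  have h := vanC_add hJ he hN hF hG'
  simpa only [← sub_eq_add_neg] using h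

omit he in
lemma vanC_shift {F : A → A} (hF : VanC N F) (a : A) :
    VanC N (fun z => F (z + a)) := by
  intro δ hδ
  obtain ⟨R, hR⟩ := hF δ hδ
  obtain ⟨R1, hR1⟩ := big hJ hN a 1
  obtain ⟨R2, hR2⟩ := big hJ hN R 1
  obtain ⟨Q, hQ⟩ := vanC_two N R1 R2
  refine ⟨Q, fun z hz => ?_⟩
  obtain ⟨h1, h2⟩ := hQ z hz
  have h3 := hR1 z h1
  have h4 := hR2 z h2
  have h5 := Lq hN hJ h3
  apply hR
  by_contra h6
  apply h4
  exact h5.trans (hN.mono (not_lt.mp h6))

omit he in
lemma vanC_const {v : A} (h : VanC N (fun _ => v)) : v = 0 := by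
  by_contra hv
  obtain ⟨R, hR⟩ := h v hv
  obtain ⟨d, hd⟩ := exists_gap hJ hN R 0
  exact lt_irrefl _ (hR d (not_le.mp hd))

/-- a criterion -/
lemma vanC_of_L {F : A → A} (k : ℕ) (R : A)
    (h : ∀ z, N R < N z → L N σ k (F z) (J e z)) : VanC N F := by
  intro δ hδ
  have hiδ := J_ne_zero hJ he hδ
  obtain ⟨R5, hR5⟩ := big hJ hN (J e δ) k
  obtain ⟨Q, hQ⟩ := vanC_two N R R5
  refine ⟨Q, fun z hz => ?_⟩
  obtain ⟨g1, g2⟩ := hQ z hz
  have a7 := hR5 z g2
  have hz0 : z ≠ 0 := nL_ne hN a7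
  by_contra h1
  apply a7
  have h2 : L N σ k δ (J e z) := (not_lt.mp h1).trans (h z g1)
  have h3 := L_J hN he hδ (J_ne_zero hJ he hz0) h2
  rwa [hJ.inv e z he] at h3

private lemma vanC_Om (x c : A) : VanC N (fun z => Om J e z x c) := by
  by_cases hx : x = 0
  · intro δ hδ
    refine ⟨0, fun z _ => ?_⟩
    have h : Om J e z x c = 0 := by
      rw [Om, hx, add_zero, sub_zero, H_zero_left]
      abel
    show N (Om J e z x c) < N δ
    rw [h]
    exact hN.pos δ hδ
  intro δ hδ
  have hiδ := J_ne_zero hJ he hδ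
  obtain ⟨Q1, hQ1⟩ := vanC_two N (H J e x e) (J e x)
  obtain ⟨Q2, hQ2⟩ := vanC_two N c e
  obtain ⟨R3, hR3⟩ := big hJ hN x 3
  obtain ⟨R4, hR4⟩ := big hJ hN (J e x) 10
  obtain ⟨R5, hR5⟩ := big hJ hN (J e δ) 23
  obtain ⟨Q3, hQ3⟩ := vanC_two N R3 R4
  obtain ⟨Q4, hQ4⟩ := vanC_two N Q1 Q2
  obtain ⟨Q5, hQ5⟩ := vanC_two N Q3 Q4
  obtain ⟨Q, hQ⟩ := vanC_two N Q5 R5
  refine ⟨Q, fun z hz => ?_⟩
  obtain ⟨g1, g2⟩ := hQ z hz
  obtain ⟨g3, g4⟩ := hQ5 z g1
  obtain ⟨g5, g6⟩ := hQ4 z g4
  obtain ⟨g7, g8⟩ := hQ3 z g3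
  obtain ⟨a1, a2⟩ := hQ1 z g5
  obtain ⟨a3, a4⟩ := hQ2 z g6
  have a5 := hR3 z g7
  have a6 := hR4 z g8
  have a7 := hR5 z g2
  have hz0 : z ≠ 0 := nL_ne hN a5
  have h := Lest_Om hJ he hN hx hz0 a1.le a2.le a3.le a4.le a5 a6
  by_contra h1
  apply a7
  have h2 : L N σ 23 δ (J e z) := (not_lt.mp h1).trans h
  have h3 := L_J hN he hδ (J_ne_zero hJ he hz0) h2
  rwa [hJ.inv e z he] at h3

private lemma vanC_T3 (x y c : A) : VanC N (fun z => T3 J e x y z c + T3 J e x y z c) := by
  have h1 := vanC_shift hJ hN (vanC_Om hJ he hN (x + y) c) x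
  have h2 := vanC_shift hJ hN (vanC_Om hJ he hN x c) (x + y)
  have h3 := vanC_Om hJ he hN y c
  have h4 := vanC_sub hJ he hN (vanC_sub hJ he hN h1 h2) h3
  have h5 : (fun z => T3 J e x y z c + T3 J e x y z c) =
      (fun z => Om J e (z + x) (x + y) c - Om J e (z + (x + y)) x c - Om J e z y c) := by
    funext z
    have e1 : z + x + (x + y) = z + (x + y) + x := by abel
    have e2 : z + x - (x + y) = z - y := by abel
    have e3 : z + (x + y) - x = y + z := by abel
    have e4 : z + (x + y) = x + y + z := by abel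
    have e5 : z + x = x + z := by abel
    have e6 : z + y = y + z := by abel
    rw [T3, Om, Om, Om, e1, e2, e3, e4, e5, e6]
    abel
  rw [h5]
  exact h4

/-- the third differences vanish -/
theorem T3_eq_zero' (h2 : ∀ a : A, a + a = 0 → a = 0) (x y w c : A) :
    T3 J e x y w c = 0 := by
  apply h2
  apply vanC_const hJ hN
  have v1 := vanC_shift hJ hN (vanC_T3 hJ he hN x y c) w
  have v2 := vanC_T3 hJ he hN x y c
  have v3 := vanC_T3 hJ he hN (x + y) w c
  have v4 := vanC_T3 hJ he hN x w c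
  have v5 := vanC_T3 hJ he hN y w c
  have v := vanC_add hJ he hN (vanC_add hJ he hN
    (vanC_sub hJ he hN (vanC_sub hJ he hN v1 v2) v3) v4) v5
  have h5 : (fun _ : A => T3 J e x y w c + T3 J e x y w c) =
      (fun z => (T3 J e x y (z + w) c + T3 J e x y (z + w) c) -
        (T3 J e x y z c + T3 J e x y z c) -
        (T3 J e (x + y) w z c + T3 J e (x + y) w z c) +
        (T3 J e x w z c + T3 J e x w z c) + (T3 J e y w z c + T3 J e y w z c)) := by
    funext z
    have e1 : x + y + (z + w) = x + y + w + z := by abel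
    have e2 : x + (z + w) = x + w + z := by abel
    have e3 : y + (z + w) = y + w + z := by abel
    have e4 : z + w = w + z := by abel
    simp only [T3]
    rw [e1, e2, e3, e4]
    abel
  rw [h5]
  exact v

end

end Pool.Agent.HuaVal
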