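import Mathlib
import Pool.Agent.HuaVal.Chain2
import Pool.Agent.HuaVal.Der

/-!
# Hua systems with a valuation in a chain: the deviation vanishes
-/

set_option autoImplicit false

namespace Pool.Agent.HuaVal

section

variable {A : Type*} [AddCommGroup A] {J : A → A → A} (hJ : JSys J) {e : A} (he : e ≠ 0)
  (h2 : ∀ a : A, a + a = 0 → a = 0) (hT : ∀ x y z c, T3 J e x y z c = 0)

lemma H_addl (x y c : A) : H J e (x + y) c = H J e x c + H J e y c + Pl J e x y c := by
  rw [Pl]
  abel

include hJ he hT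

/-- the exact expansion of the inversion -/
lemma i_add {a v : A} (ha : a ≠ 0) (hav : a + v ≠ 0) :
    J e (a + v) = J e a - H J e (J e a) v + H J e (J e a) (H J e v (J e (a + v))) := by
  set t := J e (a + v) with ht
  have h1 : H J e (a + v) t = a + v := by rw [ht, H_inv_self hJ he]
  have h3 : Pl J e v (a + v) t = v + v := P_i hJ he v hav
  rw [P_addr hT, P_self hJ hT, Pl_comm J e v a] at h3
  have h4 : Pl J e a v t = v + v - (H J e v t + H J e v t) := by
    rw [← h3]
    abel
  rw [H_addl, h4] at h1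
  have h5 : H J e a t = a - v + H J e v t := by
    have h6 : H J e a t = (H J e a t + H J e v t + (v + v - (H J e v t + H J e v t))) -
        (v + v) + H J e v t := by abel
    rw [h6, h1]
    abel
  have h7 := H_left_inv hJ he ha t
  rw [h5, H_add hJ he, H_sub hJ he] at h7
  have h8 : H J e (J e a) a = J e a := by
    have := H_inv_self hJ he (J e a)
    rwa [hJ.inv e a he] at this
  rw [h8] at h7
  exact h7.symm

/-- the exact formula for the deviation -/
lemma Dv_formula {z v ρ δ E : A} (hz : z ≠ 0) (hb : z + e ≠ 0) (hzv : z + v ≠ 0)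
    (hbv : z + e + v ≠ 0)
    (hρ : ρ = H J e (J e z) (H J e v (J e (z + v))) -
      H J e (J e (z + e)) (H J e v (J e (z + e + v))))
    (hδ : δ = -H J e (J e z) v + H J e (J e (z + e)) v + ρ)
    (hE : E = z + v + H J e (z + v) e) :
    Dv J e z v = -H J e (z + H J e z e) ρ + H J e (z + H J e z e) (H J e δ E) -
      H J e v e := by
  have hie : J e e = e := hJ.self e he
  have h1 := i_sub_i hJ he hz he hb
  rw [hie] at h1
  set D0 := J e z - J e (z + e) with hD0
  have hD00 : D0 ≠ 0 := by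
    intro h
    have h3 := congrArg (J e) (sub_eq_zero.mp h)
    rw [hJ.inv e _ he, hJ.inv e _ he] at h3
    exact he (left_eq_add.mp h3)
  have hiD : J e D0 = z + H J e z e := by rw [h1, hJ.inv e _ he]
  -- the map `H (i D0)`
  have hz1 : z + H J e z e = H J e z (J e z + e) := by
    rw [H_add hJ he, H_inv_self hJ he]
  have hM1 : ∀ y, H J e (z + H J e z e) y = H J e z (H J e (z + e) y) := by
    intro y
    rw [hz1, H_H' hJ he, ← H_add_e' hJ he hz]
  have hM2 : ∀ y, H J e (z + H J e z e) y = H J e (z + e) (H J e z y) := by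
    intro y
    rw [hz1, H_H' hJ he, ← H_add_e hJ he hz]
  have hsum : z + v + e ≠ 0 := by
    rw [add_right_comm]
    exact hbv
  have h3 := i_sub_i hJ he hzv he hsum
  rw [hie, ← hE] at h3
  have e1 : z + v + e = z + e + v := by abel
  have hDd : D0 + δ = J e E := by
    rw [← h3, e1, i_add hJ he hT hz hzv, i_add hJ he hT hb hbv, hδ, hρ, hD0]
    abel
  have hE0 : E ≠ 0 := by
    rintro rfl
    rw [hJ.zero e he] at h3
    have h4 := congrArg (J e) (sub_eq_zero.mp h3)
    rw [hJ.inv e _ he, hJ.inv e _ he] at h4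
    exact he (left_eq_add.mp h4)
  have hDd0 : D0 + δ ≠ 0 := by
    rw [hDd]
    exact J_ne_zero hJ he hE0
  have h4 := i_add hJ he hT hD00 hDd0
  rw [hDd, hJ.inv e E he, hiD] at h4
  have h5 : H J e (z + H J e z e) δ = -H J e (z + e) v + H J e z v +
      H J e (z + H J e z e) ρ := by
    rw [hδ, H_add hJ he, H_add hJ he, H_negr hJ he, hM2 (H J e (J e z) v),
      H_right_inv hJ he hz, hM1 (H J e (J e (z + e)) v), H_right_inv hJ he hb]
  rw [h5, H_addl (x := z) (y := e), H_self hJ he, hE, H_addl (x := z) (y := v)] at h4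
  rw [Dv, hE, H_addl (x := z) (y := v)]
  have h6 := sub_eq_zero.mpr h4
  apply sub_eq_zero.mp
  rw [← h6]
  abel

end

section

variable {A : Type*} [AddCommGroup A] {J : A → A → A} {e : A}
  {C : Type*} [LinearOrder C] {N : A → C} {σ : C → C} (hJ : JSys J) (he : e ≠ 0)
  (hN : ChainNorm J N σ)

include hN in
lemma L_of_not {k : ℕ} {a b : A} (h : ¬L N σ k a b) : L N σ 0 b a := by
  rcases le_total (N b) (N a) with h1 | h1
  · exact h1
  · exact absurd (L_mono hN (show L N σ 0 a b from h1) (Nat.zero_le k)) h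

include hJ he hN

/-- comparison with the unit -/
lemma L_inv_e {z : A} (hz : z ≠ 0) (h : L N σ 0 e z) : L N σ 0 (J e z) e := by
  have h1 := L_J hN he he hz h
  rwa [hJ.self e he] at h1

lemma L_inv_e' {z : A} (hz : z ≠ 0) (h : L N σ 0 z e) : L N σ 0 e (J e z) := by
  have h1 := L_J hN he hz he h
  rwa [hJ.self e he] at h1

lemma L_sq_le {v : A} (h : L N σ 0 v e) : L N σ 0 (H J e v e) v := by
  by_cases hv : v = 0
  · rw [hv, H_zero_left]
    exact L_refl hN 0 _
  have h1 := L_H hJ hN he v (L_inv_e' hJ he hN hv h)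
  rwa [H_inv_self hJ he] at h1

lemma L_le_sq {z : A} (hz : z ≠ 0) (h : L N σ 0 e z) : L N σ 0 z (H J e z e) := by
  have h1 := L_H hJ hN he z (L_inv_e hJ he hN hz h)
  rwa [H_inv_self hJ he] at h1

lemma L_H_le {z : A} (h : L N σ 0 z e) (y : A) : L N σ 0 (H J e z y) y := by
  have h1 := L_Hl hJ hN he y h
  rwa [H_self hJ he] at h1

lemma L_le_H {z : A} (h : L N σ 0 e z) (y : A) : L N σ 0 y (H J e z y) := by
  have h1 := L_Hl hJ hN he y h
  rwa [H_self hJ he] at h1

variable (hT : ∀ x y z c, T3 J e x y z c = 0)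

include hT

/-- the estimate for the deviation -/
lemma Lest_D {z v : A} (hze : ¬L N σ 2 z e) (hv : L N σ 0 v e) :
    L N σ 19 (Dv J e z v) (H J e z (H J e v e)) := by
  have hz0 : z ≠ 0 := nL_ne hN hze
  have hze1 : ¬L N σ 1 z e := fun h => hze (L_mono hN h (by norm_num))
  have hez : L N σ 0 e z := L_of_not hN hze
  have hvz : L N σ 0 v z := L_trans hN hv hez
  have zb : L N σ 1 z (z + e) := Lq hN hJ hze1
  have hb0 : z + e ≠ 0 := Lq_ne hJ hN hze1
  have hzv1 : ¬L N σ 1 z v := fun h => hze (L_mono hN (L_trans hN h hv) (by norm_num))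
  have zzv : L N σ 1 z (z + v) := Lq hN hJ hzv1
  have hzv0 : z + v ≠ 0 := Lq_ne hJ hN hzv1
  have hbv1 : ¬L N σ 1 (z + e) v := fun h =>
    hze (L_mono hN (L_trans hN (L_trans hN zb h) hv) (by norm_num))
  have bbv : L N σ 1 (z + e) (z + e + v) := Lq hN hJ hbv1
  have hbv0 : z + e + v ≠ 0 := Lq_ne hJ hN hbv1
  have i1 : L N σ 1 (J e (z + v)) (J e z) := L_J hN he hz0 hzv0 zzv
  have i2 : L N σ 1 (J e (z + e)) (J e z) := L_J hN he hz0 hb0 zb
  have i3 : L N σ 2 (J e (z + e + v)) (J e z) := L_trans hN (L_J hN he hb0 hbv0 bbv) i2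
  have i4 : L N σ 0 (J e z) e := L_inv_e hJ he hN hz0 hez
  have hf := Dv_formula hJ he hT hz0 hb0 hzv0 hbv0 rfl rfl rfl
  set ρ := H J e (J e z) (H J e v (J e (z + v))) -
      H J e (J e (z + e)) (H J e v (J e (z + e + v))) with hρ
  set δ := -H J e (J e z) v + H J e (J e (z + e)) v + ρ with hδ
  set E := z + v + H J e (z + v) e with hE
  have t1 : L N σ 1 (H J e (J e z) (H J e v (J e (z + v))))
      (H J e (J e z) (H J e v (J e z))) := L_H hJ hN he _ (L_H hJ hN he v i1)
  have t2 : L N σ 4 (H J e (J e (z + e)) (H J e v (J e (z + e + v))))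
      (H J e (J e z) (H J e v (J e z))) :=
    L_trans hN (L_H hJ hN he _ (L_H hJ hN he v i3)) (L_Hl hJ hN he _ i2)
  have t3 : L N σ 5 ρ (H J e (J e z) (H J e v (J e z))) :=
    L_sub hJ hN (L_mono hN t1 (by norm_num)) t2
  -- the map `H (z + z²)`
  have m1 : L N σ 1 (z + H J e z e) (H J e z e) :=
    L_add hN (L_le_sq hJ he hN hz0 hez) (L_refl hN 0 _)
  have m2 : ∀ x, L N σ 2 (H J e (z + H J e z e) x) (H J e z (H J e z x)) := by
    intro x
    have h := L_Hl hJ hN he x m1
    rwa [H_H' hJ he, H_self hJ he] at h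
  have hv2 : L N σ 0 (H J e v (J e z)) (H J e v e) := L_H hJ hN he v i4
  have a1 : L N σ 7 (H J e (z + H J e z e) ρ) (H J e z (H J e v e)) := by
    have h1 := L_trans hN (L_H hJ hN he (z + H J e z e) t3) (m2 _)
    rw [H_right_inv hJ he hz0] at h1
    exact L_trans hN h1 (L_H hJ hN he z hv2)
  -- the estimate for `δ`
  have d1 : L N σ 5 ρ (H J e (J e z) v) :=
    L_trans hN (L_trans hN t3 (L_H hJ hN he _ hv2)) (L_H hJ hN he _ (L_sq_le hJ he hN hv))
  have d2 : L N σ 6 δ (H J e (J e z) v) := by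
    have h1 : L N σ 3 (-H J e (J e z) v + H J e (J e (z + e)) v) (H J e (J e z) v) :=
      L_add hN (L_neg hJ hN (L_refl hN 2 _)) (L_Hl hJ hN he v i2)
    exact L_add hN (L_mono hN h1 (by norm_num)) d1
  have zv1 : L N σ 1 (z + v) z := L_add hN (L_refl hN 0 _) hvz
  have e1 : L N σ 3 E (H J e z e) := by
    have h1 : L N σ 1 (z + v) (H J e z e) := L_trans hN zv1 (L_le_sq hJ he hN hz0 hez)
    exact L_add hN (L_mono hN h1 (by norm_num)) (L_Hl hJ hN he e zv1)
  have a2 : L N σ 17 (H J e (z + H J e z e) (H J e δ E)) (H J e z (H J e v e)) := by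
    have h1 : L N σ 15 (H J e δ E) (H J e (J e z) (H J e v e)) := by
      have h3 := L_Hl hJ hN he E d2
      rw [H_H' hJ he] at h3
      have h4 := L_H hJ hN he (J e z) (L_H hJ hN he v (L_H hJ hN he (J e z) e1))
      rw [H_left_inv hJ he hz0] at h4
      exact L_trans hN h3 h4
    have h3 := L_trans hN (L_H hJ hN he (z + H J e z e) h1) (m2 _)
    rwa [H_right_inv hJ he hz0] at h3
  have a3 : L N σ 0 (H J e v e) (H J e z (H J e v e)) := L_le_H hJ he hN hez _
  rw [hf]
  exact L_sub hJ hN (L_add hN (L_mono hN (L_neg hJ hN a1) (by norm_num)) a2)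
    (L_mono hN a3 (by norm_num))

variable (h2 : ∀ a : A, a + a = 0 → a = 0)

include h2

lemma Lest_D' {z v : A} (hze : ¬L N σ 2 z e) (hv : L N σ 0 v z) :
    L N σ 19 (Dv J e z v) (J e z) := by
  have hz0 : z ≠ 0 := nL_ne hN hze
  have hez : L N σ 0 e z := L_of_not hN hze
  have i4 : L N σ 0 (J e z) e := L_inv_e hJ he hN hz0 hez
  have hzz : H J e (J e z) z = J e z := by
    have h7 := H_inv_self hJ he (J e z)
    rwa [hJ.inv e z he] at h7
  set v' := H J e (J e z) (H J e (J e z) (H J e (J e z) v)) with hv'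
  have hv1 : L N σ 0 v' e := by
    have h1 : L N σ 0 (H J e (J e z) v) e := by
      have h3 := L_H hJ hN he (J e z) hv
      rw [hzz] at h3
      exact L_trans hN h3 i4
    exact L_trans hN (L_trans hN (L_H_le hJ he hN i4 _) (L_H_le hJ he hN i4 _)) h1
  have hvv : v = H J e z (H J e z (H J e z v')) := by
    rw [hv', H_right_inv hJ he hz0, H_right_inv hJ he hz0, H_right_inv hJ he hz0]
  have hD : Dv J e z v = H J e z (H J e z (H J e z (Dv J e z v'))) := by
    conv_lhs => rw [hvv]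
    rw [Dv_H hJ he h2 hT, Dv_H hJ he h2 hT, Dv_H hJ he h2 hT]
  have h1 := Lest_D hJ he hN hT hze hv1
  have h3 := L_H hJ hN he z (L_H hJ hN he z (L_H hJ hN he z h1))
  rw [← hD, hv'] at h3
  simp only [H_H' hJ he] at h3
  rw [H_right_inv hJ he hz0, H_right_inv hJ he hz0, H_right_inv hJ he hz0] at h3
  have h4 := L_H hJ hN he z
    (L_Hl hJ hN he (H J e (J e z) (H J e (J e z) (H J e (J e z) e))) hv)
  rw [H_right_inv hJ he hz0, H_right_inv hJ he hz0] at h4
  have h5 := L_H hJ hN he (J e z) hez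
  rw [hzz] at h5
  exact L_trans hN (L_trans hN h3 h4) h5

/-- the deviation vanishes -/
theorem Dv_eq_zero (w v : A) : Dv J e w v = 0 := by
  apply vanC_const hJ hN
  obtain ⟨R1, hR1⟩ := big hJ hN e 2
  obtain ⟨Q, hQ⟩ := vanC_two N R1 v
  have hV : VanC N (fun z => Dv J e z v) := by
    apply vanC_of_L hJ he hN 19 Q
    intro z hz
    obtain ⟨g1, g2⟩ := hQ z hz
    exact Lest_D' hJ he hN hT h2 (hR1 z g1) g2.le
  have hV' := vanC_sub hJ he hN (vanC_shift hJ hN hV w) hV
  have h5 : (fun _ : A => Dv J e w v) = (fun z => Dv J e (z + w) v - Dv J e z v) := by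
    funext z
    rw [Dv_addl hT]
    abel
  rw [h5]
  exact hV'

end

end Pool.Agent.HuaVal
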