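import Mathlib
import Pool.Agent.HuaVal.ChainD

/-!
# Hua systems with a valuation in a chain: the formula for the Hua maps
-/

set_option autoImplicit false

namespace Pool.Agent.HuaVal

/-- the deviation from `2 H x = V x ^ 2 - V (x ^ 2)` -/
noncomputable def Rr {A : Type*} [AddCommGroup A] (J : A → A → A) (e x c : A) : A :=
  Pl J e (H J e x e) e c - Pl J e x e (Pl J e x e c) + (H J e x c + H J e x c)

section

variable {A : Type*} [AddCommGroup A] {J : A → A → A} (hJ : JSys J) {e : A} (he : e ≠ 0)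
  (h2 : ∀ a : A, a + a = 0 → a = 0) (hT : ∀ x y z c, T3 J e x y z c = 0)
  (hD : ∀ x v, Dv J e x v = 0)

section

include hD

lemma P_e' (x v : A) : Pl J e x v e = Pl J e x e v := sub_eq_zero.mp (hD x v)

lemma V_symm (x v : A) : Pl J e x e v = Pl J e v e x := by
  rw [← P_e' hD, Pl_comm, P_e' hD]

end

include hJ he

/-- `P x x² = V x ∘ H x` -/
lemma P_sq (x w : A) : Pl J e x (H J e x e) w = Pl J e x e (H J e x w) := by
  by_cases hx : x = 0
  · rw [hx, P_zerol, P_zerol]
  have h := P_H hJ he x (J e x) e w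
  rw [H_inv_self hJ he] at h
  rw [h, V_inv' hJ he hx]

include h2 hT

/-- `H x` commutes with `V x²` -/
lemma Vsq_comm (x w : A) :
    Pl J e (H J e x e) e (H J e x w) = H J e x (Pl J e (H J e x e) e w) := by
  have h := comm_lin hJ he h2 hT x (H J e x e) w
  rw [P_sq hJ he, P_sq hJ he, V_comm hJ he x w] at h
  exact (add_right_cancel h).symm

/-- `H x` commutes with the deviation -/
lemma Rr_H (x c : A) : Rr J e x (H J e x c) = H J e x (Rr J e x c) := by
  rw [Rr, Rr, Vsq_comm hJ he h2 hT, V_comm hJ he, V_comm hJ he, H_add hJ he, H_sub hJ he,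
    H_add hJ he]

omit h2 in
lemma Rr_quad (z w c : A) : Rr J e (z + w) c + Rr J e (z - w) c - (Rr J e z c + Rr J e z c) =
    Rr J e w c + Rr J e w c := by
  have h1 : ∀ y, H J e (z - w) y = H J e z y + H J e w y - Pl J e z w y := by
    intro y
    rw [sub_eq_add_neg, H_addl (x := z) (y := -w), H_neg hJ, P_negr hT]
    abel
  have h3 : ∀ y, H J e (z + w) y = H J e z y + H J e w y + Pl J e z w y := fun y => H_addl z w y
  simp only [Rr, h1, h3, P_addl hT, P_subl hT, P_add hJ he, P_sub hJ he]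
  abel

include hD

omit h2 in
/-- the exact formula for the deviation -/
lemma Rr_formula {x v r : A} (hx : x ≠ 0) (hxv : x + v ≠ 0)
    (hr : r = H J e (J e x) (H J e v (J e (x + v)))) :
    Rr J e x (H J e (J e x) v) = Pl J e (H J e x e) e r -
      Pl J e (Pl J e x e v) e (H J e (J e x) v - r) + Pl J e (H J e v e) e (J e (x + v)) := by
  have k1 : ∀ y, y ≠ 0 → Pl J e (H J e y e) e (J e y) = y + y := by
    intro y hy
    rw [V_symm hD, ← V_inv hJ he hy, P_e hJ he]
  have k2 := k1 (x + v) hxv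
  have k3 : H J e (x + v) e = H J e x e + H J e v e + Pl J e x e v := by
    rw [H_addl (x := x) (y := v), P_e' hD]
  have k4 := i_add hJ he hT hx hxv
  rw [← hr] at k4
  have k5 : Pl J e (Pl J e x e v) e (J e x) = Pl J e x e (Pl J e x e (H J e (J e x) v)) := by
    have h1 : Pl J e x e v = H J e x (Pl J e x e (H J e (J e x) v)) := by
      rw [← V_comm hJ he, H_right_inv hJ he hx]
    rw [V_symm hD, h1, ← V_inv hJ he hx]
  rw [k3, P_addl hT, P_addl hT] at k2
  have k6 : Pl J e (H J e x e) e (J e (x + v)) =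
      x + x - Pl J e (H J e x e) e (H J e (J e x) v) + Pl J e (H J e x e) e r := by
    rw [k4, P_add hJ he, P_sub hJ he, k1 x hx]
  have k7 : Pl J e (Pl J e x e v) e (J e (x + v)) =
      Pl J e x e (Pl J e x e (H J e (J e x) v)) -
        Pl J e (Pl J e x e v) e (H J e (J e x) v - r) := by
    rw [k4, P_add hJ he, P_sub hJ he, k5, P_sub hJ he]
    abel
  rw [k6, k7] at k2
  rw [Rr, H_right_inv hJ he hx]
  have k8 := sub_eq_zero.mpr k2
  apply sub_eq_zero.mp
  rw [← neg_eq_zero, ← k8]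
  abel

end

section

variable {A : Type*} [AddCommGroup A] {J : A → A → A} {e : A}
  {C : Type*} [LinearOrder C] {N : A → C} {σ : C → C} (hJ : JSys J) (he : e ≠ 0)
  (hN : ChainNorm J N σ)

section

include hJ he hN

/-- first bound for products -/
lemma L_V1 {k : ℕ} {p q s : A} (hp : L N σ k p s) (hq : L N σ k q s) :
    L N σ (2 * k + 4) (Pl J e p q e) (H J e s e) := by
  have h1 := L_Hl hJ hN he e (L_add hN hp hq)
  have h3 := L_Hl hJ hN he e hp
  have h4 := L_Hl hJ hN he e hq
  have h5 := L_sub hJ hN (k := 2 * k + 2) (by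
    have : 2 * (k + 1) = 2 * k + 2 := by ring
    rwa [this] at h1) (L_mono hN h3 (by omega))
  have h6 := L_sub hJ hN h5 (L_mono hN h4 (by omega))
  exact h6

/-- second bound for products -/
lemma L_V2 {k : ℕ} {p s : A} (q : A) (hp : L N σ k p s) (hs : L N σ k e s) :
    L N σ (2 * k + 4) (Pl J e p e q) (H J e s q) := by
  have h1 := L_Hl hJ hN he q (L_add hN hp hs)
  have h3 := L_Hl hJ hN he q hp
  have h4 := L_Hl hJ hN he q hs
  have h5 := L_sub hJ hN (k := 2 * k + 2) (by
    have : 2 * (k + 1) = 2 * k + 2 := by ring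
    rwa [this] at h1) (L_mono hN h3 (by omega))
  have h6 := L_sub hJ hN h5 (L_mono hN h4 (by omega))
  exact h6

end

variable (h2 : ∀ a : A, a + a = 0 → a = 0) (hT : ∀ x y z c, T3 J e x y z c = 0)
  (hD : ∀ x v, Dv J e x v = 0)

include hJ he hN hT hD

/-- the estimate for the second deviation -/
lemma Lest_R {z v : A} (hze : ¬L N σ 1 z e) (hv : L N σ 0 v e) :
    L N σ 14 (Rr J e z (H J e (J e z) v)) (H J e z (H J e v (H J e z e))) := by
  have hz0 : z ≠ 0 := nL_ne hN hze
  have hez : L N σ 0 e z := L_of_not hN hze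
  have hzv1 : ¬L N σ 1 z v := fun h => hze (L_trans hN h hv)
  have zzv : L N σ 1 z (z + v) := Lq hN hJ hzv1
  have hzv0 : z + v ≠ 0 := Lq_ne hJ hN hzv1
  have i1 : L N σ 1 (J e (z + v)) (J e z) := L_J hN he hz0 hzv0 zzv
  have i4 : L N σ 0 (J e z) e := L_inv_e hJ he hN hz0 hez
  have hf := Rr_formula hJ he hT hD hz0 hzv0 rfl
  set t := J e (z + v) with ht
  set r := H J e (J e z) (H J e v t) with hr
  have r1 : L N σ 1 r (H J e (J e z) (H J e v (J e z))) :=
    L_H hJ hN he _ (L_H hJ hN he v i1)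
  clear_value r t
  have hzz : L N σ 0 e (H J e z e) := L_le_H hJ he hN hez e
  have hvv : L N σ 0 v (H J e z v) := L_le_H hJ he hN hez v
  -- the three terms
  have a1 : L N σ 5 (Pl J e (H J e z e) e r) (H J e z (H J e v (H J e z e))) := by
    have h1 := L_V2 hJ he hN r (L_refl hN 0 (H J e z e)) hzz
    rw [H_H' hJ he, H_self hJ he] at h1
    have h3 := L_H hJ hN he z (L_H hJ hN he z r1)
    rw [H_right_inv hJ he hz0] at h3
    have h4 := L_H hJ hN he z (L_H hJ hN he v (L_trans hN i4 hzz))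
    exact L_trans hN (L_trans hN h1 h3) h4
  have a2 : L N σ 12 (Pl J e (Pl J e z e v) e (H J e (J e z) v - r))
      (H J e z (H J e v (H J e z e))) := by
    have h1 : L N σ 4 (Pl J e z e v) (H J e z v) :=
      L_V2 hJ he hN v (L_refl hN 0 z) hez
    have h3 : L N σ 1 r (H J e z v) := by
      have g1 : L N σ 0 (H J e (J e z) (H J e v (J e z))) (H J e v (J e z)) :=
        L_H_le hJ he hN i4 _
      have g2 : L N σ 0 (H J e v (J e z)) (H J e v e) := L_H hJ hN he v i4
      exact L_trans hN (L_trans hN (L_trans hN (L_trans hN r1 g1) g2)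
        (L_sq_le hJ he hN hv)) hvv
    have h4 : L N σ 2 (H J e (J e z) v - r) (H J e z v) :=
      L_sub hJ hN (L_mono hN (L_trans hN (L_H_le hJ he hN i4 v) hvv) (by norm_num)) h3
    have h5 := L_V1 hJ he hN h1 (L_mono hN h4 (by norm_num : 2 ≤ 4))
    rw [P_e' hD, H_H' hJ he] at h5
    exact h5
  have a3 : L N σ 6 (Pl J e (H J e v e) e t) (H J e z (H J e v (H J e z e))) := by
    have h1 : L N σ 1 t e := L_trans hN i1 i4
    have h3 := L_V2 hJ he hN (H J e v e) h1 (L_refl hN 1 e)
    rw [V_symm hD, H_self hJ he] at h3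
    have h4 : L N σ 0 (H J e v e) (H J e z (H J e v (H J e z e))) :=
      L_trans hN (L_H hJ hN he v hzz) (L_le_H hJ he hN hez _)
    exact L_trans hN h3 h4
  rw [hf]
  exact L_add hN (L_sub hJ hN (L_mono hN a1 (by norm_num)) a2)
    (L_mono hN a3 (by norm_num))

include h2

lemma Lest_R' {z v : A} (hze : ¬L N σ 1 z e) (hv : L N σ 0 v z) :
    L N σ 14 (Rr J e z v) (J e z) := by
  have hz0 : z ≠ 0 := nL_ne hN hze
  have hez : L N σ 0 e z := L_of_not hN hze
  have i4 : L N σ 0 (J e z) e := L_inv_e hJ he hN hz0 hez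
  have hzz : H J e (J e z) z = J e z := by
    have h7 := H_inv_self hJ he (J e z)
    rwa [hJ.inv e z he] at h7
  set v' := H J e (J e z) (H J e (J e z) (H J e (J e z) (H J e (J e z)
    (H J e (J e z) v)))) with hv'
  have hv1 : L N σ 0 v' e := by
    have h1 : L N σ 0 (H J e (J e z) v) e := by
      have h3 := L_H hJ hN he (J e z) hv
      rw [hzz] at h3
      exact L_trans hN h3 i4
    exact L_trans hN (L_trans hN (L_trans hN (L_trans hN (L_H_le hJ he hN i4 _)
      (L_H_le hJ he hN i4 _)) (L_H_le hJ he hN i4 _)) (L_H_le hJ he hN i4 _)) h1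
  have hvv : v = H J e z (H J e z (H J e z (H J e z (H J e z (H J e z
      (H J e (J e z) v')))))) := by
    rw [hv', H_right_inv hJ he hz0, H_right_inv hJ he hz0, H_right_inv hJ he hz0,
      H_right_inv hJ he hz0, H_right_inv hJ he hz0, H_right_inv hJ he hz0]
  have hR : Rr J e z v = H J e z (H J e z (H J e z (H J e z (H J e z (H J e z
      (Rr J e z (H J e (J e z) v'))))))) := by
    conv_lhs => rw [hvv]
    rw [Rr_H hJ he h2 hT, Rr_H hJ he h2 hT, Rr_H hJ he h2 hT, Rr_H hJ he h2 hT,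
      Rr_H hJ he h2 hT, Rr_H hJ he h2 hT]
  have h1 := Lest_R hJ he hN hT hD hze hv1
  have h3 := L_H hJ hN he z (L_H hJ hN he z (L_H hJ hN he z (L_H hJ hN he z
    (L_H hJ hN he z (L_H hJ hN he z h1)))))
  rw [← hR, hv'] at h3
  simp only [H_H' hJ he] at h3
  rw [H_left_inv hJ he hz0, H_right_inv hJ he hz0, H_right_inv hJ he hz0,
    H_right_inv hJ he hz0, H_right_inv hJ he hz0, H_right_inv hJ he hz0] at h3
  have h4 := L_H hJ hN he z (L_H hJ hN he z
    (L_Hl hJ hN he (H J e (J e z) (H J e (J e z) (H J e (J e z) (H J e (J e z) e)))) hv))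
  rw [H_right_inv hJ he hz0, H_right_inv hJ he hz0, H_right_inv hJ he hz0] at h4
  have h5 := L_H hJ hN he (J e z) hez
  rw [hzz] at h5
  exact L_trans hN (L_trans hN h3 h4) h5

/-- the second deviation vanishes -/
theorem Rr_eq_zero (w v : A) : Rr J e w v = 0 := by
  apply h2
  apply vanC_const hJ hN
  obtain ⟨R1, hR1⟩ := big hJ hN e 1
  obtain ⟨Q, hQ⟩ := vanC_two N R1 v
  have hV : VanC N (fun z => Rr J e z v) := by
    apply vanC_of_L hJ he hN 14 Q
    intro z hz
    obtain ⟨g1, g2⟩ := hQ z hz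
    exact Lest_R' hJ he hN h2 hT hD (hR1 z g1) g2.le
  have hV' := vanC_sub hJ he hN (vanC_add hJ he hN (vanC_shift hJ hN hV w)
    (vanC_shift hJ hN hV (-w))) (vanC_add hJ he hN hV hV)
  have h5 : (fun _ : A => Rr J e w v + Rr J e w v) = (fun z => (Rr J e (z + w) v +
      Rr J e (z + -w) v) - (Rr J e z v + Rr J e z v)) := by
    funext z
    rw [← Rr_quad hJ he hT z w v, ← sub_eq_add_neg]
  rw [h5]
  exact hV'

end

end Pool.Agent.HuaVal
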