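import Mathlib
import Pool.Agent.HuaVal.ChainR

/-!
# From the multiplication formula for the Hua maps to the Jordan identities
-/

set_option autoImplicit false

namespace Pool.Agent.HuaVal

section

variable {A : Type*} [AddCommGroup A] {J : A → A → A} (hJ : JSys J) {e : A} (he : e ≠ 0)
  (h2 : ∀ a : A, a + a = 0 → a = 0) (hT : ∀ x y z c, T3 J e x y z c = 0)
  (hD : ∀ x v, Dv J e x v = 0) (hR : ∀ x v, Rr J e x v = 0)

section

include hR

/-- the formula for the Hua maps -/
lemma two_H (x c : A) : H J e x c + H J e x c =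
    Pl J e x e (Pl J e x e c) - Pl J e (H J e x e) e c := by
  have h := hR x c
  rw [Rr] at h
  apply sub_eq_zero.mp
  rw [← h]
  abel

end

include hJ he hR

/-- the Jordan identity -/
lemma jordan_id (x c : A) : Pl J e x e (Pl J e (H J e x e) e c) =
    Pl J e (H J e x e) e (Pl J e x e c) := by
  have h : ∀ c, Pl J e (H J e x e) e c =
      Pl J e x e (Pl J e x e c) - (H J e x c + H J e x c) := by
    intro c
    rw [two_H hR]
    abel
  rw [h, h, P_sub hJ he, P_add hJ he, V_comm hJ he]

include hT hD h2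

/-- the linearised Jordan identity -/
lemma jordan_lin (x z c : A) :
    Pl J e z e (Pl J e (H J e x e) e c) - Pl J e (H J e x e) e (Pl J e z e c) +
      Pl J e x e (Pl J e (Pl J e x e z) e c) - Pl J e (Pl J e x e z) e (Pl J e x e c) = 0 := by
  have K : ∀ z, (Pl J e z e (Pl J e (H J e x e) e c) - Pl J e (H J e x e) e (Pl J e z e c) +
      Pl J e x e (Pl J e (Pl J e x e z) e c) - Pl J e (Pl J e x e z) e (Pl J e x e c)) +
      (Pl J e x e (Pl J e (H J e z e) e c) - Pl J e (H J e z e) e (Pl J e x e c) +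
      Pl J e z e (Pl J e (Pl J e x e z) e c) - Pl J e (Pl J e x e z) e (Pl J e z e c)) = 0 := by
    intro z
    have h := jordan_id hJ he hR (x + z) c
    have hx := jordan_id hJ he hR x c
    have hz := jordan_id hJ he hR z c
    have hs : H J e (x + z) e = H J e x e + H J e z e + Pl J e x e z := by
      rw [H_addl (x := x) (y := z), P_e' hD]
    rw [hs] at h
    simp only [P_addl hT, P_add hJ he] at h
    rw [hx, hz] at h
    have h' := sub_eq_zero.mpr h
    rw [← h']
    abel
  have k1 := K z
  have k2 := K (-z)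
  simp only [P_negl hT, H_neg hJ, P_neg hJ he, neg_neg] at k2
  apply h2
  have k3 := congrArg₂ (fun a b => a - b) k1 k2
  simp only [sub_zero] at k3
  rw [← k3]
  abel

lemma jordan_lin' (x y z c : A) :
    Pl J e z e (Pl J e (Pl J e x e y) e c) - Pl J e (Pl J e x e y) e (Pl J e z e c) +
      Pl J e x e (Pl J e (Pl J e y e z) e c) - Pl J e (Pl J e y e z) e (Pl J e x e c) +
      Pl J e y e (Pl J e (Pl J e x e z) e c) - Pl J e (Pl J e x e z) e (Pl J e y e c) = 0 := by
  have h1 := jordan_lin hJ he h2 hT hD hR (x + y) z c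
  have hx := jordan_lin hJ he h2 hT hD hR x z c
  have hy := jordan_lin hJ he h2 hT hD hR y z c
  have hs : H J e (x + y) e = H J e x e + H J e y e + Pl J e x e y := by
    rw [H_addl (x := x) (y := y), P_e' hD]
  rw [hs] at h1
  simp only [P_addl hT, P_add hJ he] at h1
  have h3 := congrArg₂ (fun a b => a - b) (congrArg₂ (fun a b => a - b) h1 hx) hy
  simp only [sub_zero] at h3
  rw [← h3]
  abel

/-- the operator form -/
lemma star (y u c : A) :
    Pl J e (Pl J e (Pl J e y e u) e y) e c - Pl J e (Pl J e y e u) e (Pl J e y e c) +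
      Pl J e y e (Pl J e y e (Pl J e u e c)) + Pl J e u e (Pl J e y e (Pl J e y e c)) -
      (Pl J e (H J e y e) e (Pl J e u e c) + Pl J e (H J e y e) e (Pl J e u e c)) -
      Pl J e (Pl J e y e u) e (Pl J e y e c) = 0 := by
  have h := jordan_lin' hJ he h2 hT hD hR y u c y
  have s := fun a b => V_symm hD a b
  have e1 : Pl J e c e (Pl J e (Pl J e y e u) e y) =
      Pl J e (Pl J e (Pl J e y e u) e y) e c := s _ _
  have e2 : Pl J e (Pl J e y e u) e (Pl J e c e y) =
      Pl J e (Pl J e y e u) e (Pl J e y e c) := by rw [s c y]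
  have e3 : Pl J e (Pl J e u e c) e y = Pl J e y e (Pl J e u e c) := s _ _
  have e4 : Pl J e (Pl J e y e c) e y = Pl J e y e (Pl J e y e c) := s _ _
  have e5 : Pl J e (Pl J e u e c) e (Pl J e y e y) =
      Pl J e (H J e y e) e (Pl J e u e c) + Pl J e (H J e y e) e (Pl J e u e c) := by
    rw [s, V_self hJ he, P_addl hT]
  have e6 : Pl J e (Pl J e y e c) e (Pl J e u e y) =
      Pl J e (Pl J e y e u) e (Pl J e y e c) := by rw [s, s u y]
  rw [e1, e2, e3, e4, e5, e6] at h
  rw [← h]
  abel

/-- the linearised fundamental formula at the unit -/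
lemma fund_one (u y c : A) : Pl J e y (Pl J e u e y) c =
    Pl J e u e (H J e y c) + H J e y (Pl J e u e c) := by
  -- the polarised formula
  have hp : ∀ a b, Pl J e a b c + Pl J e a b c = Pl J e a e (Pl J e b e c) +
      Pl J e b e (Pl J e a e c) - Pl J e (Pl J e a e b) e c := by
    intro a b
    have h1 := two_H hR (a + b) c
    have h3 := two_H hR a c
    have h4 := two_H hR b c
    have hs : H J e (a + b) e = H J e a e + H J e b e + Pl J e a e b := by
      rw [H_addl (x := a) (y := b), P_e' hD]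
    rw [hs] at h1
    simp only [P_addl hT, P_add hJ he] at h1
    have h5 : Pl J e a b c + Pl J e a b c = (H J e (a + b) c + H J e (a + b) c) -
        (H J e a c + H J e a c) - (H J e b c + H J e b c) := by
      rw [Pl]
      abel
    rw [h5, h1, h3, h4]
    abel
  have k1 := hp y (Pl J e u e y)
  have k2 := two_H hR y c
  have k3 := two_H hR y (Pl J e u e c)
  have k4 := star hJ he h2 hT hD hR y u c
  have k5 := jordan_lin hJ he h2 hT hD hR y u c
  have s := fun a b => V_symm hD a b
  have e1 : Pl J e (Pl J e y e (Pl J e u e y)) e c =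
      Pl J e (Pl J e (Pl J e y e u) e y) e c := by rw [s u y, s y (Pl J e y e u)]
  rw [e1, s u y] at k1
  rw [s u y]
  have k6 : Pl J e u e (H J e y c) + Pl J e u e (H J e y c) =
      Pl J e u e (Pl J e y e (Pl J e y e c)) - Pl J e u e (Pl J e (H J e y e) e c) := by
    rw [← P_add hJ he, k2, P_sub hJ he]
  apply sub_eq_zero.mp
  apply h2
  have k7 : Pl J e y (Pl J e y e u) c - (Pl J e u e (H J e y c) + H J e y (Pl J e u e c)) +
      (Pl J e y (Pl J e y e u) c - (Pl J e u e (H J e y c) + H J e y (Pl J e u e c))) =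
      (Pl J e y (Pl J e y e u) c + Pl J e y (Pl J e y e u) c) -
      (Pl J e u e (H J e y c) + Pl J e u e (H J e y c)) -
      (H J e y (Pl J e u e c) + H J e y (Pl J e u e c)) := by abel
  rw [k7, k1, k6, k3]
  have k8 := congrArg₂ (fun a b => a - b) k5 k4
  simp only [sub_zero] at k8
  rw [← k8]
  abel

end

section

variable {A : Type*} [AddCommGroup A] {J : A → A → A} (hJ : JSys J) {e : A} (he : e ≠ 0)

include hJ he

/-- change of base -/
lemma H_base {f : A} (hf : f ≠ 0) (a y : A) :
    H J f a y = H J e a (H J e (J e f) y) := by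
  by_cases ha : a = 0
  · rw [ha, H_zero_left, H_zero_left]
  have hif := J_ne_zero hJ he hf
  rw [H_of_ne ha, H_of_ne ha, H_of_ne hif, hJ.comp e f _ he hf, hJ.inv e _ he, hJ.inv e _ he]

lemma P_base {f : A} (hf : f ≠ 0) (a b y : A) :
    Pl J f a b y = Pl J e a b (H J e (J e f) y) := by
  rw [Pl, Pl, H_base hJ he hf, H_base hJ he hf, H_base hJ he hf]

variable (h2 : ∀ a : A, a + a = 0 → a = 0)
  (hT : ∀ e, e ≠ 0 → ∀ x y z c, T3 J e x y z c = 0)
  (hD : ∀ e, e ≠ 0 → ∀ x v, Dv J e x v = 0)
  (hR : ∀ e, e ≠ 0 → ∀ x v, Rr J e x v = 0)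

section

include h2 hT hD hR

/-- the linearised fundamental formula -/
theorem fund_lin (x v y c : A) : Pl J e (H J e x y) (Pl J e x v y) c =
    Pl J e x v (H J e y (H J e x c)) + H J e x (H J e y (Pl J e x v c)) := by
  by_cases hx : x = 0
  · rw [hx, H_zero_left, H_zero_left, P_zerol, P_zerol, H_zero_left, add_zero]
  have h := fund_one hJ hx h2 (hT x hx) (hD x hx) (hR x hx) v (H J e x y) (H J e x c)
  simp only [P_base hJ he hx, H_base hJ he hx] at h
  rw [H_left_inv hJ he hx, H_left_inv hJ he hx, H_H' hJ he, H_left_inv hJ he hx,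
    H_H' hJ he, H_right_inv hJ he hx] at h
  rw [Pl_comm J e x v, Pl_comm J e x v, Pl_comm J e x v, h]

end

include hD

/-- the symmetry -/
lemma symm_a {a : A} (ha : a ≠ 0) (x y : A) :
    Pl J e x y a = Pl J e x (J e a) (H J e a y) := by
  have hw := J_ne_zero hJ he ha
  have h := P_e' (hD _ hw) x y
  rw [P_base hJ he hw, P_base hJ he hw, hJ.inv e a he, H_inv_self hJ he] at h
  exact h

/-- the second Jordan identity -/
theorem second_id (a b c : A) : H J e a (Pl J e b c a) = Pl J e a (H J e a c) b := by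
  by_cases ha : a = 0
  · rw [ha, H_zero_left, P_zerol]
  have h := P_H hJ he a (J e a) c b
  rw [H_inv_self hJ he] at h
  rw [h, Pl_comm J e b c, symm_a hJ he hD ha, Pl_comm J e c]

end

end Pool.Agent.HuaVal
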