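import Mathlib
import Pool.Agent.HuaVal.Lin

/-!
# Topological Hua systems: the derivative of the Hua maps
-/

set_option autoImplicit false

open Filter Topology

namespace Pool.Agent.HuaVal

/-- the standing hypotheses -/
structure TopHyp {A : Type*} [AddCommGroup A] [TopologicalSpace A] (J : A → A → A) (e : A)
    (K : Type*) [Field K] [Module K A] (l : Filter K) : Prop where
  hK : ∀ (a x : A) (t : K), a ≠ 0 → t ≠ 0 → J a (t • x) = t⁻¹ • J a x
  l0 : ∀ᶠ t in l, t ≠ 0
  lim : ∀ n : ℕ, n ≠ 0 → ∀ a : A, Tendsto (fun t : K => t ^ n • a) l (𝓝 0)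
  cont : ∀ x : A, x ≠ 0 → ContinuousAt (J e) x

section

variable {A : Type*} [AddCommGroup A] [TopologicalSpace A] [IsTopologicalAddGroup A]
  [T2Space A] {J : A → A → A} (hJ : JSys J) {e : A} (he : e ≠ 0)
  {K : Type*} [Field K] [Module K A] {l : Filter K} [l.NeBot] (hT : TopHyp J e K l)

section

include hT

omit [IsTopologicalAddGroup A] [T2Space A] [l.NeBot] in
lemma lim1 (a : A) : Tendsto (fun t : K => t • a) l (𝓝 0) := by
  have h := hT.lim 1 one_ne_zero a
  simpa only [pow_one] using h

include he in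
omit [IsTopologicalAddGroup A] in
lemma inf_A : Infinite A := by
  by_contra h
  rw [not_infinite_iff_finite] at h
  have := h
  have h1 := lim1 hT e
  rw [nhds_discrete A, tendsto_pure] at h1
  obtain ⟨t, ht1, ht2⟩ := (h1.and hT.l0).exists
  exact (smul_ne_zero ht2 he) ht1

include he in
omit [IsTopologicalAddGroup A] in
lemma inf_K : Infinite K := by
  classical
  by_contra h
  rw [not_infinite_iff_finite] at h
  have := h
  have h1 := lim1 hT e
  have hfin : (Set.range (fun t : {t : K // t ≠ 0} => (t : K) • e)).Finite :=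
    Set.finite_range _
  have h0 : (0 : A) ∉ Set.range (fun t : {t : K // t ≠ 0} => (t : K) • e) := by
    rintro ⟨t, ht⟩
    exact (smul_ne_zero t.2 he) ht
  have h2 := hfin.isClosed.isOpen_compl.mem_nhds h0
  obtain ⟨t, ht1, ht2⟩ := ((h1.eventually h2).and hT.l0).exists
  exact ht1 ⟨⟨t, ht2⟩, rfl⟩

include he in
omit [IsTopologicalAddGroup A] in
lemma avoid (S : Finset A) : ∃ u, u ∉ S := by
  have := inf_A he hT
  exact Infinite.exists_notMem_finset S

end

section

include hJ he hT

omit [l.NeBot] in
/-- joint continuity -/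
lemma tendsto_J {α : Type*} {l' : Filter α} {X Y : α → A} {x y : A}
    (hX : Tendsto X l' (𝓝 x)) (hY : Tendsto Y l' (𝓝 y)) (hx : x ≠ 0) (hy : y ≠ 0)
    (hxy : x ≠ y) : Tendsto (fun t => J (X t) (Y t)) l' (𝓝 (J x y)) := by
  have e1 := hX.eventually_ne hx
  have e2 := hY.eventually_ne hy
  have e3 : ∀ᶠ t in l', X t ≠ Y t := by
    have h := (hX.sub hY).eventually_ne (sub_ne_zero.mpr hxy)
    filter_upwards [h] with t ht
    exact sub_ne_zero.mp ht
  have hin : J e x - J e (x - y) ≠ 0 := by
    intro h
    apply hy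
    have h1 := congrArg (J e) (sub_eq_zero.mp h)
    rw [hJ.inv e _ he, hJ.inv e _ he] at h1
    have h2 : y = x - (x - y) := by abel
    rw [h2, ← h1, sub_self]
  have h1 : Tendsto (fun t => X t - J e (J e (X t) - J e (X t - Y t))) l'
      (𝓝 (x - J e (J e x - J e (x - y)))) := by
    refine hX.sub ((hT.cont _ hin).tendsto.comp ?_)
    refine ((hT.cont x hx).tendsto.comp hX).sub ?_
    exact (hT.cont _ (sub_ne_zero.mpr hxy)).tendsto.comp (hX.sub hY)
  rw [← hJ.hua e x y he hx hy hxy] at h1
  refine h1.congr' ?_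
  filter_upwards [e1, e2, e3] with t h1 h2 h3
  exact (hJ.hua e (X t) (Y t) he h1 h2 h3).symm

/-- the Hua maps are continuous -/
lemma cont_H (g : A) : Continuous (H J e g) := by
  by_cases hg : g = 0
  · have h : H J e g = fun _ => 0 := by
      funext y
      rw [hg, H_zero_left]
    rw [h]
    exact continuous_const
  classical
  have hig := J_ne_zero hJ he hg
  obtain ⟨y0, hy0⟩ := avoid he hT {0, J e g}
  simp only [Finset.mem_insert, Finset.mem_singleton, not_or] at hy0
  have hy : J e y0 ≠ 0 := J_ne_zero hJ he hy0.1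
  have hne : g ≠ J e y0 := by
    intro h
    apply hy0.2
    rw [h, hJ.inv e _ he]
  have hc : Tendsto (H J e g) (𝓝 y0) (𝓝 (H J e g y0)) := by
    have h := tendsto_J hJ he hT (tendsto_const_nhds (x := g)) (hT.cont y0 hy0.1).tendsto
      hg hy hne
    simpa only [← H_of_ne (J := J) (e := e) hg] using h
  rw [continuous_iff_continuousAt]
  intro z
  have h1 : Tendsto (fun w => H J e g (w - z + y0) + H J e g (z - y0)) (𝓝 z)
      (𝓝 (H J e g y0 + H J e g (z - y0))) := by
    refine Tendsto.add ?_ tendsto_const_nhds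
    refine hc.comp ?_
    have h2 : Tendsto (fun w => w - z + y0) (𝓝 z) (𝓝 (z - z + y0)) :=
      (tendsto_id.sub tendsto_const_nhds).add tendsto_const_nhds
    rwa [sub_self, zero_add] at h2
  have h3 : ∀ w, H J e g (w - z + y0) + H J e g (z - y0) = H J e g w := by
    intro w
    rw [← H_add hJ he]
    congr 1
    abel
  simp only [h3] at h1
  have h4 : H J e g y0 + H J e g (z - y0) = H J e g z := by
    rw [← H_add hJ he]
    congr 1
    abel
  rw [h4] at h1
  exact h1

omit [l.NeBot] in
private lemma deriv_i_gen {X V : K → A} {x v : A} (hX : Tendsto X l (𝓝 x)) (hx : x ≠ 0)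
    (hV : Tendsto V l (𝓝 v)) (hX0 : Tendsto (fun t => t • X t) l (𝓝 0))
    (hV0 : Tendsto (fun t => t • V t) l (𝓝 0)) (hv : v ≠ 0) (hxv : x ≠ v) :
    Tendsto (fun t => t⁻¹ • (J e (X t + t • V t) - J e (X t))) l
      (𝓝 (-H J e (J e x) v)) := by
  have e1 := hX.eventually_ne hx
  have e2 := hV.eventually_ne hv
  have e3 : ∀ᶠ t in l, X t + t • V t ≠ 0 := by
    have h := hX.add hV0
    rw [add_zero] at h
    exact h.eventually_ne hx
  have h1 : Tendsto (fun t => t • X t + J (X t) (V t)) l (𝓝 (J x v)) := by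
    have h := hX0.add (tendsto_J hJ he hT hX hV hx hv hxv)
    rwa [zero_add] at h
  have h2 : Tendsto (fun t => -J e (t • X t + J (X t) (V t))) l (𝓝 (-J e (J x v))) :=
    ((hT.cont _ (J_ne_zero hJ hx hv)).tendsto.comp h1).neg
  have h3 : J e (J x v) = H J e (J e x) v := by
    rw [H_of_ne (J_ne_zero hJ he hx), hJ.comp e x _ he hx, hJ.inv e v he]
  rw [h3] at h2
  refine h2.congr' ?_
  filter_upwards [e1, e2, e3, hT.l0] with t h4 h5 h6 h7
  have h8 := i_sub_i hJ he h4 (smul_ne_zero h7 h5) h6
  rw [hT.hK e _ t he h7, H_smul hJ he hT.hK, H_of_ne h4, hJ.inv e _ he] at h8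
  have h9 : X t + t⁻¹ • J (X t) (V t) = t⁻¹ • (t • X t + J (X t) (V t)) := by
    rw [smul_add, smul_smul, inv_mul_cancel₀ h7, one_smul]
  rw [h9, hT.hK e _ _ he (inv_ne_zero h7), inv_inv] at h8
  have h10 : J e (X t + t • V t) - J e (X t) = -(J e (X t) - J e (X t + t • V t)) := by abel
  rw [h10, h8, smul_neg, smul_smul, inv_mul_cancel₀ h7, one_smul]

/-- strict differentiability of the inversion -/
lemma deriv_i {X V : K → A} {x v : A} (hX : Tendsto X l (𝓝 x)) (hx : x ≠ 0)
    (hV : Tendsto V l (𝓝 v)) (hX0 : Tendsto (fun t => t • X t) l (𝓝 0))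
    (hV0 : Tendsto (fun t => t • V t) l (𝓝 0)) :
    Tendsto (fun t => t⁻¹ • (J e (X t + t • V t) - J e (X t))) l
      (𝓝 (-H J e (J e x) v)) := by
  classical
  obtain ⟨u, hu⟩ := avoid he hT {0, -x, -v, x - v}
  simp only [Finset.mem_insert, Finset.mem_singleton, not_or] at hu
  obtain ⟨hu1, hu2, hu3, hu4⟩ := hu
  have hXu : Tendsto (fun t => X t - t • u) l (𝓝 x) := by
    have h := hX.sub (lim1 hT u)
    rwa [sub_zero] at h
  have hXu0 : Tendsto (fun t => t • (X t - t • u)) l (𝓝 0) := by
    have h := hX0.sub (hT.lim 2 two_ne_zero u)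
    rw [sub_zero] at h
    refine h.congr ?_
    intro t
    rw [smul_sub, smul_smul, sq]
  have hVu0 : Tendsto (fun t => t • (V t + u)) l (𝓝 0) := by
    have h := hV0.add (lim1 hT u)
    rw [add_zero] at h
    refine h.congr ?_
    intro t
    rw [smul_add]
  have g1 := deriv_i_gen hJ he hT hXu hx (hV.add_const u) hXu0 hVu0
    (by
      intro h
      apply hu3
      rw [add_comm] at h
      exact eq_neg_of_add_eq_zero_left h)
    (by
      intro h
      apply hu4
      rw [h]
      abel)
  have g2 := deriv_i_gen hJ he hT hX hx (tendsto_const_nhds (x := -u)) hX0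
    (by
      have h := (lim1 hT (-u))
      exact h)
    (neg_ne_zero.mpr hu1)
    (by
      intro h
      apply hu2
      rw [h, neg_neg])
  have g3 := g1.add g2
  have e1 : -H J e (J e x) (v + u) + -H J e (J e x) (-u) = -H J e (J e x) v := by
    rw [H_add hJ he, H_negr hJ he]
    abel
  rw [e1] at g3
  refine g3.congr ?_
  intro t
  have e2 : X t - t • u + t • (V t + u) = X t + t • V t := by
    rw [smul_add]
    abel
  have e3 : X t + t • -u = X t - t • u := by
    rw [smul_neg]
    abel
  rw [e2, e3, ← smul_add]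
  congr 1
  abel

/-- the derivative of the Hua maps -/
lemma deriv_H {x y : A} (v : A) (hx : x ≠ 0) (hxy : x + J e y ≠ 0) :
    Tendsto (fun t : K => t⁻¹ • (H J e (x + t • v) y - H J e x y)) l
      (𝓝 (H J e x (Pl J e (J e x) y v))) := by
  by_cases hy : y = 0
  · have h0 : H J e x (Pl J e (J e x) y v) = 0 := by
      rw [hy, Pl, add_zero, H_zero_left, sub_self, sub_zero, H_zero_right hJ he]
    rw [h0]
    have h1 : (fun t : K => t⁻¹ • (H J e (x + t • v) y - H J e x y)) = fun _ => 0 := by
      funext t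
      rw [hy, H_zero_right hJ he, H_zero_right hJ he, sub_zero, smul_zero]
    rw [h1]
    exact tendsto_const_nhds
  have hiy := J_ne_zero hJ he hy
  have hix := J_ne_zero hJ he hx
  -- the formula for the Hua map
  have hform : ∀ X : A, X ≠ 0 → X + J e y ≠ 0 →
      H J e X y = J e (J e X - J e (X + J e y)) - X := by
    intro X hX hXy
    have h := i_sub_i hJ he hX hiy hXy
    rw [hJ.inv e y he] at h
    rw [h, hJ.inv e _ he]
    abel
  have hD0 : J e x - J e (x + J e y) ≠ 0 := by
    intro h
    have h1 := congrArg (J e) (sub_eq_zero.mp h)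
    rw [hJ.inv e _ he, hJ.inv e _ he] at h1
    apply hiy
    simpa using h1
  have hlv := lim1 hT v
  -- the two inner difference quotients
  have hx0 : Tendsto (fun t : K => t • x) l (𝓝 0) := lim1 hT x
  have p := deriv_i hJ he hT (tendsto_const_nhds (x := x)) hx (tendsto_const_nhds (x := v))
    hx0 hlv
  have q := deriv_i hJ he hT (tendsto_const_nhds (x := x + J e y)) hxy
    (tendsto_const_nhds (x := v)) (lim1 hT _) hlv
  set P : K → A := fun t => t⁻¹ • (J e (x + t • v) - J e x) with hP
  set Q : K → A := fun t => t⁻¹ • (J e (x + J e y + t • v) - J e (x + J e y)) with hQ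
  have hPQ0 : Tendsto (fun t => t • (P t - Q t)) l (𝓝 0) := by
    have a1 : Tendsto (fun t : K => x + t • v) l (𝓝 x) := by
      have h := (tendsto_const_nhds (x := x)).add hlv
      rwa [add_zero] at h
    have a2 : Tendsto (fun t : K => x + J e y + t • v) l (𝓝 (x + J e y)) := by
      have h := (tendsto_const_nhds (x := x + J e y)).add hlv
      rwa [add_zero] at h
    have a3 := ((hT.cont x hx).tendsto.comp a1).sub (tendsto_const_nhds (x := J e x))
    have a4 := ((hT.cont _ hxy).tendsto.comp a2).sub
      (tendsto_const_nhds (x := J e (x + J e y)))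
    have a5 := a3.sub a4
    rw [sub_self, sub_self, sub_zero] at a5
    refine a5.congr' ?_
    filter_upwards [hT.l0] with t ht
    simp only [hP, hQ, Function.comp_apply]
    rw [smul_sub, smul_smul, smul_smul, mul_inv_cancel₀ ht, one_smul, one_smul]
  have r := deriv_i hJ he hT (tendsto_const_nhds (x := J e x - J e (x + J e y))) hD0
    (p.sub q) (lim1 hT _) hPQ0
  have r2 := r.sub (tendsto_const_nhds (x := v))
  -- the value of the limit
  have hval : -H J e (J e (J e x - J e (x + J e y)))
      (-H J e (J e x) v - -H J e (J e (x + J e y)) v) - v =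
      H J e x (Pl J e (J e x) y v) := by
    have hz : J e x + y ≠ 0 := by
      intro h
      apply hxy
      have h1 : y = -J e x := by
        rw [add_comm] at h
        exact eq_neg_of_add_eq_zero_left h
      rw [h1, i_neg hJ he, hJ.inv e x he, add_neg_cancel]
    have f := i_sub_i hJ he hx hiy hxy
    rw [hJ.inv e y he] at f
    have f2 : J e (J e x - J e (x + J e y)) = H J e x (J e x + y) := by
      rw [f, hJ.inv e _ he, H_add hJ he, H_inv_self hJ he]
    set b := H J e (J e (x + J e y)) v with hb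
    have k1 : H J e (J e x + y) (H J e x b) = H J e y v := by
      have h1 := H_add_H hJ he hiy hx b
      rw [hJ.inv e y he, add_comm (J e y) x, add_comm y (J e x), hb, H_right_inv hJ he hxy,
        ← hb] at h1
      rw [h1, H_right_inv hJ he hy]
    have k2 : H J e (H J e x (J e x + y)) (H J e (J e x) v) =
        H J e x (H J e (J e x + y) v) := by
      rw [H_H hJ he hx hz, H_right_inv hJ he hx]
    have k3 : H J e (H J e x (J e x + y)) b = H J e x (H J e y v) := by
      rw [H_H hJ he hx hz, k1]
    rw [f2, sub_neg_eq_add, H_add hJ he, H_negr hJ he, k2, k3, Pl, H_sub hJ he, H_sub hJ he,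
      H_right_inv hJ he hx]
    abel
  rw [hval] at r2
  refine r2.congr' ?_
  have e1 : ∀ᶠ t in l, x + t • v ≠ 0 := by
    have h := (tendsto_const_nhds (x := x)).add hlv
    rw [add_zero] at h
    exact h.eventually_ne hx
  have e2 : ∀ᶠ t in l, x + t • v + J e y ≠ 0 := by
    have h := ((tendsto_const_nhds (x := x)).add hlv).add (tendsto_const_nhds (x := J e y))
    rw [add_zero] at h
    exact h.eventually_ne hxy
  filter_upwards [e1, e2, hT.l0] with t h1 h2 h3
  rw [hform _ h1 h2, hform x hx hxy]
  have e3 : J e x - J e (x + J e y) + t • (P t - Q t) =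
      J e (x + t • v) - J e (x + t • v + J e y) := by
    have e4 : x + t • v + J e y = x + J e y + t • v := by abel
    simp only [hP, hQ]
    rw [smul_sub, smul_smul, smul_smul, mul_inv_cancel₀ h3, one_smul, one_smul, e4]
    abel
  rw [e3]
  have e5 : J e (J e (x + t • v) - J e (x + t • v + J e y)) - (x + t • v) -
      (J e (J e x - J e (x + J e y)) - x) =
      (J e (J e (x + t • v) - J e (x + t • v + J e y)) - J e (J e x - J e (x + J e y))) -
        t • v := by abel
  rw [e5, smul_sub t⁻¹ _ (t • v), smul_smul, inv_mul_cancel₀ h3, one_smul]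

end

end

end Pool.Agent.HuaVal
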