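import Mathlib
import Pool.Agent.HuaVal.Top

/-!
# Topological Hua systems: the Hua maps are quadratic
-/

set_option autoImplicit false

open Filter Topology

namespace Pool.Agent.HuaVal

section

variable {A : Type*} [AddCommGroup A] [TopologicalSpace A] [IsTopologicalAddGroup A]
  [T2Space A] {J : A → A → A} (hJ : JSys J) {e : A} (he : e ≠ 0)
  {K : Type*} [Field K] [Module K A] {l : Filter K} [l.NeBot] (hT : TopHyp J e K l)

include hJ he

omit [TopologicalSpace A] [IsTopologicalAddGroup A] [T2Space A] in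
lemma ne_of_ne_neg {x y : A} (h : y ≠ -J e x) : x + J e y ≠ 0 := by
  intro h1
  apply h
  have h2 : J e y = J e (-J e x) := by
    rw [i_neg hJ he, hJ.inv e x he]
    rw [add_comm] at h1
    exact eq_neg_of_add_eq_zero_left h1
  have h3 := congrArg (J e) h2
  rwa [hJ.inv e _ he, hJ.inv e _ he] at h3

include hT

lemma T3_gen {z a b : A} (c : A) (hz : z ≠ 0) (ha : a ≠ -z) (hb : b ≠ -z)
    (hab : a + b ≠ -z) : T3 J e a b z c = 0 := by
  set x := J e z with hx
  have hx0 : x ≠ 0 := J_ne_zero hJ he hz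
  have hxz : J e x = z := hJ.inv e z he
  have d1 := deriv_H hJ he hT c hx0 (ne_of_ne_neg hJ he (x := x) (y := a + b) (by rwa [hxz]))
  have d2 := deriv_H hJ he hT c hx0 (ne_of_ne_neg hJ he (x := x) (y := a) (by rwa [hxz]))
  have d3 := deriv_H hJ he hT c hx0 (ne_of_ne_neg hJ he (x := x) (y := b) (by rwa [hxz]))
  have d4 := d2.add d3
  have h1 : (fun t : K => t⁻¹ • (H J e (x + t • c) a - H J e x a) +
      t⁻¹ • (H J e (x + t • c) b - H J e x b)) =
      fun t : K => t⁻¹ • (H J e (x + t • c) (a + b) - H J e x (a + b)) := by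
    funext t
    rw [← smul_add, H_add hJ he, H_add hJ he]
    congr 1
    abel
  rw [h1] at d4
  have h2 := tendsto_nhds_unique d1 d4
  rw [hxz, ← H_add hJ he] at h2
  have h3 := congrArg (H J e (J e x)) h2
  rw [H_left_inv hJ he hx0, H_left_inv hJ he hx0] at h3
  have e1 : T3 J e a b z c = Pl J e z (a + b) c - (Pl J e z a c + Pl J e z b c) := by
    have e2 : z + (a + b) = a + b + z := by abel
    rw [T3, Pl, Pl, Pl, e2, add_comm z a, add_comm z b]
    abel
  rw [e1, h3, sub_self]

theorem T3_zero (x y w c : A) : T3 J e x y w c = 0 := by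
  classical
  obtain ⟨z, hz⟩ := avoid he hT
    {0, -x, -y, -(x + y), -w, -(x + w), -(y + w), -(x + y + w)}
  simp only [Finset.mem_insert, Finset.mem_singleton, not_or] at hz
  obtain ⟨z0, z1, z2, z3, z4, z5, z6, z7⟩ := hz
  have nn : ∀ {p q : A}, q ≠ -p → p ≠ -q := by
    intro p q h1 h2
    apply h1
    rw [h2, neg_neg]
  have v1 : T3 J e x y (z + w) c = 0 := by
    apply T3_gen hJ he hT
    · intro h
      exact z4 (eq_neg_of_add_eq_zero_left h)
    · intro h
      apply z5
      rw [h]
      abel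
    · intro h
      apply z6
      rw [h]
      abel
    · intro h
      apply z7
      rw [h]
      abel
  have v2 : T3 J e x y z c = 0 := T3_gen hJ he hT c z0 (nn z1) (nn z2) (nn z3)
  have v3 : T3 J e (x + y) w z c = 0 := T3_gen hJ he hT c z0 (nn z3) (nn z4) (nn z7)
  have v4 : T3 J e x w z c = 0 := T3_gen hJ he hT c z0 (nn z1) (nn z4) (nn z5)
  have v5 : T3 J e y w z c = 0 := T3_gen hJ he hT c z0 (nn z2) (nn z4) (nn z6)
  have h : T3 J e x y w c = T3 J e x y (z + w) c - T3 J e x y z c - T3 J e (x + y) w z c +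
      T3 J e x w z c + T3 J e y w z c := by
    have e1 : x + y + (z + w) = x + y + w + z := by abel
    have e2 : x + (z + w) = x + w + z := by abel
    have e3 : y + (z + w) = y + w + z := by abel
    have e4 : z + w = w + z := by abel
    simp only [T3]
    rw [e1, e2, e3, e4]
    abel
  rw [h, v1, v2, v3, v4, v5]
  abel

lemma Pl_add_left (x x' y c : A) : Pl J e (x + x') y c = Pl J e x y c + Pl J e x' y c := by
  have h := T3_zero hJ he hT x x' y c
  have e1 : Pl J e (x + x') y c - (Pl J e x y c + Pl J e x' y c) = T3 J e x x' y c := by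
    rw [T3, Pl, Pl, Pl]
    abel
  rw [h] at e1
  exact sub_eq_zero.mp e1

lemma Pl_add_right (x y y' c : A) : Pl J e x (y + y') c = Pl J e x y c + Pl J e x y' c := by
  rw [Pl_comm, Pl_add_left hJ he hT, Pl_comm J e y, Pl_comm J e y']

omit [TopologicalSpace A] [IsTopologicalAddGroup A] [T2Space A] [l.NeBot] hT in
lemma Pl_add (x y c c' : A) : Pl J e x y (c + c') = Pl J e x y c + Pl J e x y c' := by
  rw [Pl, Pl, Pl, H_add hJ he, H_add hJ he, H_add hJ he]
  abel

/-- the derivative of the polar form -/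
lemma deriv_P {x : A} (y v : A) (hx : x ≠ 0) :
    Tendsto (fun t : K => t⁻¹ • Pl J e x (t • v) y) l
      (𝓝 (H J e x (Pl J e (J e x) y v))) := by
  classical
  have gen : ∀ y, y ≠ -J e x → Tendsto (fun t : K => t⁻¹ • Pl J e x (t • v) y) l
      (𝓝 (H J e x (Pl J e (J e x) y v))) := by
    intro y hy
    have h1 := deriv_H hJ he hT v hx (ne_of_ne_neg hJ he hy)
    have h2 := h1.sub (lim1 hT (H J e v y))
    rw [sub_zero] at h2
    refine h2.congr' ?_
    filter_upwards [hT.l0] with t ht
    rw [Pl, H_smul_left hJ hT.hK, smul_sub t⁻¹ _ ((t * t) • _), smul_smul]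
    have : t⁻¹ * (t * t) = t := by field_simp
    rw [this]
  obtain ⟨u, hu⟩ := avoid he hT {J e x, -J e x - y}
  simp only [Finset.mem_insert, Finset.mem_singleton, not_or] at hu
  obtain ⟨hu1, hu2⟩ := hu
  have g1 := gen (y + u) (by
    intro h
    apply hu2
    rw [← h]
    abel)
  have g2 := gen (-u) (by
    intro h
    apply hu1
    rw [← neg_neg u, h, neg_neg])
  have g3 := g1.add g2
  have e1 : ∀ t : K, t⁻¹ • Pl J e x (t • v) (y + u) + t⁻¹ • Pl J e x (t • v) (-u) =
      t⁻¹ • Pl J e x (t • v) y := by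
    intro t
    rw [← smul_add, ← Pl_add hJ he, add_neg_cancel_right]
  have e2 : H J e x (Pl J e (J e x) (y + u) v) + H J e x (Pl J e (J e x) (-u) v) =
      H J e x (Pl J e (J e x) y v) := by
    rw [← H_add hJ he, ← Pl_add_right hJ he hT, add_neg_cancel_right]
  simp only [e1] at g3
  rw [e2] at g3
  exact g3

end

section

variable {A : Type*} [AddCommGroup A] [TopologicalSpace A] [IsTopologicalAddGroup A]
  [T2Space A] {J : A → A → A} (hJ : JSys J) {e : A} (he : e ≠ 0)
  {K : Type*} [Field K] [Module K A] [ContinuousConstSMul K A] {l : Filter K} [l.NeBot]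
  (hT : TopHyp J e K l)

include hJ he hT

omit [IsTopologicalAddGroup A] [T2Space A] [ContinuousConstSMul K A] [l.NeBot] hJ he in
private lemma topHyp_sq : TopHyp J e K (l.map (fun s => s * s)) := by
  refine ⟨hT.hK, ?_, ?_, hT.cont⟩
  · rw [eventually_map]
    filter_upwards [hT.l0] with t ht
    exact mul_ne_zero ht ht
  · intro n hn a
    rw [tendsto_map'_iff]
    have h := hT.lim (2 * n) (by omega) a
    refine h.congr ?_
    intro t
    show t ^ (2 * n) • a = (t * t) ^ n • a
    rw [pow_mul, sq]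

/-- the polar form is linear over `K` and equals the derivative -/
lemma Pl_key {x : A} (y v : A) (hx : x ≠ 0) :
    (∀ d : K, Pl J e x (d • v) y = d • Pl J e x v y) ∧
      Pl J e x v y = H J e x (Pl J e (J e x) y v) := by
  set L0 := H J e x (Pl J e (J e x) y v) with hL0
  let f : K →+ A := AddMonoidHom.mk' (fun t => Pl J e x (t • v) y) (by
    intro s t
    rw [add_smul, Pl_add_right hJ he hT])
  let g : K →+ A := AddMonoidHom.mk' (fun t => Pl J e (t • x) v y) (by
    intro s t
    rw [add_smul, Pl_add_left hJ he hT])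
  have hf : ∀ t, f t = Pl J e x (t • v) y := fun t => rfl
  have hg : ∀ t, g t = Pl J e (t • x) v y := fun t => rfl
  have hfg : ∀ t : K, t ≠ 0 → g t = (t * t) • f t⁻¹ := by
    intro t ht
    rw [hg, hf, ← Pl_smul_smul hJ hT.hK, smul_smul, mul_inv_cancel₀ ht, one_smul]
  have fe := func_eq f g hfg
  have hlim1 : Tendsto (fun s : K => s⁻¹ • f s) l (𝓝 L0) := deriv_P hJ he hT y v hx
  have key : ∀ d : K, d • L0 = (2 * d) • L0 + f d - (2 * d) • f 1 := by
    intro d
    have h1 := deriv_P hJ he (topHyp_sq hT) y (d • v) hx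
    rw [tendsto_map'_iff] at h1
    have h2 : H J e x (Pl J e (J e x) y (d • v)) = d • L0 := by
      rw [Pl_smul hJ he hT.hK, H_smul hJ he hT.hK]
    rw [h2] at h1
    have h3 : Tendsto (fun s : K => (2 * d) • (s⁻¹ • f s) + f d - (2 * d) • f 1) l
        (𝓝 ((2 * d) • L0 + f d - (2 * d) • f 1)) :=
      ((hlim1.const_smul (2 * d)).add tendsto_const_nhds).sub tendsto_const_nhds
    refine tendsto_nhds_unique h1 (h3.congr' ?_)
    filter_upwards [hT.l0] with s hs
    show (2 * d) • (s⁻¹ • f s) + f d - (2 * d) • f 1 =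
      (s * s)⁻¹ • Pl J e x ((s * s) • (d • v)) y
    rw [smul_smul (s * s) d v, ← hf, fe s d, smul_sub, smul_add, smul_smul, smul_smul,
      smul_smul, smul_smul]
    have c1 : (s * s)⁻¹ * (2 * s * d) = 2 * d * s⁻¹ := by field_simp
    have c2 : (s * s)⁻¹ * (s * s) = 1 := by field_simp
    have c3 : (s * s)⁻¹ * (2 * (s * s * d)) = 2 * d := by field_simp
    rw [c1, c2, c3, one_smul]
  have h1 : f 1 = L0 := by
    have h := key 1
    rw [one_smul, mul_one, two_smul, two_smul] at h
    have h2 : L0 - f 1 = 0 := by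
      have h3 : L0 - f 1 = (L0 + L0 + f 1 - (f 1 + f 1)) - L0 := by abel
      rw [h3, ← h, sub_self]
    exact (sub_eq_zero.mp h2).symm
  have h2 : ∀ d, f d = d • f 1 := by
    intro d
    have h := key d
    rw [← h1] at h
    have h3 : f d = d • f 1 := by
      rw [h]
      abel
    exact h3
  have hf1 : f 1 = Pl J e x v y := by rw [hf, one_smul]
  rw [← hf1]
  exact ⟨fun d => h2 d, h1⟩

lemma Pl_smul_right (x v y : A) (d : K) : Pl J e x (d • v) y = d • Pl J e x v y := by
  by_cases hx : x = 0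
  · have h : ∀ w, Pl J e 0 w y = 0 := by
      intro w
      rw [Pl, zero_add, H_zero_left]
      abel
    rw [hx, h, h, smul_zero]
  exact (Pl_key hJ he hT y v hx).1 d

lemma Pl_smul_left (x v y : A) (d : K) : Pl J e (d • x) v y = d • Pl J e x v y := by
  rw [Pl_comm, Pl_smul_right hJ he hT, Pl_comm]

/-- the symmetry identity -/
lemma Pl_symm (x v : A) {a : A} (ha : a ≠ 0) :
    Pl J e x v a = Pl J e x (J e a) (H J e a v) := by
  by_cases hx : x = 0
  · have h : ∀ w c, Pl J e 0 w c = 0 := by
      intro w c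
      rw [Pl, zero_add, H_zero_left]
      abel
    rw [hx, h, h]
  rw [(Pl_key hJ he hT a v hx).2, Pl_inv hJ he hx (J_ne_zero hJ he ha), hJ.inv e a he,
    H_left_inv hJ he ha]

end

end Pool.Agent.HuaVal
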