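import Mathlib
import Pool.Agent.HuaVal.Basic
import Pool.Agent.HuaVal.Top2
import Pool.Agent.HuaVal.StrictK

/-!
# Topological Hua systems with small central scalars come from quadratic Jordan division rings
-/

set_option autoImplicit false

open scoped TensorProduct
open Filter Topology

namespace Pool.Agent.HuaVal

universe u v w

section

variable {A : Type*} [AddCommGroup A] {J : A → A → A} (hJ : JSys J) {e : A} (he : e ≠ 0)
  {K : Type*} [Field K] [Module K A]

/-- the algebraic content of the topological part -/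
private structure Alg (J : A → A → A) (e : A) (K : Type*) [Field K] [Module K A] : Prop where
  hK : ∀ (a x : A) (t : K), a ≠ 0 → t ≠ 0 → J a (t • x) = t⁻¹ • J a x
  addl : ∀ x x' y c, Pl J e (x + x') y c = Pl J e x y c + Pl J e x' y c
  smull : ∀ (x v y : A) (d : K), Pl J e (d • x) v y = d • Pl J e x v y
  symm : ∀ (x v a : A), a ≠ 0 → Pl J e x v a = Pl J e x (J e a) (H J e a v)

variable (hA : Alg J e K)

include hJ he hA

/-- the quadratic map over the field -/
private theorem exists_W : ∃ W : QuadraticMap K A (Module.End K A),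
    ∀ x y, W x y = H J e x y := by
  let HK : A → Module.End K A := fun x =>
    { toFun := H J e x
      map_add' := H_add hJ he x
      map_smul' := fun t y => H_smul hJ he hA.hK x y t }
  have hHK : ∀ x y, HK x y = H J e x y := fun x y => rfl
  have hP : ∀ x y c, (HK (x + y) - HK x - HK y) c = Pl J e x y c := fun x y c => rfl
  refine ⟨⟨HK, ?_, ⟨LinearMap.mk₂ K (fun x y => HK (x + y) - HK x - HK y) ?_ ?_ ?_ ?_, ?_⟩⟩,
    hHK⟩
  · intro t x
    apply LinearMap.ext
    intro y
    rw [LinearMap.smul_apply, hHK, hHK, H_smul_left hJ hA.hK]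
  · intro x x' y
    apply LinearMap.ext
    intro c
    rw [LinearMap.add_apply, hP, hP, hP, hA.addl]
  · intro t x y
    apply LinearMap.ext
    intro c
    rw [LinearMap.smul_apply, hP, hP, hA.smull]
  · intro x y y'
    apply LinearMap.ext
    intro c
    rw [LinearMap.add_apply, hP, hP, hP, Pl_comm, hA.addl, Pl_comm J e y, Pl_comm J e y']
  · intro t x y
    apply LinearMap.ext
    intro c
    rw [LinearMap.smul_apply, hP, hP, Pl_comm, hA.smull, Pl_comm]
  · intro x y
    rw [LinearMap.mk₂_apply]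
    abel

/-- the quadratic map over the integers -/
private theorem exists_UZ : ∃ U : QuadraticMap ℤ A (Module.End ℤ A),
    ∀ x y, U x y = H J e x y := by
  let HZ : A → Module.End ℤ A := fun x => (Hm hJ he x).toIntLinearMap
  have hHZ : ∀ x y, HZ x y = H J e x y := fun x y => rfl
  have hP : ∀ x y c, (HZ (x + y) - HZ x - HZ y) c = Pl J e x y c := fun x y c => rfl
  let B : LinearMap.BilinMap ℤ A (Module.End ℤ A) :=
    (AddMonoidHom.mk' (fun x => (AddMonoidHom.mk' (fun y => HZ (x + y) - HZ x - HZ y) (by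
        intro y y'
        apply LinearMap.ext
        intro c
        rw [LinearMap.add_apply, hP, hP, hP, Pl_comm, hA.addl, Pl_comm J e y,
          Pl_comm J e y'])).toIntLinearMap) (by
      intro x x'
      apply LinearMap.ext
      intro y
      apply LinearMap.ext
      intro c
      show (HZ (x + x' + y) - HZ (x + x') - HZ y) c =
        (HZ (x + y) - HZ x - HZ y) c + (HZ (x' + y) - HZ x' - HZ y) c
      rw [hP, hP, hP, hA.addl])).toIntLinearMap
  have hB : ∀ x y, B x y = HZ (x + y) - HZ x - HZ y := fun x y => rfl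
  refine ⟨⟨HZ, ?_, ⟨B, ?_⟩⟩, hHZ⟩
  · intro n x
    apply LinearMap.ext
    intro y
    rw [LinearMap.smul_apply, hHZ, hHZ]
    have h1 : n • x = (n : K) • x := (Int.cast_smul_eq_zsmul K n x).symm
    have h2 : (n * n) • H J e x y = ((n : K) * (n : K)) • H J e x y := by
      rw [← Int.cast_mul, Int.cast_smul_eq_zsmul]
    rw [h1, h2, H_smul_left hJ hA.hK]
  · intro x y
    rw [hB]
    abel

/-- the Jordan identities -/
private theorem jordan_alg (R : Type*) [CommRing R] [Module R A]
    (U : QuadraticMap R A (Module.End R A)) (hU : ∀ x y, U x y = H J e x y) :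
    JordanIdentities U e ∧ (∀ a : A, a ≠ 0 → Function.Bijective (U a)) := by
  have hQ : ∀ x y, U (U x y) = U x * U y * U x := by
    intro x y
    apply LinearMap.ext
    intro z
    simp only [Module.End.mul_apply, hU]
    exact H_H' hJ he x y z
  have hpol : ∀ x y c, QuadraticMap.polar (⇑U) x y c = Pl J e x y c := by
    intro x y c
    rw [QuadraticMap.polar, LinearMap.sub_apply, LinearMap.sub_apply, hU, hU, hU]
    rfl
  refine ⟨⟨?_, ?_, hQ⟩, ?_⟩
  · apply LinearMap.ext
    intro z
    rw [hU, H_self hJ he]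
    rfl
  · intro a b c
    by_cases ha : a = 0
    · rw [ha]
      simp [QuadraticMap.polar]
    have h1 : U a (J e a) = a := by rw [hU, H_inv_self hJ he]
    have h4 : ∀ x y, QuadraticMap.polar (⇑U) (U a x) (U a y) =
        U a * QuadraticMap.polar (⇑U) x y * U a := by
      intro x y
      rw [QuadraticMap.polar, ← map_add, hQ, hQ, hQ, QuadraticMap.polar]
      noncomm_ring
    have h5 : QuadraticMap.polar (⇑U) a (U a c) b =
        U a (QuadraticMap.polar (⇑U) (J e a) c (U a b)) := by
      calc QuadraticMap.polar (⇑U) a (U a c) b =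
          QuadraticMap.polar (⇑U) (U a (J e a)) (U a c) b := by rw [h1]
        _ = U a (QuadraticMap.polar (⇑U) (J e a) c (U a b)) := by
          rw [h4]
          rfl
    have h6 : QuadraticMap.polar (⇑U) b c a = QuadraticMap.polar (⇑U) (J e a) c (U a b) := by
      rw [hpol, hpol, hU, Pl_comm J e b c, hA.symm c b a ha, Pl_comm]
    rw [h5, h6]
  · intro a ha
    refine Function.bijective_iff_has_inverse.mpr ⟨fun y => U (J e a) y, ?_, ?_⟩
    · intro y
      show U (J e a) (U a y) = y
      rw [hU, hU, H_left_inv hJ he ha]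
    · intro y
      show U a (U (J e a) y) = y
      rw [hU, hU, H_right_inv hJ he ha]

end

/-- **topological Hua systems** -/
theorem topological {K : Type w} [Field K] {A : Type u} [AddCommGroup A] [Module K A]
    [TopologicalSpace A] [IsTopologicalAddGroup A] [T2Space A] [ContinuousConstSMul K A]
    (j : A → Option A → Option A) (hj : IsHua j)
    (hK : ∀ (a b c : A) (t : K), a ≠ 0 → b ≠ 0 → t ≠ 0 → j a (some b) = some c →
      j a (some (t • b)) = some (t⁻¹ • c))
    (l : Filter K) [l.NeBot] (hl0 : ∀ᶠ t in l, t ≠ 0)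
    (hl : ∀ n : ℕ, n ≠ 0 → ∀ a : A, Tendsto (fun t : K => t ^ n • a) l (𝓝 0))
    (e : A) (he : e ≠ 0) (i : A → A)
    (hi : ∀ x : A, x ≠ 0 → j e (some x) = some (i x) ∧ ContinuousAt i x) :
    ∃ (one : A) (U : QuadraticMap ℤ A (Module.End ℤ A)),
     JordanIdentities U one ∧
     (∀ (Ω : Type v) [CommRing Ω] (U' : QuadraticMap Ω (Ω ⊗[ℤ] A) (Module.End Ω (Ω ⊗[ℤ] A))),
        (∀ (a c : A) (ω : Ω), U' ((1 : Ω) ⊗ₜ[ℤ] a) (ω ⊗ₜ[ℤ] c) = ω ⊗ₜ[ℤ] (U a c)) →
        JordanIdentities U' ((1 : Ω) ⊗ₜ[ℤ] one)) ∧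
     (∀ a : A, a ≠ 0 → Function.Bijective (U a)) ∧
     (∀ a b c : A, a ≠ 0 → b ≠ 0 → U b c = b → j a (some b) = some (U a c)) := by
  obtain ⟨J, hJ, hjJ⟩ := exists_J hj
  have hT : TopHyp J e K l := by
    refine ⟨?_, hl0, hl, ?_⟩
    · intro a x t ha ht
      by_cases hx : x = 0
      · rw [hx, smul_zero, hJ.zero a ha, smul_zero]
      have h := hK a x (J a x) t ha hx ht (hjJ a x ha hx)
      rw [hjJ a _ ha (smul_ne_zero ht hx)] at h
      exact Option.some_injective _ h
    · intro x hx
      have h1 : ∀ y, y ≠ 0 → i y = J e y := by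
        intro y hy
        have h2 := (hi y hy).1
        rw [hjJ e y he hy] at h2
        exact (Option.some_injective _ h2).symm
      refine ((hi x hx).2).congr ?_
      filter_upwards [isOpen_ne.mem_nhds hx] with y hy
      exact h1 y hy
  have hA : Alg J e K := ⟨hT.hK, Pl_add_left hJ he hT, Pl_smul_left hJ he hT,
    fun x v a ha => Pl_symm hJ he hT x v ha⟩
  obtain ⟨U, hU⟩ := exists_UZ hJ he hA
  obtain ⟨W, hW⟩ := exists_W hJ he hA
  obtain ⟨hU1, hbij⟩ := jordan_alg hJ he hA ℤ U hU
  obtain ⟨hW1, -⟩ := jordan_alg hJ he hA K W hW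
  have hinf : Infinite K := inf_K he hT
  refine ⟨e, U, hU1, ?_, hbij, ?_⟩
  · intro Ω _ U' hU'
    obtain ⟨s2, s3⟩ := strictK W hW1.2.1 hW1.2.2 Ω U' (by
      intro a c ω
      rw [hU', hU, hW])
    refine ⟨?_, s2, s3⟩
    ext x
    simp only [TensorProduct.AlgebraTensorModule.curry_apply, TensorProduct.curry_apply,
      LinearMap.coe_restrictScalars, Module.End.one_apply]
    rw [hU', hU1.1]
    rfl
  · intro a b c ha hb hc
    rw [hjJ a b ha hb]
    congr 1
    have h1 := H_inv_self hJ he b
    rw [← hU] at h1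
    have h2' : c = J e b := (hbij b hb).1 (hc.trans h1.symm)
    rw [h2', hU, H_of_ne ha, hJ.inv e b he]

end Pool.Agent.HuaVal
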