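import Mathlib

/-!
# Strictness of the Jordan identities when 2 is invertible
-/

set_option autoImplicit false

open scoped TensorProduct

namespace Pool.Agent.HuaVal

/-- cubic identities survive scalar extensions when there is no 2-torsion -/
lemma cubic_strict {A : Type*} [AddCommGroup A] (h2 : ∀ a : A, a + a = 0 → a = 0)
    (g : A → A → A → A)
    (g1 : ∀ x x' y z, g (x + x') y z = g x y z + g x' y z)
    (g2 : ∀ x y y' z, g x (y + y') z = g x y z + g x y' z)
    (g3 : ∀ x y z z', g x y (z + z') = g x y z + g x y z')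
    (g0 : ∀ x, g x x x = 0)
    (Ω : Type*) [CommRing Ω] (f : Ω ⊗[ℤ] A → Ω ⊗[ℤ] A → Ω ⊗[ℤ] A → Ω ⊗[ℤ] A)
    (f1 : ∀ x x' y z, f (x + x') y z = f x y z + f x' y z)
    (f2 : ∀ x y y' z, f x (y + y') z = f x y z + f x y' z)
    (f3 : ∀ x y z z', f x y (z + z') = f x y z + f x y z')
    (s1 : ∀ (t : Ω) x y z, f (t • x) y z = t • f x y z)
    (s2 : ∀ (t : Ω) x y z, f x (t • y) z = t • f x y z)
    (s3 : ∀ (t : Ω) x y z, f x y (t • z) = t • f x y z)
    (hc : ∀ x y z : A, f ((1 : Ω) ⊗ₜ[ℤ] x) ((1 : Ω) ⊗ₜ[ℤ] y) ((1 : Ω) ⊗ₜ[ℤ] z) =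
      (1 : Ω) ⊗ₜ[ℤ] (g x y z)) (x : Ω ⊗[ℤ] A) : f x x x = 0 := by
  have gn1 : ∀ x y z, g (-x) y z = -g x y z := by
    intro x y z
    have h := g1 x (-x) y z
    have h0 := g1 0 0 y z
    rw [add_zero] at h0
    rw [add_neg_cancel, left_eq_add.mp h0] at h
    exact (neg_eq_of_add_eq_zero_right h.symm).symm
  have gn2 : ∀ x y z, g x (-y) z = -g x y z := by
    intro x y z
    have h := g2 x y (-y) z
    have h0 := g2 x 0 0 z
    rw [add_zero] at h0
    rw [add_neg_cancel, left_eq_add.mp h0] at h
    exact (neg_eq_of_add_eq_zero_right h.symm).symm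
  have gn3 : ∀ x y z, g x y (-z) = -g x y z := by
    intro x y z
    have h := g3 x y z (-z)
    have h0 := g3 x y 0 0
    rw [add_zero] at h0
    rw [add_neg_cancel, left_eq_add.mp h0] at h
    exact (neg_eq_of_add_eq_zero_right h.symm).symm
  -- the linearisations over `A`
  have S : ∀ x w, g w x x + g x w x + g x x w = 0 := by
    intro x w
    have h1 := g0 (x + w)
    have h3 := g0 (x + -w)
    simp only [g1, g2, g3, gn1, gn2, gn3, g0, neg_neg] at h1 h3
    apply h2
    have h4 := congrArg₂ (fun a b => a - b) h1 h3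
    simp only [sub_zero] at h4
    rw [← h4]
    abel
  have S6 : ∀ x y w, g w x y + g w y x + g x w y + g y w x + g x y w + g y x w = 0 := by
    intro x y w
    have h1 := S (x + y) w
    simp only [g1, g2, g3] at h1
    have h4 := congrArg₂ (fun a b => a - b) (congrArg₂ (fun a b => a - b) h1 (S x w)) (S y w)
    simp only [sub_zero] at h4
    rw [← h4]
    abel
  -- zero arguments
  have z1 : ∀ y z, f 0 y z = 0 := fun y z => by
    have h := s1 0 0 y z
    rwa [zero_smul, zero_smul] at h
  have z2 : ∀ y z, f y 0 z = 0 := fun y z => by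
    have h := s2 0 y 0 z
    rwa [zero_smul, zero_smul] at h
  have z3 : ∀ y z, f y z 0 = 0 := fun y z => by
    have h := s3 0 y z 0
    rwa [zero_smul, zero_smul] at h
  have t1 : ∀ (ω : Ω) (a : A), ω ⊗ₜ[ℤ] a = ω • ((1 : Ω) ⊗ₜ[ℤ] a) := by
    intro ω a
    rw [TensorProduct.smul_tmul', smul_eq_mul, mul_one]
  have T6 : ∀ x y w, f w x y + f w y x + f x w y + f y w x + f x y w + f y x w = 0 := by
    intro x y w
    induction x using TensorProduct.induction_on with
    | zero => simp only [z1, z2, z3, add_zero]
    | add x x' ih ih' =>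
      simp only [f1, f2, f3]
      have h4 := congrArg₂ (fun a b => a + b) ih ih'
      simp only [add_zero] at h4
      rw [← h4]
      abel
    | tmul ω x =>
      induction y using TensorProduct.induction_on with
      | zero => simp only [z1, z2, z3, add_zero]
      | add y y' ih ih' =>
        simp only [f1, f2, f3]
        have h4 := congrArg₂ (fun a b => a + b) ih ih'
        simp only [add_zero] at h4
        rw [← h4]
        abel
      | tmul ω' y =>
        induction w using TensorProduct.induction_on with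
        | zero => simp only [z1, z2, z3, add_zero]
        | add w w' ih ih' =>
          simp only [f1, f2, f3]
          have h4 := congrArg₂ (fun a b => a + b) ih ih'
          simp only [add_zero] at h4
          rw [← h4]
          abel
        | tmul ω'' w =>
          rw [t1 ω, t1 ω', t1 ω'']
          simp only [s1, s2, s3, hc]
          have h4 := congrArg (fun a => ω • ω' • ω'' • ((1 : Ω) ⊗ₜ[ℤ] a)) (S6 x y w)
          simp only [TensorProduct.tmul_zero, smul_zero, TensorProduct.tmul_add,
            smul_add] at h4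
          rw [← h4]
          simp only [smul_smul]
          have q1 : ω'' * (ω * ω') = ω * (ω' * ω'') := by ring
          have q2 : ω'' * (ω' * ω) = ω * (ω' * ω'') := by ring
          have q3 : ω * (ω'' * ω') = ω * (ω' * ω'') := by ring
          have q4 : ω' * (ω'' * ω) = ω * (ω' * ω'') := by ring
          have q5 : ω' * (ω * ω'') = ω * (ω' * ω'') := by ring
          simp only [q1, q2, q3, q4, q5]
  have T : ∀ x w, f w x x + f x w x + f x x w = 0 := by
    intro x w
    induction x using TensorProduct.induction_on with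
    | zero => simp only [z1, z2, add_zero]
    | add x x' ih ih' =>
      simp only [f1, f2, f3]
      have h4 := congrArg₂ (fun a b => a + b) (congrArg₂ (fun a b => a + b) ih ih')
        (T6 x x' w)
      simp only [add_zero] at h4
      rw [← h4]
      abel
    | tmul ω x =>
      induction w using TensorProduct.induction_on with
      | zero => simp only [z1, z2, z3, add_zero]
      | add w w' ih ih' =>
        simp only [f1, f2, f3]
        have h4 := congrArg₂ (fun a b => a + b) ih ih'
        simp only [add_zero] at h4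
        rw [← h4]
        abel
      | tmul ω'' w =>
        rw [t1 ω, t1 ω'']
        simp only [s1, s2, s3, hc]
        have h4 := congrArg (fun a => ω • ω • ω'' • ((1 : Ω) ⊗ₜ[ℤ] a)) (S x w)
        simp only [TensorProduct.tmul_zero, smul_zero, TensorProduct.tmul_add,
          smul_add] at h4
        rw [← h4]
        simp only [smul_smul]
        have q1 : ω'' * (ω * ω) = ω * (ω * ω'') := by ring
        have q2 : ω * (ω'' * ω) = ω * (ω * ω'') := by ring
        simp only [q1, q2]
  induction x using TensorProduct.induction_on with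
  | zero => exact z1 _ _
  | add x x' ih ih' =>
    simp only [f1, f2, f3]
    have h4 := congrArg₂ (fun a b => a + b) (congrArg₂ (fun a b => a + b) ih ih')
      (congrArg₂ (fun a b => a + b) (T x x') (T x' x))
    simp only [add_zero] at h4
    rw [← h4]
    abel
  | tmul ω x =>
    rw [t1 ω]
    simp only [s1, s2, s3, hc, g0, TensorProduct.tmul_zero, smul_zero]

section

variable {R M : Type*} [CommRing R] [AddCommGroup M] [Module R M]
  (B : LinearMap.BilinMap R M (Module.End R M))

/-- the form expressing the second identity -/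
def F3 (y z x1 x2 x3 : M) : M := B x1 x2 (B y z x3) - B x1 (B x2 x3 z) y

/-- the form expressing the linearised fundamental formula -/
def F4 (b d c v x1 x2 x3 : M) : M :=
  B (B x1 x2 b) (B x3 v d) c + B (B x1 x2 d) (B x3 v b) c -
    B x1 x2 (B b d (B x3 v c)) - B x3 v (B b d (B x1 x2 c))

end

/-- strictness of the Jordan identities -/
theorem strictC {A : Type*} [AddCommGroup A]
    (h2 : ∀ a : A, a + a = 0 → a = 0)
    (hd : ∀ a : A, ∃ b, (2 : ℤ) • b = a)
    (U : QuadraticMap ℤ A (Module.End ℤ A))
    (hU2 : ∀ a b c : A, U a ((QuadraticMap.polar (⇑U) b c) a) =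
        (QuadraticMap.polar (⇑U) a (U a c)) b)
    (hU3 : ∀ x v y c : A, QuadraticMap.polar (⇑U) (U x y) (QuadraticMap.polar (⇑U) x v y) c =
      QuadraticMap.polar (⇑U) x v (U y (U x c)) +
      U x (U y (QuadraticMap.polar (⇑U) x v c)))
    (Ω : Type*) [CommRing Ω]
    (U' : QuadraticMap Ω (Ω ⊗[ℤ] A) (Module.End Ω (Ω ⊗[ℤ] A)))
    (hU' : ∀ (a c : A) (ω : Ω), U' ((1 : Ω) ⊗ₜ[ℤ] a) (ω ⊗ₜ[ℤ] c) = ω ⊗ₜ[ℤ] (U a c)) :
    (∀ x y z : Ω ⊗[ℤ] A,
      U' x ((QuadraticMap.polar (⇑U') y z) x) = (QuadraticMap.polar (⇑U') x (U' x z)) y) ∧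
    (∀ x y : Ω ⊗[ℤ] A, U' (U' x y) = U' x * U' y * U' x) := by
  have hn : ∀ a : A, (2 : ℤ) • a = 0 → a = 0 := by
    intro a ha
    apply h2
    rw [← ha]
    module
  -- division by 2 on the scalar extension
  have hinv : ∀ x : Ω ⊗[ℤ] A, (2 : ℤ) • x = 0 → x = 0 := by
    choose g hg using hd
    let ψ : A →ₗ[ℤ] A :=
      { toFun := g
        map_add' := by
          intro a b
          have h : (2 : ℤ) • (g (a + b) - (g a + g b)) = 0 := by
            rw [smul_sub, smul_add, hg, hg, hg, sub_self]
          exact sub_eq_zero.mp (hn _ h)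
        map_smul' := by
          intro m a
          have h : (2 : ℤ) • (g (m • a) - m • g a) = 0 := by
            rw [smul_sub, hg, smul_comm, hg, sub_self]
          exact sub_eq_zero.mp (hn _ h) }
    intro x hx
    have h : LinearMap.lTensor Ω ψ ((2 : ℤ) • x) = x := by
      have h1 : (2 : ℤ) • LinearMap.lTensor Ω ψ = LinearMap.id := by
        apply TensorProduct.ext'
        intro ω a
        rw [LinearMap.smul_apply, LinearMap.lTensor_tmul, LinearMap.id_apply,
          ← TensorProduct.tmul_smul]
        congr 1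
        exact hg a
      rw [map_smul, ← LinearMap.smul_apply, h1, LinearMap.id_apply]
    rw [← h, hx, map_zero]
  set B := U.polarBilin with hB
  set B' := U'.polarBilin with hB'
  have hBa : ∀ a b, B a b = QuadraticMap.polar (⇑U) a b := fun a b => rfl
  have hBa' : ∀ a b, B' a b = QuadraticMap.polar (⇑U') a b := fun a b => rfl
  have hself : ∀ a, B a a = U a + U a := by
    intro a
    rw [hBa, QuadraticMap.polar_self, two_smul]
  have hself' : ∀ a, B' a a = U' a + U' a := by
    intro a
    rw [hBa', QuadraticMap.polar_self, two_smul]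
  -- compatibility
  have hcomp : ∀ (a b c : A) (ω : Ω), B' ((1 : Ω) ⊗ₜ[ℤ] a) ((1 : Ω) ⊗ₜ[ℤ] b) (ω ⊗ₜ[ℤ] c) =
      ω ⊗ₜ[ℤ] (B a b c) := by
    intro a b c ω
    rw [hBa', hBa, QuadraticMap.polar, QuadraticMap.polar, ← TensorProduct.tmul_add,
      LinearMap.sub_apply, LinearMap.sub_apply, LinearMap.sub_apply, LinearMap.sub_apply,
      hU', hU', hU', TensorProduct.tmul_sub, TensorProduct.tmul_sub]
  have t1 : ∀ (ω : Ω) (a : A), ω ⊗ₜ[ℤ] a = ω • ((1 : Ω) ⊗ₜ[ℤ] a) := by
    intro ω a
    rw [TensorProduct.smul_tmul', smul_eq_mul, mul_one]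
  -- the identities over `ℤ`
  have z3 : ∀ y z : A, ∀ x, F3 B y z x x x = 0 := by
    intro y z x
    rw [F3]
    have h := hU2 x y z
    rw [hself, LinearMap.add_apply, LinearMap.add_apply, map_add, LinearMap.add_apply, hBa y z,
      h, hBa]
    abel
  have z4 : ∀ b d c v : A, ∀ x, F4 B b d c v x x x = 0 := by
    intro b d c v x
    have e1 := hU3 x v (b + d) c
    have e2 := hU3 x v b c
    have e3 := hU3 x v d c
    simp only [← hBa] at e1 e2 e3
    have q : U (b + d) = U b + U d + B b d := QuadraticMap.map_add _ _ _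
    rw [q] at e1
    simp only [map_add, LinearMap.add_apply] at e1
    rw [F4, hself]
    simp only [map_add, LinearMap.add_apply]
    have e4 := congrArg₂ (fun a b => a - b) (congrArg₂ (fun a b => a - b)
      (sub_eq_zero.mpr e1) (sub_eq_zero.mpr e2)) (sub_eq_zero.mpr e3)
    simp only [sub_zero] at e4
    have e5 := congrArg₂ (fun a b => a + b) e4 e4
    simp only [add_zero] at e5
    rw [← e5]
    abel
  -- base change
  have c3 : ∀ y z x : Ω ⊗[ℤ] A, F3 B' y z x x x = 0 := by
    intro y z x
    induction y using TensorProduct.induction_on with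
    | zero => simp [F3]
    | add b b' ih ih' =>
      have h : F3 B' (b + b') z x x x = F3 B' b z x x x + F3 B' b' z x x x := by
        simp only [F3, map_add, LinearMap.add_apply]
        abel
      rw [h, ih, ih', add_zero]
    | tmul ω y =>
      have h : F3 B' (ω ⊗ₜ[ℤ] y) z x x x = ω • F3 B' ((1 : Ω) ⊗ₜ[ℤ] y) z x x x := by
        rw [t1]
        simp only [F3, map_smul, LinearMap.smul_apply, smul_sub]
      rw [h]
      clear h
      induction z using TensorProduct.induction_on with
      | zero => simp [F3]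
      | add b b' ih ih' =>
        have h : F3 B' ((1 : Ω) ⊗ₜ[ℤ] y) (b + b') x x x =
            F3 B' ((1 : Ω) ⊗ₜ[ℤ] y) b x x x + F3 B' ((1 : Ω) ⊗ₜ[ℤ] y) b' x x x := by
          simp only [F3, map_add, LinearMap.add_apply]
          abel
        rw [h, smul_add, ih, ih', add_zero]
      | tmul ω' z =>
        have h : F3 B' ((1 : Ω) ⊗ₜ[ℤ] y) (ω' ⊗ₜ[ℤ] z) x x x =
            ω' • F3 B' ((1 : Ω) ⊗ₜ[ℤ] y) ((1 : Ω) ⊗ₜ[ℤ] z) x x x := by
          rw [t1 ω']
          simp only [F3, map_smul, LinearMap.smul_apply, smul_sub]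
        rw [h]
        clear h
        have h5 : F3 B' ((1 : Ω) ⊗ₜ[ℤ] y) ((1 : Ω) ⊗ₜ[ℤ] z) x x x = 0 := by
          refine cubic_strict h2 (F3 B y z) ?_ ?_ ?_ (z3 y z) Ω
            (F3 B' ((1 : Ω) ⊗ₜ[ℤ] y) ((1 : Ω) ⊗ₜ[ℤ] z)) ?_ ?_ ?_ ?_ ?_ ?_ ?_ x
          · intro x x' y z
            simp only [F3, map_add, LinearMap.add_apply]
            abel
          · intro x x' y z
            simp only [F3, map_add, LinearMap.add_apply]
            abel
          · intro x x' y z
            simp only [F3, map_add, LinearMap.add_apply]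
            abel
          · intro x x' y z
            simp only [F3, map_add, LinearMap.add_apply]
            abel
          · intro x x' y z
            simp only [F3, map_add, LinearMap.add_apply]
            abel
          · intro x x' y z
            simp only [F3, map_add, LinearMap.add_apply]
            abel
          · intro x x' y z
            simp only [F3, map_smul, LinearMap.smul_apply, smul_sub]
          · intro x x' y z
            simp only [F3, map_smul, LinearMap.smul_apply, smul_sub]
          · intro x x' y z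
            simp only [F3, map_smul, LinearMap.smul_apply, smul_sub]
          · intro x1 x2 x3
            simp only [F3, hcomp, TensorProduct.tmul_sub]
        rw [h5, smul_zero, smul_zero]
  have c4 : ∀ b d c v x : Ω ⊗[ℤ] A, F4 B' b d c v x x x = 0 := by
    intro b d c v x
    induction b using TensorProduct.induction_on with
    | zero => simp [F4]
    | add b b' ih ih' =>
      have h : F4 B' (b + b') d c v x x x = F4 B' b d c v x x x + F4 B' b' d c v x x x := by
        simp only [F4, map_add, LinearMap.add_apply]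
        abel
      rw [h, ih, ih', add_zero]
    | tmul ω b =>
    have h : F4 B' (ω ⊗ₜ[ℤ] b) d c v x x x = ω • F4 B' ((1 : Ω) ⊗ₜ[ℤ] b) d c v x x x := by
      rw [t1]
      simp only [F4, map_smul, LinearMap.smul_apply, smul_sub, smul_add]
    rw [h]
    clear h
    set b1 := (1 : Ω) ⊗ₜ[ℤ] b with hb1
    induction d using TensorProduct.induction_on with
    | zero => simp [F4]
    | add d d' ih ih' =>
      have h : F4 B' b1 (d + d') c v x x x = F4 B' b1 d c v x x x + F4 B' b1 d' c v x x x := by
        simp only [F4, map_add, LinearMap.add_apply]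
        abel
      rw [h, smul_add, ih, ih', add_zero]
    | tmul ω' d =>
    have h : F4 B' b1 (ω' ⊗ₜ[ℤ] d) c v x x x = ω' • F4 B' b1 ((1 : Ω) ⊗ₜ[ℤ] d) c v x x x := by
      rw [t1 ω']
      simp only [F4, map_smul, LinearMap.smul_apply, smul_sub, smul_add]
    rw [h]
    clear h
    set d1 := (1 : Ω) ⊗ₜ[ℤ] d with hd1
    induction c using TensorProduct.induction_on with
    | zero => simp [F4]
    | add c c' ih ih' =>
      have h : F4 B' b1 d1 (c + c') v x x x =
          F4 B' b1 d1 c v x x x + F4 B' b1 d1 c' v x x x := by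
        simp only [F4, map_add]
        abel
      rw [h, smul_add, smul_add, ih, ih', add_zero]
    | tmul ω'' c =>
    have h : F4 B' b1 d1 (ω'' ⊗ₜ[ℤ] c) v x x x =
        ω'' • F4 B' b1 d1 ((1 : Ω) ⊗ₜ[ℤ] c) v x x x := by
      rw [t1 ω'']
      simp only [F4, map_smul, smul_sub, smul_add]
    rw [h]
    clear h
    set c1 := (1 : Ω) ⊗ₜ[ℤ] c with hc1
    induction v using TensorProduct.induction_on with
    | zero => simp [F4]
    | add v v' ih ih' =>
      have h : F4 B' b1 d1 c1 (v + v') x x x =
          F4 B' b1 d1 c1 v x x x + F4 B' b1 d1 c1 v' x x x := by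
        simp only [F4, map_add, LinearMap.add_apply]
        abel
      rw [h, smul_add, smul_add, smul_add, ih, ih', add_zero]
    | tmul ω3 v =>
    have h : F4 B' b1 d1 c1 (ω3 ⊗ₜ[ℤ] v) x x x =
        ω3 • F4 B' b1 d1 c1 ((1 : Ω) ⊗ₜ[ℤ] v) x x x := by
      rw [t1 ω3]
      simp only [F4, map_smul, LinearMap.smul_apply, smul_sub, smul_add]
    rw [h]
    clear h
    have h5 : F4 B' b1 d1 c1 ((1 : Ω) ⊗ₜ[ℤ] v) x x x = 0 := by
      rw [hb1, hd1, hc1]
      refine cubic_strict h2 (F4 B b d c v) ?_ ?_ ?_ (z4 b d c v) Ω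
        (F4 B' ((1 : Ω) ⊗ₜ[ℤ] b) ((1 : Ω) ⊗ₜ[ℤ] d) ((1 : Ω) ⊗ₜ[ℤ] c) ((1 : Ω) ⊗ₜ[ℤ] v))
        ?_ ?_ ?_ ?_ ?_ ?_ ?_ x
      · intro x x' y z
        simp only [F4, map_add, LinearMap.add_apply]
        abel
      · intro x x' y z
        simp only [F4, map_add, LinearMap.add_apply]
        abel
      · intro x x' y z
        simp only [F4, map_add, LinearMap.add_apply]
        abel
      · intro x x' y z
        simp only [F4, map_add, LinearMap.add_apply]
        abel
      · intro x x' y z
        simp only [F4, map_add, LinearMap.add_apply]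
        abel
      · intro x x' y z
        simp only [F4, map_add, LinearMap.add_apply]
        abel
      · intro x x' y z
        simp only [F4, map_smul, LinearMap.smul_apply, smul_sub, smul_add]
      · intro x x' y z
        simp only [F4, map_smul, LinearMap.smul_apply, smul_sub, smul_add]
      · intro x x' y z
        simp only [F4, map_smul, LinearMap.smul_apply, smul_sub, smul_add]
      · intro x1 x2 x3
        simp only [F4, hcomp, TensorProduct.tmul_sub, TensorProduct.tmul_add]
    rw [h5, smul_zero, smul_zero, smul_zero, smul_zero]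
  constructor
  · intro x y z
    have h := c3 y z x
    rw [F3, hself', LinearMap.add_apply, LinearMap.add_apply, map_add,
      LinearMap.add_apply] at h
    have h5 : (2 : ℤ) • (U' x (B' y z x) - B' x (U' x z) y) = 0 := by
      rw [← h]
      module
    exact sub_eq_zero.mp (hinv _ h5)
  · intro x y
    apply LinearMap.ext
    intro c
    show U' (U' x y) c = U' x (U' y (U' x c))
    have h := c4 y y c x x
    rw [F4, hself' x, hself' y] at h
    simp only [LinearMap.add_apply, map_add] at h
    rw [hself' (U' x y)] at h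
    have h5 : (2 : ℤ) • (2 : ℤ) • (2 : ℤ) • (2 : ℤ) •
        (U' (U' x y) c - U' x (U' y (U' x c))) = 0 := by
      rw [← h]
      simp only [LinearMap.add_apply]
      module
    exact sub_eq_zero.mp (hinv _ (hinv _ (hinv _ (hinv _ h5))))

end Pool.Agent.HuaVal
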