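import Mathlib
import Pool.Agent.HuaVal.Basic
import Pool.Agent.HuaVal.Jordan
import Pool.Agent.HuaVal.LinJ
import Pool.Agent.HuaVal.StrictC

/-!
# Hua systems with a valuation in a chain come from quadratic Jordan division rings
-/

set_option autoImplicit false

open scoped TensorProduct

namespace Pool.Agent.HuaVal

universe u v w

/-- from the vanishing of the deviations to the quadratic Jordan division ring -/
theorem jordan_of_dev {A : Type u} [AddCommGroup A]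
    (h2 : ∀ a : A, a + a = 0 → a = 0)
    (j : A → Option A → Option A) {J : A → A → A} (hJ : JSys J)
    (hjJ : ∀ a b : A, a ≠ 0 → b ≠ 0 → j a (some b) = some (J a b))
    (hT : ∀ e, e ≠ 0 → ∀ x y z c, T3 J e x y z c = 0)
    (hD : ∀ e, e ≠ 0 → ∀ x v, Dv J e x v = 0)
    (hR : ∀ e, e ≠ 0 → ∀ x v, Rr J e x v = 0) {e : A} (he : e ≠ 0) :
    ∃ (one : A) (U : QuadraticMap ℤ A (Module.End ℤ A)),
     JordanIdentities U one ∧
     (∀ (Ω : Type v) [CommRing Ω] (U' : QuadraticMap Ω (Ω ⊗[ℤ] A) (Module.End Ω (Ω ⊗[ℤ] A))),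
        (∀ (a c : A) (ω : Ω), U' ((1 : Ω) ⊗ₜ[ℤ] a) (ω ⊗ₜ[ℤ] c) = ω ⊗ₜ[ℤ] (U a c)) →
        JordanIdentities U' ((1 : Ω) ⊗ₜ[ℤ] one)) ∧
     (∀ a : A, a ≠ 0 → Function.Bijective (U a)) ∧
     (∀ a b c : A, a ≠ 0 → b ≠ 0 → U b c = b → j a (some b) = some (U a c)) := by
  obtain ⟨U, hU⟩ := exists_U hJ h2 hT he
  have hpol : ∀ a b c, QuadraticMap.polar (⇑U) a b c = Pl J e a b c := by
    intro a b c
    simp only [QuadraticMap.polar, LinearMap.sub_apply, hU, Pl]
  have hU1 : U e = 1 := by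
    ext z
    rw [hU, H_self hJ he]
    rfl
  have hU2 : ∀ a b c : A, U a ((QuadraticMap.polar (⇑U) b c) a) =
      (QuadraticMap.polar (⇑U) a (U a c)) b := by
    intro a b c
    rw [hpol, hpol, hU, hU]
    exact second_id hJ he hD a b c
  have hU3 : ∀ a b : A, U (U a b) = U a * U b * U a := by
    intro x y
    ext z
    simp only [Module.End.mul_apply, hU]
    exact H_H' hJ he x y z
  have hU4 : ∀ x v y c : A,
      QuadraticMap.polar (⇑U) (U x y) (QuadraticMap.polar (⇑U) x v y) c =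
      QuadraticMap.polar (⇑U) x v (U y (U x c)) +
      U x (U y (QuadraticMap.polar (⇑U) x v c)) := by
    intro x v y c
    simp only [hpol, hU]
    exact fund_lin hJ he h2 hT hD hR x v y c
  have hbij : ∀ a : A, a ≠ 0 → Function.Bijective (U a) := by
    intro a ha
    refine Function.bijective_iff_has_inverse.mpr ⟨fun y => U (J e a) y, ?_, ?_⟩
    · intro y
      show U (J e a) (U a y) = y
      rw [hU, hU, H_left_inv hJ he ha]
    · intro y
      show U a (U (J e a) y) = y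
      rw [hU, hU, H_right_inv hJ he ha]
  have hd : ∀ a : A, ∃ b, (2 : ℤ) • b = a := exists_div hJ he hU 2 (by
    intro a ha
    apply h2
    rw [← ha]
    module)
  refine ⟨e, U, ⟨hU1, hU2, hU3⟩, ?_, hbij, ?_⟩
  · intro Ω _ U' hU'
    obtain ⟨s2, s3⟩ := strictC h2 hd U hU2 hU4 Ω U' hU'
    refine ⟨?_, s2, s3⟩
    ext x
    simp only [TensorProduct.AlgebraTensorModule.curry_apply, TensorProduct.curry_apply,
      LinearMap.coe_restrictScalars, Module.End.one_apply]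
    rw [hU', hU1]
    rfl
  · intro a b c ha hb hc
    rw [hjJ a b ha hb]
    congr 1
    have h1 := H_inv_self hJ he b
    rw [← hU] at h1
    have h2' : c = J e b := (hbij b hb).1 (hc.trans h1.symm)
    rw [h2', hU, H_of_ne ha, hJ.inv e b he]

/-- **Hua systems with a valuation in a chain** -/
theorem chain_valued {A : Type u} [AddCommGroup A]
    (h2 : ∀ a : A, a + a = 0 → a = 0)
    (j : A → Option A → Option A) (hj : IsHua j)
    {C : Type w} [LinearOrder C] (N : A → C) (σ : C → C)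
    (hmono : Monotone σ) (hzero : σ (N 0) = N 0)
    (hpos : ∀ a, a ≠ 0 → N 0 < N a)
    (hadd : ∀ a b, N (a + b) ≤ σ (max (N a) (N b)))
    (hrev : ∀ (k : ℕ) (a b c x y : A), a ≠ 0 → b ≠ 0 → c ≠ 0 →
      j a (some b) = some x → j a (some c) = some y →
      N b ≤ σ^[k] (N c) → N y ≤ σ^[k] (N x))
    (hlef : ∀ (k : ℕ) (a b c x y : A), a ≠ 0 → b ≠ 0 → c ≠ 0 →
      j a (some c) = some x → j b (some c) = some y →
      N a ≤ σ^[k] (N b) → N x ≤ σ^[2 * k] (N y))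
    (hlarge : ∃ a b, b ≠ 0 ∧ σ (N b) < N a) :
    ∃ (one : A) (U : QuadraticMap ℤ A (Module.End ℤ A)),
     JordanIdentities U one ∧
     (∀ (Ω : Type v) [CommRing Ω] (U' : QuadraticMap Ω (Ω ⊗[ℤ] A) (Module.End Ω (Ω ⊗[ℤ] A))),
        (∀ (a c : A) (ω : Ω), U' ((1 : Ω) ⊗ₜ[ℤ] a) (ω ⊗ₜ[ℤ] c) = ω ⊗ₜ[ℤ] (U a c)) →
        JordanIdentities U' ((1 : Ω) ⊗ₜ[ℤ] one)) ∧
     (∀ a : A, a ≠ 0 → Function.Bijective (U a)) ∧
     (∀ a b c : A, a ≠ 0 → b ≠ 0 → U b c = b → j a (some b) = some (U a c)) := by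
  obtain ⟨J, hJ, hjJ⟩ := exists_J hj
  have hN : ChainNorm J N σ := by
    refine ⟨hmono, hzero, hpos, hadd, ?_, ?_, hlarge⟩
    · intro k a b c ha hb hc h
      exact hrev k a b c _ _ ha hb hc (hjJ a b ha hb) (hjJ a c ha hc) h
    · intro k a b c ha hb hc h
      exact hlef k a b c _ _ ha hb hc (hjJ a c ha hc) (hjJ b c hb hc) h
  obtain ⟨a, b, hb, -⟩ := hlarge
  have hT : ∀ e, e ≠ 0 → ∀ x y z c, T3 J e x y z c = 0 :=
    fun e he x y z c => T3_eq_zero' hJ he hN h2 x y z c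
  have hD : ∀ e, e ≠ 0 → ∀ x v, Dv J e x v = 0 :=
    fun e he => Dv_eq_zero hJ he hN (hT e he) h2
  have hR : ∀ e, e ≠ 0 → ∀ x v, Rr J e x v = 0 :=
    fun e he => Rr_eq_zero hJ he hN h2 (hT e he) (hD e he)
  exact jordan_of_dev h2 j hJ hjJ hT hD hR hb

end Pool.Agent.HuaVal
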