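import Mathlib
import Pool.Agent.HuaVal.MainChain

/-!
# Coarse valuations: reduction to valuations by an ultrapower
-/

set_option autoImplicit false

open Filter
open scoped TensorProduct

namespace Pool.Agent.HuaVal

section

variable {A : Type*} [AddCommGroup A]

/-- the ultrapower -/
abbrev UP (A : Type*) : Type _ := Germ (hyperfilter ℕ : Filter ℕ) A

/-- the maps on the ultrapower -/
noncomputable def JU (J : A → A → A) : UP A → UP A → UP A := Germ.map₂ J

lemma JU_coe (J : A → A → A) (f g : ℕ → A) :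
    JU J (f : UP A) (g : UP A) = ((fun n => J (f n) (g n) : ℕ → A) : UP A) := rfl

lemma coe_ne_zero {f : ℕ → A} : (f : UP A) ≠ 0 ↔ ∀ᶠ n in (hyperfilter ℕ : Filter ℕ), f n ≠ 0 := by
  have h1 : ((f : UP A) = 0) ↔ ∀ᶠ n in (hyperfilter ℕ : Filter ℕ), f n = 0 := by
    exact Germ.coe_eq
  rw [ne_eq, h1, ← Ultrafilter.eventually_not]

lemma coe_ne {f g : ℕ → A} : (f : UP A) ≠ g ↔
    ∀ᶠ n in (hyperfilter ℕ : Filter ℕ), f n ≠ g n := by
  have h1 : ((f : UP A) = g) ↔ ∀ᶠ n in (hyperfilter ℕ : Filter ℕ), f n = g n := by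
    exact Germ.coe_eq
  rw [ne_eq, h1, ← Ultrafilter.eventually_not]

lemma JSys.ultra {J : A → A → A} (hJ : JSys J) : JSys (JU J) := by
  constructor
  · intro a
    refine Germ.inductionOn a fun f hf => ?_
    exact Germ.coe_eq.mpr ((coe_ne_zero.mp hf).mono fun n hn => hJ.zero _ hn)
  · intro a x
    refine Germ.inductionOn a fun f => Germ.inductionOn x fun g hf => ?_
    exact Germ.coe_eq.mpr ((coe_ne_zero.mp hf).mono fun n hn => hJ.inv _ _ hn)
  · intro a
    refine Germ.inductionOn a fun f hf => ?_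
    exact Germ.coe_eq.mpr ((coe_ne_zero.mp hf).mono fun n hn => hJ.self _ hn)
  · intro a b x y
    refine Germ.inductionOn a fun f => Germ.inductionOn b fun g => Germ.inductionOn x fun u =>
      Germ.inductionOn y fun v hf hg => ?_
    exact Germ.coe_eq.mpr (((coe_ne_zero.mp hf).and (coe_ne_zero.mp hg)).mono
      fun n hn => hJ.add _ _ _ _ hn.1 hn.2)
  · intro a x
    refine Germ.inductionOn a fun f => Germ.inductionOn x fun g hf => ?_
    exact Germ.coe_eq.mpr ((coe_ne_zero.mp hf).mono fun n hn => hJ.neg _ _ hn)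
  · intro a x
    refine Germ.inductionOn a fun f => Germ.inductionOn x fun g hf => ?_
    exact Germ.coe_eq.mpr ((coe_ne_zero.mp hf).mono fun n hn => hJ.negl _ _ hn)
  · intro a b x
    refine Germ.inductionOn a fun f => Germ.inductionOn b fun g =>
      Germ.inductionOn x fun u hf hg => ?_
    exact Germ.coe_eq.mpr (((coe_ne_zero.mp hf).and (coe_ne_zero.mp hg)).mono
      fun n hn => hJ.comp _ _ _ hn.1 hn.2)
  · intro e x y
    refine Germ.inductionOn e fun f => Germ.inductionOn x fun g =>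
      Germ.inductionOn y fun u hf hg hu hgu => ?_
    exact Germ.coe_eq.mpr ((((coe_ne_zero.mp hf).and (coe_ne_zero.mp hg)).and
      ((coe_ne_zero.mp hu).and (coe_ne.mp hgu))).mono
      fun n hn => hJ.hua _ _ _ hn.1.1 hn.1.2 hn.2.1 hn.2.2)
  · intro a b x
    refine Germ.inductionOn a fun f => Germ.inductionOn b fun g =>
      Germ.inductionOn x fun u hf hg hfg => ?_
    exact Germ.coe_eq.mpr (((coe_ne_zero.mp hf).and ((coe_ne_zero.mp hg).and
      (coe_ne.mp hfg))).mono fun n hn => hJ.sub _ _ _ hn.1 hn.2.1 hn.2.2)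

/-- the diagonal -/
noncomputable def dg (a : A) : UP A := ((fun _ => a : ℕ → A) : UP A)

lemma dg_inj {a b : A} (h : dg a = dg b) : a = b := Germ.const_inj.mp h

lemma dg_zero : dg (0 : A) = 0 := rfl

lemma dg_add (a b : A) : dg (a + b) = dg a + dg b := rfl

lemma dg_sub (a b : A) : dg (a - b) = dg a - dg b := rfl

lemma dg_J (J : A → A → A) (a b : A) : JU J (dg a) (dg b) = dg (J a b) := rfl

lemma dg_H (J : A → A → A) (e x y : A) : H (JU J) (dg e) (dg x) (dg y) = dg (H J e x y) := by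
  by_cases hx : x = 0
  · rw [hx, H_zero_left, dg_zero, H_zero_left]
  · have h1 : dg x ≠ 0 := fun h => hx (dg_inj (h.trans dg_zero.symm))
    rw [H_of_ne hx, H_of_ne h1, dg_J, dg_J]

lemma dg_P (J : A → A → A) (e x y c : A) :
    Pl (JU J) (dg e) (dg x) (dg y) (dg c) = dg (Pl J e x y c) := by
  rw [Pl, Pl, dg_sub, dg_sub, ← dg_H, ← dg_H, ← dg_H, dg_add]

lemma dg_T3 (J : A → A → A) (e x y z c : A) :
    T3 (JU J) (dg e) (dg x) (dg y) (dg z) (dg c) = dg (T3 J e x y z c) := by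
  simp only [T3, dg_sub, dg_add, ← dg_H]

lemma dg_Dv (J : A → A → A) (e x y : A) :
    Dv (JU J) (dg e) (dg x) (dg y) = dg (Dv J e x y) := by
  simp only [Dv, dg_sub, ← dg_P]

lemma dg_Rr (J : A → A → A) (e x y : A) :
    Rr (JU J) (dg e) (dg x) (dg y) = dg (Rr J e x y) := by
  simp only [Rr, dg_sub, dg_add, ← dg_P, ← dg_H]

lemma ultra_two (h2 : ∀ a : A, a + a = 0 → a = 0) (a : UP A) (ha : a + a = 0) : a = 0 := by
  revert ha
  refine Germ.inductionOn a fun f hf => ?_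
  exact Germ.coe_eq.mpr ((Germ.coe_eq.mp hf).mono fun n hn => h2 _ hn)

end

section

variable {A : Type*} [AddCommGroup A] {J : A → A → A}
  {C : Type*} [LinearOrder C] {N : A → C} {σ : C → C}

/-- a coarse valuation -/
structure CoarseNorm {A : Type*} [AddCommGroup A] (J : A → A → A)
    {C : Type*} [LinearOrder C] (N : A → C) (σ : C → C) : Prop where
  mono : Monotone σ
  zero : σ (N 0) = N 0
  pos : ∀ a, a ≠ 0 → N 0 < N a
  add : ∀ a b, N (a + b) ≤ σ (max (N a) (N b))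
  rev : ∀ k : ℕ, ∃ l : ℕ, ∀ a b c : A, a ≠ 0 → b ≠ 0 → c ≠ 0 → N b ≤ σ^[k] (N c) →
    N (J a c) ≤ σ^[l] (N (J a b))
  lef : ∀ k : ℕ, ∃ l : ℕ, ∀ a b c : A, a ≠ 0 → b ≠ 0 → c ≠ 0 → N a ≤ σ^[k] (N b) →
    N (J a c) ≤ σ^[l] (N (J b c))
  large : ∀ k : ℕ, ∃ a b, b ≠ 0 ∧ σ^[k] (N b) < N a

/-- the coarse order on the ultrapower -/
def leU (N : A → C) (σ : C → C) (x y : UP A) : Prop :=
  ∃ k : ℕ, Germ.LiftRel (fun a b => N a ≤ σ^[k] (N b)) x y

lemma leU_coe (N : A → C) (σ : C → C) (f g : ℕ → A) : leU N σ (f : UP A) (g : UP A) ↔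
    ∃ k : ℕ, ∀ᶠ n in (hyperfilter ℕ : Filter ℕ), N (f n) ≤ σ^[k] (N (g n)) := Iff.rfl

section

variable (hN : CoarseNorm J N σ)

include hN

lemma CoarseNorm.zero_le (a : A) : N 0 ≤ N a := by
  by_cases ha : a = 0
  · rw [ha]
  · exact (hN.pos a ha).le

lemma CoarseNorm.le_self (a : A) : N a ≤ σ (N a) := by
  have h := hN.add a 0
  rwa [add_zero, max_eq_left (hN.zero_le a)] at h

lemma CoarseNorm.le_iter (a : A) (k : ℕ) : N a ≤ σ^[k] (N a) := by
  induction k with
  | zero => exact le_rfl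
  | succ k ih =>
    rw [Function.iterate_succ_apply]
    exact ih.trans (hN.mono.iterate k (hN.le_self a))

lemma CoarseNorm.iter_le (a : A) {k l : ℕ} (h : k ≤ l) : σ^[k] (N a) ≤ σ^[l] (N a) := by
  obtain ⟨m, rfl⟩ := Nat.exists_eq_add_of_le h
  rw [Function.iterate_add_apply]
  exact hN.mono.iterate k (hN.le_iter a m)

lemma CoarseNorm.iter_zero (k : ℕ) : σ^[k] (N 0) = N 0 := by
  induction k with
  | zero => rfl
  | succ k ih => rw [Function.iterate_succ_apply, hN.zero, ih]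

/-- the coarse order is a total preorder -/
@[reducible]
def preU : Preorder (UP A) where
  le := leU N σ
  le_refl := by
    intro x
    refine Germ.inductionOn x fun f => ?_
    exact ⟨0, Eventually.of_forall fun n => le_rfl⟩
  le_trans := by
    intro x y z
    refine Germ.inductionOn x fun f => Germ.inductionOn y fun g => Germ.inductionOn z fun h => ?_
    rintro ⟨k, hk⟩ ⟨l, hl⟩
    have hk' : ∀ᶠ n in (hyperfilter ℕ : Filter ℕ), N (f n) ≤ σ^[k] (N (g n)) := hk
    have hl' : ∀ᶠ n in (hyperfilter ℕ : Filter ℕ), N (g n) ≤ σ^[l] (N (h n)) := hl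
    refine ⟨k + l, (hk'.and hl').mono fun n hn => ?_⟩
    show N (f n) ≤ σ^[k + l] (N (h n))
    rw [Function.iterate_add_apply]
    exact hn.1.trans (hN.mono.iterate k hn.2)

omit hN in
lemma totU (x y : UP A) : leU N σ x y ∨ leU N σ y x := by
  refine Germ.inductionOn x fun f => Germ.inductionOn y fun g => ?_
  have h : ∀ᶠ n in (hyperfilter ℕ : Filter ℕ), (N (f n) ≤ N (g n) ∨ N (g n) ≤ N (f n)) :=
    Eventually.of_forall fun n => le_total _ _
  rcases Ultrafilter.eventually_or.mp h with h | h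
  · exact Or.inl ⟨0, h⟩
  · exact Or.inr ⟨0, h⟩

end

end

universe u v w

/-- the valuation of the ultrapower -/
theorem exists_chain {A : Type u} [AddCommGroup A] {J : A → A → A}
    {C : Type w} [LinearOrder C] {N : A → C} {σ : C → C} (hN : CoarseNorm J N σ) :
    ∃ (C' : Type u) (_ : LinearOrder C') (N' : UP A → C'), ChainNorm (JU J) N' id := by
  classical
  let _ := preU hN
  have : @Std.Total (UP A) (· ≤ ·) := ⟨totU⟩
  refine ⟨Antisymmetrization (UP A) (· ≤ ·), inferInstance,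
    toAntisymmetrization (· ≤ ·), ?_⟩
  have hle : ∀ x y : UP A, toAntisymmetrization (· ≤ ·) x ≤ toAntisymmetrization (· ≤ ·) y ↔
      leU N σ x y := fun x y => Iff.rfl
  have hid : ∀ k : ℕ, (id : Antisymmetrization (UP A) (· ≤ ·) → _)^[k] = id :=
    fun k => Function.iterate_id k
  have hadd : ∀ x y : UP A, leU N σ x y → leU N σ (x + y) y := by
    intro x y
    refine Germ.inductionOn x fun f => Germ.inductionOn y fun g => ?_
    rintro ⟨k, hk⟩
    have hk' : ∀ᶠ n in (hyperfilter ℕ : Filter ℕ), N (f n) ≤ σ^[k] (N (g n)) := hk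
    refine ⟨k + 1, hk'.mono fun n hn => ?_⟩
    show N (f n + g n) ≤ σ^[k + 1] (N (g n))
    refine (hN.add _ _).trans ?_
    rw [Function.iterate_succ_apply']
    exact hN.mono (max_le hn (hN.le_iter _ k))
  refine ⟨monotone_id, rfl, ?_, ?_, ?_, ?_, ?_⟩
  · intro a
    refine Germ.inductionOn a fun f hf => ?_
    refine lt_of_le_not_ge ?_ ?_
    · exact ⟨0, Eventually.of_forall fun n => hN.zero_le _⟩
    · intro h
      rw [hle] at h
      obtain ⟨k, hk⟩ := h
      have hk' : ∀ᶠ n in (hyperfilter ℕ : Filter ℕ), N (f n) ≤ σ^[k] (N 0) := hk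
      obtain ⟨n, hn1, hn2⟩ := (hk'.and (coe_ne_zero.mp hf)).exists
      rw [hN.iter_zero] at hn1
      exact absurd (hN.pos _ hn2) (not_lt.mpr hn1)
  · intro a b
    rcases totU (N := N) (σ := σ) a b with h | h
    · exact ((hle _ _).mpr (hadd a b h)).trans (le_max_right _ _)
    · rw [add_comm a b]
      exact ((hle _ _).mpr (hadd b a h)).trans (le_max_left _ _)
  · intro k a b c
    rw [hid]
    refine Germ.inductionOn a fun f => Germ.inductionOn b fun g =>
      Germ.inductionOn c fun h hf hg hh hgh => ?_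
    obtain ⟨m, hm⟩ := (hle _ _).mp hgh
    have hm' : ∀ᶠ n in (hyperfilter ℕ : Filter ℕ), N (g n) ≤ σ^[m] (N (h n)) := hm
    obtain ⟨l, hl⟩ := hN.rev m
    refine (hle _ _).mpr ⟨l, ?_⟩
    exact (((coe_ne_zero.mp hf).and (coe_ne_zero.mp hg)).and
      ((coe_ne_zero.mp hh).and hm')).mono fun n hn =>
        hl _ _ _ hn.1.1 hn.1.2 hn.2.1 hn.2.2
  · intro k a b c
    rw [hid, hid]
    refine Germ.inductionOn a fun f => Germ.inductionOn b fun g =>
      Germ.inductionOn c fun h hf hg hh hgh => ?_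
    obtain ⟨m, hm⟩ := (hle _ _).mp hgh
    have hm' : ∀ᶠ n in (hyperfilter ℕ : Filter ℕ), N (f n) ≤ σ^[m] (N (g n)) := hm
    obtain ⟨l, hl⟩ := hN.lef m
    refine (hle _ _).mpr ⟨l, ?_⟩
    exact (((coe_ne_zero.mp hf).and (coe_ne_zero.mp hg)).and
      ((coe_ne_zero.mp hh).and hm')).mono fun n hn =>
        hl _ _ _ hn.1.1 hn.1.2 hn.2.1 hn.2.2
  · choose a b hb hab using hN.large
    refine ⟨((fun n => a n : ℕ → A) : UP A), ((fun n => b n : ℕ → A) : UP A), ?_, ?_⟩
    · exact coe_ne_zero.mpr (Eventually.of_forall hb)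
    · refine not_le.mp ?_
      intro h
      obtain ⟨k, hk⟩ := (hle _ _).mp h
      have hk' : ∀ᶠ n in (hyperfilter ℕ : Filter ℕ), N (a n) ≤ σ^[k] (N (b n)) := hk
      have hk2 : ∀ᶠ n in (hyperfilter ℕ : Filter ℕ), k ≤ n :=
        Nat.hyperfilter_le_atTop (eventually_ge_atTop k)
      obtain ⟨n, hn1, hn2⟩ := (hk'.and hk2).exists
      exact absurd (hab n) (not_lt.mpr (hn1.trans (hN.iter_le _ hn2)))

/-- **Hua systems with a coarse valuation in a chain** -/
theorem coarse_valued {A : Type u} [AddCommGroup A]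
    (h2 : ∀ a : A, a + a = 0 → a = 0)
    (j : A → Option A → Option A) (hj : IsHua j)
    {C : Type w} [LinearOrder C] (N : A → C) (σ : C → C)
    (hmono : Monotone σ) (hzero : σ (N 0) = N 0)
    (hpos : ∀ a, a ≠ 0 → N 0 < N a)
    (hadd : ∀ a b, N (a + b) ≤ σ (max (N a) (N b)))
    (hrev : ∀ k : ℕ, ∃ l : ℕ, ∀ a b c x y : A, a ≠ 0 → b ≠ 0 → c ≠ 0 →
      j a (some b) = some x → j a (some c) = some y →
      N b ≤ σ^[k] (N c) → N y ≤ σ^[l] (N x))
    (hlef : ∀ k : ℕ, ∃ l : ℕ, ∀ a b c x y : A, a ≠ 0 → b ≠ 0 → c ≠ 0 →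
      j a (some c) = some x → j b (some c) = some y →
      N a ≤ σ^[k] (N b) → N x ≤ σ^[l] (N y))
    (hlarge : ∀ k : ℕ, ∃ a b, b ≠ 0 ∧ σ^[k] (N b) < N a) :
    ∃ (one : A) (U : QuadraticMap ℤ A (Module.End ℤ A)),
     JordanIdentities U one ∧
     (∀ (Ω : Type v) [CommRing Ω]
        (U' : QuadraticMap Ω (TensorProduct ℤ Ω A) (Module.End Ω (TensorProduct ℤ Ω A))),
        (∀ (a c : A) (ω : Ω), U' ((1 : Ω) ⊗ₜ[ℤ] a) (ω ⊗ₜ[ℤ] c) = ω ⊗ₜ[ℤ] (U a c)) →
        JordanIdentities U' ((1 : Ω) ⊗ₜ[ℤ] one)) ∧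
     (∀ a : A, a ≠ 0 → Function.Bijective (U a)) ∧
     (∀ a b c : A, a ≠ 0 → b ≠ 0 → U b c = b → j a (some b) = some (U a c)) := by
  obtain ⟨J, hJ, hjJ⟩ := exists_J hj
  have hN : CoarseNorm J N σ := by
    refine ⟨hmono, hzero, hpos, hadd, ?_, ?_, hlarge⟩
    · intro k
      obtain ⟨l, hl⟩ := hrev k
      exact ⟨l, fun a b c ha hb hc h =>
        hl a b c _ _ ha hb hc (hjJ a b ha hb) (hjJ a c ha hc) h⟩
    · intro k
      obtain ⟨l, hl⟩ := hlef k
      exact ⟨l, fun a b c ha hb hc h =>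
        hl a b c _ _ ha hb hc (hjJ a c ha hc) (hjJ b c hb hc) h⟩
  obtain ⟨C', hC', N', hN'⟩ := exists_chain hN
  have hJU := hJ.ultra
  have h2U := ultra_two h2
  have hdg : ∀ e : A, e ≠ 0 → dg e ≠ 0 := fun e he h => he (dg_inj (h.trans dg_zero.symm))
  have hTU : ∀ e, e ≠ 0 → ∀ x y z c, T3 (JU J) e x y z c = 0 :=
    fun e he x y z c => T3_eq_zero' hJU he hN' h2U x y z c
  have hDU : ∀ e, e ≠ 0 → ∀ x v, Dv (JU J) e x v = 0 :=
    fun e he => Dv_eq_zero hJU he hN' (hTU e he) h2U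
  have hRU : ∀ e, e ≠ 0 → ∀ x v, Rr (JU J) e x v = 0 :=
    fun e he => Rr_eq_zero hJU he hN' h2U (hTU e he) (hDU e he)
  have hT : ∀ e, e ≠ 0 → ∀ x y z c, T3 J e x y z c = 0 := by
    intro e he x y z c
    have h := hTU (dg e) (hdg e he) (dg x) (dg y) (dg z) (dg c)
    rw [dg_T3] at h
    exact dg_inj (h.trans dg_zero.symm)
  have hD : ∀ e, e ≠ 0 → ∀ x v, Dv J e x v = 0 := by
    intro e he x v
    have h := hDU (dg e) (hdg e he) (dg x) (dg v)
    rw [dg_Dv] at h
    exact dg_inj (h.trans dg_zero.symm)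
  have hR : ∀ e, e ≠ 0 → ∀ x v, Rr J e x v = 0 := by
    intro e he x v
    have h := hRU (dg e) (hdg e he) (dg x) (dg v)
    rw [dg_Rr] at h
    exact dg_inj (h.trans dg_zero.symm)
  obtain ⟨a, b, hb, -⟩ := hlarge 0
  exact jordan_of_dev h2 j hJ hjJ hT hD hR hb

private lemma q_rev {Γ : Type w} [LinearOrderedCommGroupWithZero Γ] {x y a b c K : Γ}
    (hb : 0 < b) (hc : 0 < c) (h1 : x * b = a ^ 2) (h3 : y * c = a ^ 2) (h : b ≤ K * c) :
    y ≤ K * x := by
  have h4 : y * (b * c) ≤ K * x * (b * c) := by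
    calc y * (b * c) = (y * c) * b := by ac_rfl
      _ = (x * b) * b := by rw [h3, h1]
      _ ≤ (x * b) * (K * c) := mul_le_mul_right h _
      _ = K * x * (b * c) := by ac_rfl
  exact le_of_mul_le_mul_right h4 (mul_pos hb hc)

private lemma q_lef {Γ : Type w} [LinearOrderedCommGroupWithZero Γ] {x y a b c K : Γ}
    (hc : 0 < c) (h1 : x * c = a ^ 2) (h3 : y * c = b ^ 2) (h : a ≤ K * b) :
    x ≤ K ^ 2 * y := by
  have h4 : x * c ≤ K ^ 2 * y * c := by
    calc x * c = a ^ 2 := h1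
      _ ≤ (K * b) ^ 2 := pow_le_pow_left₀ zero_le h 2
      _ = K ^ 2 * (y * c) := by rw [h3, mul_pow]
      _ = K ^ 2 * y * c := by rw [mul_assoc]
  exact le_of_mul_le_mul_right h4 hc

/-- the case of a quasi-norm with values in a linearly ordered group with zero -/
theorem valued' {A : Type u} [AddCommGroup A]
    (h2 : ∀ a : A, a + a = 0 → a = 0)
    (j : A → Option A → Option A) (hj : IsHua j)
    {Γ : Type w} [LinearOrderedCommGroupWithZero Γ] (N : A → Γ) (K : Γ)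
    (hN0 : ∀ a, N a = 0 ↔ a = 0)
    (hNadd : ∀ a b, N (a + b) ≤ K * max (N a) (N b))
    (hNj : ∀ a b c, a ≠ 0 → b ≠ 0 → j a (some b) = some c → N c * N b = N a ^ 2)
    (hNl : ∃ a b, b ≠ 0 ∧ K * N b < N a) :
    ∃ (one : A) (U : QuadraticMap ℤ A (Module.End ℤ A)),
     JordanIdentities U one ∧
     (∀ (Ω : Type v) [CommRing Ω]
        (U' : QuadraticMap Ω (TensorProduct ℤ Ω A) (Module.End Ω (TensorProduct ℤ Ω A))),
        (∀ (a c : A) (ω : Ω), U' ((1 : Ω) ⊗ₜ[ℤ] a) (ω ⊗ₜ[ℤ] c) = ω ⊗ₜ[ℤ] (U a c)) →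
        JordanIdentities U' ((1 : Ω) ⊗ₜ[ℤ] one)) ∧
     (∀ a : A, a ≠ 0 → Function.Bijective (U a)) ∧
     (∀ a b c : A, a ≠ 0 → b ≠ 0 → U b c = b → j a (some b) = some (U a c)) := by
  have h00 : N 0 = 0 := (hN0 0).mpr rfl
  have hpos : ∀ a, a ≠ 0 → 0 < N a := fun a ha => zero_lt_iff.mpr fun h => ha ((hN0 a).mp h)
  have hit : ∀ (k : ℕ) (t : Γ), (fun s => K * s)^[k] t = K ^ k * t := by
    intro k
    induction k with
    | zero => intro t; simp
    | succ k ih =>
      intro t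
      rw [Function.iterate_succ_apply, ih, pow_succ, mul_assoc]
  have hmono : Monotone (fun s => K * s) := fun a b h => mul_le_mul_right h K
  obtain ⟨J, hJ, hjJ⟩ := exists_J hj
  obtain ⟨a, b, hb, hab⟩ := hNl
  have hC : ChainNorm J N (fun s => K * s) := by
    refine ⟨hmono, by rw [h00, mul_zero], fun a ha => by rw [h00]; exact hpos a ha, hNadd,
      ?_, ?_, ⟨a, b, hb, hab⟩⟩
    · intro k a b c ha hb hc h
      rw [hit] at h ⊢
      exact q_rev (hpos b hb) (hpos c hc) (hNj a b _ ha hb (hjJ a b ha hb))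
        (hNj a c _ ha hc (hjJ a c ha hc)) h
    · intro k a b c ha hb hc h
      rw [hit] at h ⊢
      rw [mul_comm 2 k, pow_mul]
      exact q_lef (hpos c hc) (hNj a c _ ha hc (hjJ a c ha hc))
        (hNj b c _ hb hc (hjJ b c hb hc)) h
  refine coarse_valued h2 j hj N (fun s => K * s) hmono ?_ ?_ hNadd ?_ ?_ ?_
  · rw [h00, mul_zero]
  · intro a ha
    rw [h00]
    exact hpos a ha
  · intro k
    refine ⟨k, fun a b c x y ha hb hc hx hy h => ?_⟩
    rw [hjJ a b ha hb] at hx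
    rw [hjJ a c ha hc] at hy
    rw [← Option.some_injective _ hx, ← Option.some_injective _ hy]
    exact hC.rev k a b c ha hb hc h
  · intro k
    refine ⟨2 * k, fun a b c x y ha hb hc hx hy h => ?_⟩
    rw [hjJ a c ha hc] at hx
    rw [hjJ b c hb hc] at hy
    rw [← Option.some_injective _ hx, ← Option.some_injective _ hy]
    exact hC.lef k a b c ha hb hc h
  · intro k
    obtain ⟨d, hd⟩ := exists_gap hJ hC b k
    exact ⟨d, b, hb, not_le.mp hd⟩

end Pool.Agent.HuaVal
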